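import Mathlib

/-!
# Weighted Steklov eigenvalues of the unit disc: definitions
-/

open Complex Set MeasureTheory
open scoped ContDiff Real

namespace Pool.Agent.Steklov

/-- Lebesgue measure on the open unit disc `𝔻`. -/
noncomputable def muD : Measure ℂ := volume.restrict (Metric.ball (0:ℂ) 1)

/-- Arclength measure on the unit circle `Γ`, written in the angle `θ ∈ (-π, π]`. -/
noncomputable def muG : Measure ℝ := volume.restrict (Ioc (-π) π)

/-- The point of the unit circle at the angle `θ`. -/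
noncomputable def circ (θ : ℝ) : ℂ := cexp (θ * I)

/-- Quadruples `(u, g₁, g₂, f)` of functions `u, g₁, g₂` on `𝔻` and `f` on `Γ` (in terms of the
angle). -/
structure Quad where
  /-- the function itself -/
  u : ℂ → ℝ
  /-- first component of the gradient -/
  g₁ : ℂ → ℝ
  /-- second component of the gradient -/
  g₂ : ℂ → ℝ
  /-- the boundary values -/
  f : ℝ → ℝ

/-- `w = (u, g₁, g₂, f)` is a function `u ∈ H¹(𝔻)` together with its weak gradient `(g₁, g₂)` and its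
trace `f` on `Γ`: here `u, g₁, g₂ ∈ L²(𝔻)` and `f ∈ L²(Γ)`, and Green's formula
`∫_𝔻 (u ∂_i φ + g_i φ) = ∫_Γ f φ ν_i` holds for `i = 1, 2` and all `φ ∈ C^∞(ℝ²)`. -/
def IsSobolev (w : Quad) : Prop :=
  MemLp w.u 2 muD ∧ MemLp w.g₁ 2 muD ∧ MemLp w.g₂ 2 muD ∧ MemLp w.f 2 muG ∧
    ∀ φ : ℂ → ℝ, ContDiff ℝ ∞ φ →
      ((∫ z, w.u z * fderiv ℝ φ z 1 ∂muD) + ∫ z, w.g₁ z * φ z ∂muD =
        ∫ θ, w.f θ * (φ (circ θ) * Real.cos θ) ∂muG) ∧
      ((∫ z, w.u z * fderiv ℝ φ z I ∂muD) + ∫ z, w.g₂ z * φ z ∂muD =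
        ∫ θ, w.f θ * (φ (circ θ) * Real.sin θ) ∂muG)

/-- The linear combination `∑ c_i w_i`. -/
noncomputable def comb {m : ℕ} (w : Fin m → Quad) (c : Fin m → ℝ) : Quad where
  u z := ∑ i, c i * (w i).u z
  g₁ z := ∑ i, c i * (w i).g₁ z
  g₂ z := ∑ i, c i * (w i).g₂ z
  f θ := ∑ i, c i * (w i).f θ

/-- The Rayleigh quotient `∫_𝔻 |∇u|² / ∫_Γ ρ u²` of `w = (u, g₁, g₂, f)`, with the value `∞` if the
denominator vanishes. -/
noncomputable def quotient (ρ : ℝ → ℝ) (w : Quad) : ENNReal :=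
  if ∫ θ, ρ θ * w.f θ ^ 2 ∂muG = 0 then ⊤ else
    ENNReal.ofReal ((∫ z, (w.g₁ z ^ 2 + w.g₂ z ^ 2) ∂muD) / ∫ θ, ρ θ * w.f θ ^ 2 ∂muG)

/-- The `k`-th weighted Steklov eigenvalue `λ_k(ρ)`: the infimum, over the linearly independent
families `w_0, ..., w_k` in `H¹(𝔻)`, of the supremum of the Rayleigh quotient over the nonzero
elements of their span. (Linear independence is that of classes of functions modulo almost
everywhere vanishing ones.) -/
noncomputable def eigenvalue (k : ℕ) (ρ : ℝ → ℝ) : ENNReal :=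
  ⨅ (w : Fin (k + 1) → Quad) (_ : ∀ i, IsSobolev (w i))
    (_ : ∀ c : Fin (k + 1) → ℝ, (∀ᵐ z ∂muD, (comb w c).u z = 0) → ∀ i, c i = 0),
    ⨆ (c : Fin (k + 1) → ℝ) (_ : ∃ i, c i ≠ 0), quotient ρ (comb w c)

/-- The class `A_α` of admissible densities: measurable `2π`-periodic functions `ρ` of the angle with
`0 ≤ ρ ≤ 1` and `∫_Γ ρ ds = α |Γ|`. -/
def IsDensity (α : ℝ) (ρ : ℝ → ℝ) : Prop :=
  Measurable ρ ∧ Function.Periodic ρ (2 * π) ∧ (∀ θ, 0 ≤ ρ θ ∧ ρ θ ≤ 1) ∧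
    ∫ θ, ρ θ ∂muG = α * (2 * π)

/-- The union `I^n_α` of the `n` equal arcs `[π(2ℓ-α)/n, π(2ℓ+α)/n]` (angles mod `2π`), as a
`2π`-periodic subset of `ℝ`. -/
def arcs (n : ℕ) (α : ℝ) : Set ℝ := {θ | ∃ l : ℤ, |θ - 2 * π * l / n| ≤ π * α / n}

/-- The density `1_{I^n_α}`, as a `2π`-periodic function of the angle. -/
noncomputable def arcsDensity (n : ℕ) (α : ℝ) : ℝ → ℝ := (arcs n α).indicator (fun _ => 1)

/-- The union of the two closed arcs of length `π ε` centred at the angles `0` and `π/2`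
(angles mod `2π`), as a `2π`-periodic subset of `ℝ`. -/
def gaps (ε : ℝ) : Set ℝ :=
  {θ | ∃ m : ℤ, |θ - 2 * π * m| ≤ π * ε / 2 ∨ |θ - π / 2 - 2 * π * m| ≤ π * ε / 2}

/-- The indicator of the complement of the two arcs `gaps ε`. -/
noncomputable def gapDensity (ε : ℝ) : ℝ → ℝ := (gaps ε)ᶜ.indicator (fun _ => 1)

end Pool.Agent.Steklov
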