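import Pool.Agent.Steklov.Defs

/-!
# Weighted Steklov eigenvalues of the unit disc: proofs

Write `ε = 1 - α`, `K = ⌊1/ε⌋` and `H = 1 + 1/2 + ... + 1/K`. We show that the second eigenvalue
for the indicator of the complement of two arcs of length `π ε` centred at the angles `0` and
`π / 2` is at most `1 + ε - (5/6) ε² H` (explicit three-dimensional trial space), and that the one
for the indicator of `I^3_α` is at least `1 + ε - (3/4) ε² H`.
-/

open Complex Set Filter Topology Metric MeasureTheory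
open scoped ContDiff Real

namespace Pool.Agent.Steklov

/-- polar coordinates -/
noncomputable def pol (p : ℝ × ℝ) : ℂ := (p.1 : ℂ) * ((Real.cos p.2 : ℂ) + (Real.sin p.2 : ℂ) * I)

lemma contDiff_pol : ContDiff ℝ ∞ pol := by
  unfold pol
  have h1 : ContDiff ℝ ∞ (fun p : ℝ × ℝ => (p.1 : ℂ)) := ofRealCLM.contDiff.comp contDiff_fst
  have h2 : ContDiff ℝ ∞ (fun p : ℝ × ℝ => ((Real.cos p.2 : ℝ) : ℂ)) :=
    ofRealCLM.contDiff.comp (Real.contDiff_cos.comp contDiff_snd)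
  have h3 : ContDiff ℝ ∞ (fun p : ℝ × ℝ => ((Real.sin p.2 : ℝ) : ℂ)) :=
    ofRealCLM.contDiff.comp (Real.contDiff_sin.comp contDiff_snd)
  exact h1.mul (h2.add (h3.mul contDiff_const))

lemma hasDerivAt_pol_r (r θ : ℝ) :
    HasDerivAt (fun r => pol (r, θ)) ((Real.cos θ : ℂ) + (Real.sin θ : ℂ) * I) r := by
  unfold pol
  have h : HasDerivAt (fun r : ℝ => (r : ℂ)) 1 r := (hasDerivAt_id r).ofReal_comp
  simpa using h.mul_const ((Real.cos θ : ℂ) + (Real.sin θ : ℂ) * I)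

lemma hasDerivAt_pol_θ (r θ : ℝ) :
    HasDerivAt (fun θ => pol (r, θ)) ((r : ℂ) * (-(Real.sin θ : ℂ) + (Real.cos θ : ℂ) * I)) θ := by
  unfold pol
  have h1 : HasDerivAt (fun θ : ℝ => ((Real.cos θ : ℝ) : ℂ)) ((-Real.sin θ : ℝ) : ℂ) θ :=
    (Real.hasDerivAt_cos θ).ofReal_comp
  have h2 : HasDerivAt (fun θ : ℝ => ((Real.sin θ : ℝ) : ℂ)) ((Real.cos θ : ℝ) : ℂ) θ :=
    (Real.hasDerivAt_sin θ).ofReal_comp
  have := (h1.add (h2.mul_const I)).const_mul (r : ℂ)
  refine this.congr_deriv ?_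
  push_cast
  ring

lemma polar_rect (F : ℂ → ℝ) :
    ∫ z in ball (0:ℂ) 1, F z = ∫ p in Icc ((0:ℝ), -π) (1, π), p.1 * F (pol p) := by
  rw [← integral_indicator measurableSet_ball, ← Complex.integral_comp_polarCoord_symm]
  have hset : (Icc ((0:ℝ), -π) (1, π) : Set (ℝ × ℝ)) = Icc (0:ℝ) 1 ×ˢ Icc (-π) π := by
    rw [Icc_prod_eq]
  have h1 : (Ioo (0:ℝ) 1 ×ˢ Ioo (-π) π : Set (ℝ × ℝ)) =ᵐ[volume] (Icc (0:ℝ) 1 ×ˢ Icc (-π) π : Set (ℝ × ℝ)) := by
    rw [Measure.volume_eq_prod]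
    exact Measure.set_prod_ae_eq Ioo_ae_eq_Icc Ioo_ae_eq_Icc
  rw [hset, ← setIntegral_congr_set h1]
  have h2 : (∫ p in polarCoord.target, p.1 • (ball (0:ℂ) 1).indicator (fun z => F z) (Complex.polarCoord.symm p))
      = ∫ p in polarCoord.target, (Ioo (0:ℝ) 1 ×ˢ Ioo (-π) π).indicator (fun p => p.1 * F (pol p)) p := by
    apply setIntegral_congr_fun
    · exact polarCoord.open_target.measurableSet
    · intro p hp
      rw [polarCoord_target] at hp
      have hp1 : 0 < p.1 := hp.1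
      have hsymm : Complex.polarCoord.symm p = pol p := by
        rw [Complex.polarCoord_symm_apply]; rfl
      have hnorm : ‖Complex.polarCoord.symm p‖ = p.1 := by
        rw [Complex.norm_polarCoord_symm, abs_of_pos hp1]
      by_cases h : p.1 < 1
      · have e1 : Complex.polarCoord.symm p ∈ ball (0:ℂ) 1 := by
          rw [mem_ball_zero_iff, hnorm]; exact h
        have e2 : p ∈ (Ioo (0:ℝ) 1 ×ˢ Ioo (-π) π : Set (ℝ × ℝ)) := ⟨⟨hp1, h⟩, hp.2⟩
        show p.1 • (ball (0:ℂ) 1).indicator (fun z => F z) (Complex.polarCoord.symm p) = _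
        rw [indicator_of_mem e1, indicator_of_mem e2, hsymm, smul_eq_mul]
      · have e1 : Complex.polarCoord.symm p ∉ ball (0:ℂ) 1 := by
          rw [mem_ball_zero_iff, hnorm]; exact h
        have e2 : p ∉ (Ioo (0:ℝ) 1 ×ˢ Ioo (-π) π : Set (ℝ × ℝ)) := fun hh => h hh.1.2
        simp only [indicator_of_notMem e1, indicator_of_notMem e2, smul_zero]
  rw [h2, setIntegral_indicator (measurableSet_Ioo.prod measurableSet_Ioo)]
  congr 2
  rw [polarCoord_target]
  ext p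
  constructor
  · rintro ⟨_, h⟩; exact h
  · rintro h; exact ⟨⟨h.1.1, h.2⟩, h⟩

lemma fderiv_decomp (ψ : ℂ → ℝ) (z : ℂ) (a b : ℝ) :
    fderiv ℝ ψ z ((a : ℂ) + (b : ℂ) * I) = a * fderiv ℝ ψ z 1 + b * fderiv ℝ ψ z I := by
  have h1 : (a : ℂ) = a • (1 : ℂ) := by simp
  have h2 : (b : ℂ) * I = b • I := by simp
  rw [map_add, h2, map_smul, h1, map_smul, smul_eq_mul, smul_eq_mul]

lemma disc_divergence (ψ : ℂ → ℝ) (hψ : ContDiff ℝ 2 ψ) (v : ℂ) :
    ∫ z in ball (0:ℂ) 1, fderiv ℝ ψ z v =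
      ∫ θ in (-π)..π, ψ (pol (1, θ)) * (v.re * Real.cos θ + v.im * Real.sin θ) := by
  rw [polar_rect (fun z => fderiv ℝ ψ z v)]
  have hψd : Differentiable ℝ ψ := hψ.differentiable (by norm_num)
  have hpol2 : ContDiff ℝ 2 pol := contDiff_pol.of_le (WithTop.coe_le_coe.mpr le_top)
  have hψp : ContDiff ℝ 2 (fun p => ψ (pol p)) := hψ.comp hpol2
  have hcos : ContDiff ℝ 2 (fun p : ℝ × ℝ => Real.cos p.2) := Real.contDiff_cos.comp contDiff_snd
  have hsin : ContDiff ℝ 2 (fun p : ℝ × ℝ => Real.sin p.2) := Real.contDiff_sin.comp contDiff_snd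
  set f : ℝ × ℝ → ℝ := fun p => p.1 * (v.re * Real.cos p.2 + v.im * Real.sin p.2) * ψ (pol p) with hf
  set g : ℝ × ℝ → ℝ := fun p => (-v.re * Real.sin p.2 + v.im * Real.cos p.2) * ψ (pol p) with hg
  have hfC : ContDiff ℝ 2 f :=
    (contDiff_fst.mul ((contDiff_const.mul hcos).add (contDiff_const.mul hsin))).mul hψp
  have hgC : ContDiff ℝ 2 g :=
    ((contDiff_const.mul hsin).add (contDiff_const.mul hcos)).mul hψp
  have hfd : Differentiable ℝ f := hfC.differentiable (by norm_num)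
  have hgd : Differentiable ℝ g := hgC.differentiable (by norm_num)
  -- partial derivatives
  have e1 : ∀ p : ℝ × ℝ, fderiv ℝ f p (1, 0) =
      (v.re * Real.cos p.2 + v.im * Real.sin p.2) * ψ (pol p) +
      p.1 * (v.re * Real.cos p.2 + v.im * Real.sin p.2) *
        (Real.cos p.2 * fderiv ℝ ψ (pol p) 1 + Real.sin p.2 * fderiv ℝ ψ (pol p) I) := by
    intro p
    have hl : HasDerivAt (fun r : ℝ => (r, p.2)) (1, 0) p.1 :=
      (hasDerivAt_id p.1).prodMk (hasDerivAt_const p.1 p.2)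
    have hfp : HasFDerivAt f (fderiv ℝ f p) ((fun r : ℝ => (r, p.2)) p.1) := (hfd p).hasFDerivAt
    have h1 : HasDerivAt (fun r : ℝ => f (r, p.2)) (fderiv ℝ f p (1, 0)) p.1 := by
      have := HasFDerivAt.comp_hasDerivAt (f := fun r : ℝ => (r, p.2)) p.1 hfp hl
      exact this
    have h2 : HasDerivAt (fun r : ℝ => ψ (pol (r, p.2)))
        (fderiv ℝ ψ (pol p) ((Real.cos p.2 : ℂ) + (Real.sin p.2 : ℂ) * I)) p.1 :=
      ((hψd (pol p)).hasFDerivAt).comp_hasDerivAt p.1 (hasDerivAt_pol_r p.1 p.2)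
    rw [fderiv_decomp] at h2
    have h3 : HasDerivAt (fun r : ℝ => r * (v.re * Real.cos p.2 + v.im * Real.sin p.2))
        (v.re * Real.cos p.2 + v.im * Real.sin p.2) p.1 := by
      simpa using (hasDerivAt_id p.1).mul_const (v.re * Real.cos p.2 + v.im * Real.sin p.2)
    exact h1.unique (h3.mul h2)
  have e2 : ∀ p : ℝ × ℝ, fderiv ℝ g p (0, 1) =
      (-v.re * Real.cos p.2 - v.im * Real.sin p.2) * ψ (pol p) +
      (-v.re * Real.sin p.2 + v.im * Real.cos p.2) *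
        (-(p.1 * Real.sin p.2) * fderiv ℝ ψ (pol p) 1
          + (p.1 * Real.cos p.2) * fderiv ℝ ψ (pol p) I) := by
    intro p
    have hl : HasDerivAt (fun θ : ℝ => (p.1, θ)) (0, 1) p.2 :=
      (hasDerivAt_const p.2 p.1).prodMk (hasDerivAt_id p.2)
    have hgp : HasFDerivAt g (fderiv ℝ g p) ((fun θ : ℝ => (p.1, θ)) p.2) := (hgd p).hasFDerivAt
    have h1 : HasDerivAt (fun θ : ℝ => g (p.1, θ)) (fderiv ℝ g p (0, 1)) p.2 := by
      have := HasFDerivAt.comp_hasDerivAt (f := fun θ : ℝ => (p.1, θ)) p.2 hgp hl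
      exact this
    have h2 : HasDerivAt (fun θ : ℝ => ψ (pol (p.1, θ)))
        (fderiv ℝ ψ (pol p) ((p.1 : ℂ) * (-(Real.sin p.2 : ℂ) + (Real.cos p.2 : ℂ) * I))) p.2 :=
      ((hψd (pol p)).hasFDerivAt).comp_hasDerivAt p.2 (hasDerivAt_pol_θ p.1 p.2)
    have e : (p.1 : ℂ) * (-(Real.sin p.2 : ℂ) + (Real.cos p.2 : ℂ) * I) =
        ((-(p.1 * Real.sin p.2) : ℝ) : ℂ) + ((p.1 * Real.cos p.2 : ℝ) : ℂ) * I := by
      push_cast; ring
    rw [e, fderiv_decomp] at h2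
    have h3 : HasDerivAt (fun θ : ℝ => -v.re * Real.sin θ + v.im * Real.cos θ)
        (-v.re * Real.cos p.2 - v.im * Real.sin p.2) p.2 := by
      have := ((Real.hasDerivAt_sin p.2).const_mul (-v.re)).add
        ((Real.hasDerivAt_cos p.2).const_mul v.im)
      refine this.congr_deriv ?_
      ring
    exact h1.unique (h3.mul h2)
  have e3 : ∀ p : ℝ × ℝ, fderiv ℝ f p (1, 0) + fderiv ℝ g p (0, 1) = p.1 * fderiv ℝ ψ (pol p) v := by
    intro p
    have ev : fderiv ℝ ψ (pol p) v = v.re * fderiv ℝ ψ (pol p) 1 + v.im * fderiv ℝ ψ (pol p) I := by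
      rw [← fderiv_decomp, re_add_im]
    rw [e1, e2, ev]
    have hcs := Real.sin_sq_add_cos_sq p.2
    linear_combination (p.1 * v.re * fderiv ℝ ψ (pol p) 1 + p.1 * v.im * fderiv ℝ ψ (pol p) I) * hcs
  have hcont : Continuous (fun p : ℝ × ℝ => fderiv ℝ f p (1, 0) + fderiv ℝ g p (0, 1)) := by
    have h1 : Continuous (fderiv ℝ f) := hfC.continuous_fderiv (by norm_num)
    have h2 : Continuous (fderiv ℝ g) := hgC.continuous_fderiv (by norm_num)
    exact (h1.clm_apply continuous_const).add (h2.clm_apply continuous_const)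
  have key := integral_divergence_prod_Icc_of_hasFDerivAt_of_le f g (fderiv ℝ f) (fderiv ℝ g)
    ((0:ℝ), -π) (1, π) ⟨zero_le_one, by linarith [Real.pi_pos]⟩
    hfC.continuous.continuousOn hgC.continuous.continuousOn
    (fun x _ => (hfd x).hasFDerivAt) (fun x _ => (hgd x).hasFDerivAt)
    (hcont.continuousOn.integrableOn_compact isCompact_Icc)
  simp only [e3] at key
  rw [key]
  have hgper : ∀ r : ℝ, g (r, π) = g (r, -π) := by
    intro r
    simp [hg, pol]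
  have hf0 : ∀ θ : ℝ, f (0, θ) = 0 := by
    intro θ
    simp [hf]
  simp only [hgper, hf0, sub_self, intervalIntegral.integral_zero, sub_zero, zero_add]
  apply intervalIntegral.integral_congr
  intro θ _
  simp only [hf]
  ring


instance : IsFiniteMeasure muD := by
  unfold muD
  constructor
  rw [Measure.restrict_apply_univ]
  exact measure_ball_lt_top

instance : IsFiniteMeasure muG := by
  unfold muG
  constructor
  rw [Measure.restrict_apply_univ]
  exact measure_Ioc_lt_top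

/-- bounded measurable (continuous) functions are in L² -/
lemma memLp_muD {f : ℂ → ℝ} (hf : Continuous f) : MemLp f 2 muD := by
  obtain ⟨C, hC⟩ := (isCompact_closedBall (0:ℂ) 1).exists_bound_of_continuousOn hf.continuousOn
  refine MemLp.of_bound hf.aestronglyMeasurable C ?_
  unfold muD
  rw [ae_restrict_iff' measurableSet_ball]
  exact Eventually.of_forall fun z hz => hC z (ball_subset_closedBall hz)

lemma memLp_muG {f : ℝ → ℝ} (hf : Continuous f) : MemLp f 2 muG := by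
  obtain ⟨C, hC⟩ := (isCompact_Icc (a := -π) (b := π)).exists_bound_of_continuousOn hf.continuousOn
  refine MemLp.of_bound hf.aestronglyMeasurable C ?_
  unfold muG
  rw [ae_restrict_iff' measurableSet_Ioc]
  exact Eventually.of_forall fun z hz => hC z (Ioc_subset_Icc_self hz)

lemma integrable_mul_D (u : Lp ℝ 2 muD) {φ : ℂ → ℝ} (hφ : Continuous φ) :
    Integrable (fun z => u z * φ z) muD :=
  (Lp.memLp u).integrable_mul (memLp_muD hφ)

lemma integrable_mul_G (f : Lp ℝ 2 muG) {φ : ℝ → ℝ} (hφ : Continuous φ) :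
    Integrable (fun θ => f θ * φ θ) muG :=
  (Lp.memLp f).integrable_mul (memLp_muG hφ)

/-- `∫ u φ` is linear in `u`. -/
lemma int_add_D (u v : Lp ℝ 2 muD) {φ : ℂ → ℝ} (hφ : Continuous φ) :
    ∫ z, (u + v : Lp ℝ 2 muD) z * φ z ∂muD = (∫ z, u z * φ z ∂muD) + ∫ z, v z * φ z ∂muD := by
  rw [← integral_add (integrable_mul_D u hφ) (integrable_mul_D v hφ)]
  apply integral_congr_ae
  filter_upwards [Lp.coeFn_add u v] with z hz
  rw [hz, Pi.add_apply]; ring

lemma int_smul_D (c : ℝ) (u : Lp ℝ 2 muD) (φ : ℂ → ℝ) :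
    ∫ z, (c • u : Lp ℝ 2 muD) z * φ z ∂muD = c * ∫ z, u z * φ z ∂muD := by
  rw [← integral_const_mul]
  apply integral_congr_ae
  filter_upwards [Lp.coeFn_smul c u] with z hz
  rw [hz, Pi.smul_apply, smul_eq_mul]; ring

lemma int_add_G (u v : Lp ℝ 2 muG) {φ : ℝ → ℝ} (hφ : Continuous φ) :
    ∫ z, (u + v : Lp ℝ 2 muG) z * φ z ∂muG = (∫ z, u z * φ z ∂muG) + ∫ z, v z * φ z ∂muG := by
  rw [← integral_add (integrable_mul_G u hφ) (integrable_mul_G v hφ)]
  apply integral_congr_ae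
  filter_upwards [Lp.coeFn_add u v] with z hz
  rw [hz, Pi.add_apply]; ring

lemma int_smul_G (c : ℝ) (u : Lp ℝ 2 muG) (φ : ℝ → ℝ) :
    ∫ z, (c • u : Lp ℝ 2 muG) z * φ z ∂muG = c * ∫ z, u z * φ z ∂muG := by
  rw [← integral_const_mul]
  apply integral_congr_ae
  filter_upwards [Lp.coeFn_smul c u] with z hz
  rw [hz, Pi.smul_apply, smul_eq_mul]; ring

lemma continuous_circ : Continuous circ := by unfold circ; fun_prop

/-- The Sobolev space `H¹(𝔻)`: quadruples `(u, g₁, g₂, f)`, where `u, g₁, g₂ ∈ L²(𝔻)` and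
`f ∈ L²(Γ)`, such that Green's formula `∫_𝔻 (u ∂_i φ + g_i φ) = ∫_Γ f φ ν_i` holds for all
`φ ∈ C^∞(ℝ²)`; that is, `(g₁, g₂)` is the weak gradient of `u` and `f` is the trace of `u`. -/
noncomputable def H1 : Submodule ℝ (Lp ℝ 2 muD × Lp ℝ 2 muD × Lp ℝ 2 muD × Lp ℝ 2 muG) where
  carrier := {w | ∀ φ : ℂ → ℝ, ContDiff ℝ ∞ φ →
    ((∫ z, w.1 z * fderiv ℝ φ z 1 ∂muD) + ∫ z, w.2.1 z * φ z ∂muD =
      ∫ θ, w.2.2.2 θ * (φ (circ θ) * Real.cos θ) ∂muG) ∧
    ((∫ z, w.1 z * fderiv ℝ φ z I ∂muD) + ∫ z, w.2.2.1 z * φ z ∂muD =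
      ∫ θ, w.2.2.2 θ * (φ (circ θ) * Real.sin θ) ∂muG)}
  add_mem' := by
    intro a b ha hb φ hφ
    have h1 : Continuous (fun z => fderiv ℝ φ z 1) :=
      (hφ.continuous_fderiv (by simp)).clm_apply continuous_const
    have h2 : Continuous (fun z => fderiv ℝ φ z I) :=
      (hφ.continuous_fderiv (by simp)).clm_apply continuous_const
    have h3 : Continuous (fun θ : ℝ => φ (circ θ) * Real.cos θ) :=
      (hφ.continuous.comp continuous_circ).mul Real.continuous_cos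
    have h4 : Continuous (fun θ : ℝ => φ (circ θ) * Real.sin θ) :=
      (hφ.continuous.comp continuous_circ).mul Real.continuous_sin
    obtain ⟨ha1, ha2⟩ := ha φ hφ
    obtain ⟨hb1, hb2⟩ := hb φ hφ
    simp only [Prod.fst_add, Prod.snd_add]
    rw [int_add_D _ _ h1, int_add_D _ _ h2, int_add_D _ _ hφ.continuous,
      int_add_D _ _ hφ.continuous, int_add_G _ _ h3, int_add_G _ _ h4]
    constructor
    · linear_combination ha1 + hb1
    · linear_combination ha2 + hb2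
  zero_mem' := by
    intro φ hφ
    have e1 : ∀ ψ : ℂ → ℝ, ∫ z, (0 : Lp ℝ 2 muD) z * ψ z ∂muD = 0 := by
      intro ψ
      have : ∫ z, (0 : Lp ℝ 2 muD) z * ψ z ∂muD = ∫ z, (0 : ℝ) ∂muD := by
        apply integral_congr_ae
        filter_upwards [Lp.coeFn_zero ℝ 2 muD] with z hz
        rw [hz]; simp
      rw [this]; simp
    have e2 : ∀ ψ : ℝ → ℝ, ∫ z, (0 : Lp ℝ 2 muG) z * ψ z ∂muG = 0 := by
      intro ψ
      have : ∫ z, (0 : Lp ℝ 2 muG) z * ψ z ∂muG = ∫ z, (0 : ℝ) ∂muG := by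
        apply integral_congr_ae
        filter_upwards [Lp.coeFn_zero ℝ 2 muG] with z hz
        rw [hz]; simp
      rw [this]; simp
    simp only [Prod.fst_zero, Prod.snd_zero]
    rw [e1, e1, e1, e2, e2]
    simp
  smul_mem' := by
    intro c a ha φ hφ
    obtain ⟨ha1, ha2⟩ := ha φ hφ
    simp only [Prod.smul_fst, Prod.smul_snd]
    rw [int_smul_D, int_smul_D, int_smul_D, int_smul_D, int_smul_G, int_smul_G]
    constructor
    · linear_combination c * ha1
    · linear_combination c * ha2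

/-- The Dirichlet energy `∫_𝔻 |∇u|²`. -/
noncomputable def energy (w : H1) : ℝ :=
  ∫ z, (w.1.2.1 z ^ 2 + w.1.2.2.1 z ^ 2) ∂muD

/-- The weighted boundary mass `∫_Γ ρ u²`. -/
noncomputable def mass (ρ : ℝ → ℝ) (w : H1) : ℝ :=
  ∫ θ, ρ θ * w.1.2.2.2 θ ^ 2 ∂muG

/-- The Rayleigh quotient, with the value `∞` if the denominator vanishes. -/
noncomputable def rayleigh (ρ : ℝ → ℝ) (w : H1) : ENNReal :=
  if mass ρ w = 0 then ⊤ else ENNReal.ofReal (energy w / mass ρ w)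

/-- The `k`-th weighted Steklov eigenvalue: the infimum over the `(k+1)`-dimensional subspaces `E`
of `H¹(𝔻)` of the supremum of the Rayleigh quotient over the nonzero elements of `E`. -/
noncomputable def steklov (k : ℕ) (ρ : ℝ → ℝ) : ENNReal :=
  ⨅ (E : Submodule ℝ H1) (_ : Module.finrank ℝ E = k + 1),
    ⨆ (w : H1) (_ : w ∈ E) (_ : w ≠ 0), rayleigh ρ w


open Polynomial

/-- the real part of a polynomial -/
noncomputable def reP (p : ℂ[X]) (z : ℂ) : ℝ := (p.eval z).re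

lemma contDiff_reP (p : ℂ[X]) : ContDiff ℝ ∞ (reP p) := by
  have h1 : ContDiff ℂ ∞ (fun z : ℂ => p.eval z) := p.differentiable.contDiff
  have h2 : ContDiff ℝ ∞ (fun z : ℂ => p.eval z) := h1.restrict_scalars ℝ
  exact reCLM.contDiff.comp h2

lemma fderiv_reP (p : ℂ[X]) (z v : ℂ) : fderiv ℝ (reP p) z v = reP (p.derivative * C v) z := by
  have h1 : HasFDerivAt (fun z : ℂ => p.eval z) (((1 : ℂ →L[ℂ] ℂ).smulRight (p.derivative.eval z)).restrictScalars ℝ) z :=
    (p.hasDerivAt z).hasFDerivAt.restrictScalars ℝ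
  have h2 : HasFDerivAt (reP p) (reCLM.comp (((1 : ℂ →L[ℂ] ℂ).smulRight (p.derivative.eval z)).restrictScalars ℝ)) z :=
    (reCLM.hasFDerivAt (x := p.eval z)).comp z h1
  rw [h2.fderiv]
  simp [reP]
  ring

lemma circ_eq_pol (θ : ℝ) : circ θ = pol (1, θ) := by
  simp [circ, pol, exp_mul_I]

lemma integral_muG (F : ℝ → ℝ) : ∫ θ, F θ ∂muG = ∫ θ in (-π)..π, F θ := by
  rw [intervalIntegral.integral_of_le (by linarith [Real.pi_pos])]
  rfl

/-- Green's formula for smooth functions on the disk. -/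
lemma green (U φ : ℂ → ℝ) (hU : ContDiff ℝ 2 U) (hφ : ContDiff ℝ 2 φ) (v : ℂ) :
    (∫ z, U z * fderiv ℝ φ z v ∂muD) + ∫ z, fderiv ℝ U z v * φ z ∂muD =
      ∫ θ, U (circ θ) * (φ (circ θ) * (v.re * Real.cos θ + v.im * Real.sin θ)) ∂muG := by
  have hUc : Continuous U := hU.continuous
  have hφc : Continuous φ := hφ.continuous
  have h1 : Continuous (fun z => fderiv ℝ φ z v) :=
    (hφ.continuous_fderiv (by simp)).clm_apply continuous_const
  have h2 : Continuous (fun z => fderiv ℝ U z v) :=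
    (hU.continuous_fderiv (by simp)).clm_apply continuous_const
  have hint : ∀ F : ℂ → ℝ, Continuous F → Integrable F muD := fun F hF =>
    (memLp_muD hF).integrable (by norm_num)
  have hadd : (∫ z, U z * fderiv ℝ φ z v ∂muD) + ∫ z, fderiv ℝ U z v * φ z ∂muD =
      ∫ z, (U z * fderiv ℝ φ z v + fderiv ℝ U z v * φ z) ∂muD :=
    (integral_add (hint _ (hUc.mul h1)) (hint _ (h2.mul hφc))).symm
  rw [hadd]
  have hd := disc_divergence (fun z => U z * φ z) (hU.mul hφ) v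
  have e1 : ∀ z, fderiv ℝ (fun z => U z * φ z) z v = U z * fderiv ℝ φ z v + fderiv ℝ U z v * φ z := by
    intro z
    have a1 : HasFDerivAt U (fderiv ℝ U z) z := (hU.differentiable (by norm_num) z).hasFDerivAt
    have a2 : HasFDerivAt φ (fderiv ℝ φ z) z := (hφ.differentiable (by norm_num) z).hasFDerivAt
    have : fderiv ℝ (fun z => U z * φ z) z = U z • fderiv ℝ φ z + φ z • fderiv ℝ U z :=
      (a1.mul a2).fderiv
    rw [this]
    simp
    ring
  simp only [e1] at hd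
  rw [integral_muG]
  unfold muD
  rw [hd]
  apply intervalIntegral.integral_congr
  intro θ _
  simp only [circ_eq_pol]
  ring

lemma int_toLp_D {f : ℂ → ℝ} (hf : Continuous f) (ψ : ℂ → ℝ) :
    ∫ z, ((memLp_muD hf).toLp f) z * ψ z ∂muD = ∫ z, f z * ψ z ∂muD := by
  apply integral_congr_ae
  filter_upwards [MemLp.coeFn_toLp (memLp_muD hf)] with z hz
  rw [hz]

lemma int_toLp_G {f : ℝ → ℝ} (hf : Continuous f) (ψ : ℝ → ℝ) :
    ∫ z, ((memLp_muG hf).toLp f) z * ψ z ∂muG = ∫ z, f z * ψ z ∂muG := by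
  apply integral_congr_ae
  filter_upwards [MemLp.coeFn_toLp (memLp_muG hf)] with z hz
  rw [hz]

lemma continuous_reP (p : ℂ[X]) : Continuous (reP p) := (contDiff_reP p).continuous

lemma continuous_reP_circ (p : ℂ[X]) : Continuous (fun θ => reP p (circ θ)) :=
  (continuous_reP p).comp continuous_circ

lemma reP_add (p q : ℂ[X]) : reP (p + q) = reP p + reP q := by
  ext z; simp [reP]

lemma reP_smul (c : ℝ) (p : ℂ[X]) : reP (c • p) = c • reP p := by
  ext z; simp [reP]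

/-- The underlying quadruple of `ofPoly`. -/
noncomputable def quad (p : ℂ[X]) : Lp ℝ 2 muD × Lp ℝ 2 muD × Lp ℝ 2 muD × Lp ℝ 2 muG :=
  ((memLp_muD (continuous_reP p)).toLp _,
    (memLp_muD (continuous_reP (derivative p))).toLp _,
    (memLp_muD (continuous_reP (derivative p * C I))).toLp _,
    (memLp_muG (continuous_reP_circ p)).toLp _)

lemma quad_mem (p : ℂ[X]) : quad p ∈ H1 := by
  intro φ hφ
  have two : (2 : WithTop ℕ∞) ≤ ∞ := WithTop.coe_le_coe.mpr le_top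
  have g1 := green (reP p) φ ((contDiff_reP p).of_le two) (hφ.of_le two) 1
  have g2 := green (reP p) φ ((contDiff_reP p).of_le two) (hφ.of_le two) I
  simp only [fderiv_reP p, map_one, mul_one, one_re, one_im, I_re, I_im, one_mul, zero_mul,
    add_zero, zero_add] at g1 g2
  unfold quad
  constructor
  · rw [int_toLp_D (continuous_reP _), int_toLp_D (continuous_reP _), int_toLp_G (continuous_reP_circ p)]
    exact g1
  · rw [int_toLp_D (continuous_reP _), int_toLp_D (continuous_reP _), int_toLp_G (continuous_reP_circ p)]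
    exact g2

lemma quad_add (p q : ℂ[X]) : quad (p + q) = quad p + quad q := by
  have h4 : derivative (p + q) = derivative p + derivative q := by simp
  have h5 : derivative (p + q) * C I = derivative p * C I + derivative q * C I := by
    rw [h4]; ring
  unfold quad
  refine Prod.ext ?_ (Prod.ext ?_ (Prod.ext ?_ ?_))
  · simp only [Prod.fst_add]
    rw [← MemLp.toLp_add]
    congr 1
    exact reP_add p q
  · simp only [Prod.fst_add, Prod.snd_add]
    rw [← MemLp.toLp_add]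
    congr 1
    rw [h4]; exact reP_add _ _
  · simp only [Prod.fst_add, Prod.snd_add]
    rw [← MemLp.toLp_add]
    congr 1
    rw [h5]; exact reP_add _ _
  · simp only [Prod.snd_add]
    rw [← MemLp.toLp_add]
    congr 1
    rw [reP_add p q]; rfl

lemma quad_smul (c : ℝ) (p : ℂ[X]) : quad (c • p) = c • quad p := by
  have h4 : derivative (c • p) = c • derivative p := by simp
  have h5 : derivative (c • p) * C I = c • (derivative p * C I) := by
    rw [h4, smul_mul_assoc]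
  unfold quad
  refine Prod.ext ?_ (Prod.ext ?_ (Prod.ext ?_ ?_))
  · simp only [Prod.smul_fst]
    rw [← MemLp.toLp_const_smul]
    congr 1
    exact reP_smul c p
  · simp only [Prod.smul_fst, Prod.smul_snd]
    rw [← MemLp.toLp_const_smul]
    congr 1
    rw [h4]; exact reP_smul _ _
  · simp only [Prod.smul_fst, Prod.smul_snd]
    rw [← MemLp.toLp_const_smul]
    congr 1
    rw [h5]; exact reP_smul _ _
  · simp only [Prod.smul_snd]
    rw [← MemLp.toLp_const_smul]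
    congr 1
    rw [reP_smul c p]; rfl

/-- The element of `H¹(𝔻)` given by the real part of a polynomial. -/
noncomputable def ofPoly : ℂ[X] →ₗ[ℝ] H1 where
  toFun p := ⟨quad p, quad_mem p⟩
  map_add' p q := Subtype.ext (quad_add p q)
  map_smul' c p := Subtype.ext (quad_smul c p)

lemma mass_ofPoly (ρ : ℝ → ℝ) (p : ℂ[X]) :
    mass ρ (ofPoly p) = ∫ θ, ρ θ * reP p (circ θ) ^ 2 ∂muG := by
  unfold mass
  apply integral_congr_ae
  filter_upwards [MemLp.coeFn_toLp (memLp_muG (continuous_reP_circ p))] with z hz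
  show ρ z * (((memLp_muG (continuous_reP_circ p)).toLp _) z) ^ 2 = _
  rw [hz]

lemma energy_ofPoly (p : ℂ[X]) :
    energy (ofPoly p) = ∫ z, (reP (derivative p) z ^ 2 + reP (derivative p * C I) z ^ 2) ∂muD := by
  unfold energy
  apply integral_congr_ae
  filter_upwards [MemLp.coeFn_toLp (memLp_muD (continuous_reP (derivative p))),
    MemLp.coeFn_toLp (memLp_muD (continuous_reP (derivative p * C I)))] with z h1 h2
  show (((memLp_muD (continuous_reP (derivative p))).toLp _) z) ^ 2 +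
    (((memLp_muD (continuous_reP (derivative p * C I))).toLp _) z) ^ 2 = _
  rw [h1, h2]

/-- Pairing of the weak gradient of `w ∈ H¹` with the gradient of the harmonic function `Re q`. -/
lemma pairing (w : H1) (q : ℂ[X]) :
    (∫ z, w.1.2.1 z * reP (derivative q) z ∂muD) +
      (∫ z, w.1.2.2.1 z * reP (derivative q * C I) z ∂muD) =
    ∫ θ, w.1.2.2.2 θ * reP (X * derivative q) (circ θ) ∂muG := by
  obtain ⟨h1, -⟩ := w.2 (reP (derivative q)) (contDiff_reP _)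
  obtain ⟨-, h2⟩ := w.2 (reP (derivative q * C I)) (contDiff_reP _)
  simp only [fderiv_reP] at h1 h2
  have e1 : ∀ z, reP (derivative (derivative q * C I) * C I) z = - reP (derivative (derivative q) * C 1) z := by
    intro z
    simp only [reP, derivative_mul, derivative_C, mul_zero, add_zero, eval_mul, eval_C, mul_one]
    rw [mul_assoc, I_mul_I]
    simp
  have e2 : ∫ z, w.1.1 z * reP (derivative (derivative q * C I) * C I) z ∂muD =
      - ∫ z, w.1.1 z * reP (derivative (derivative q) * C 1) z ∂muD := by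
    rw [← integral_neg]
    congr 1
    ext z
    rw [e1]; ring
  rw [e2] at h2
  have e3 : (∫ θ, w.1.2.2.2 θ * (reP (derivative q) (circ θ) * Real.cos θ) ∂muG) +
      (∫ θ, w.1.2.2.2 θ * (reP (derivative q * C I) (circ θ) * Real.sin θ) ∂muG) =
      ∫ θ, w.1.2.2.2 θ * reP (X * derivative q) (circ θ) ∂muG := by
    have c1 : Continuous (fun θ => reP (derivative q) (circ θ) * Real.cos θ) :=
      (continuous_reP_circ _).mul Real.continuous_cos
    have c2 : Continuous (fun θ => reP (derivative q * C I) (circ θ) * Real.sin θ) :=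
      (continuous_reP_circ _).mul Real.continuous_sin
    have := integral_add (integrable_mul_G w.1.2.2.2 c1) (integrable_mul_G w.1.2.2.2 c2)
    rw [← this]
    congr 1
    ext θ
    have : reP (X * derivative q) (circ θ) = reP (derivative q) (circ θ) * Real.cos θ +
        reP (derivative q * C I) (circ θ) * Real.sin θ := by
      have hc : circ θ = (Real.cos θ : ℂ) + (Real.sin θ : ℂ) * I := by
        rw [circ_eq_pol]; simp [pol]
      simp only [reP, eval_mul, eval_X, eval_C]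
      generalize eval (circ θ) (derivative q) = E
      rw [hc]
      simp only [mul_re, add_re, add_im, mul_im, ofReal_re, ofReal_im, I_re, I_im]
      ring
    rw [this]; ring
  rw [← e3, ← h1, ← h2]
  ring


/-! ## Orthogonality on the circle -/

lemma integrable_muG_C {f : ℝ → ℂ} (hf : Continuous f) : Integrable f muG := by
  unfold muG
  exact (hf.continuousOn.integrableOn_compact isCompact_Icc).mono_set Ioc_subset_Icc_self

lemma integrable_muG_R {f : ℝ → ℝ} (hf : Continuous f) : Integrable f muG := by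
  unfold muG
  exact (hf.continuousOn.integrableOn_compact isCompact_Icc).mono_set Ioc_subset_Icc_self

lemma integral_muG_C (F : ℝ → ℂ) : ∫ θ, F θ ∂muG = ∫ θ in (-π)..π, F θ := by
  rw [intervalIntegral.integral_of_le (by linarith [Real.pi_pos])]
  rfl

lemma integral_exp_int (k : ℤ) :
    ∫ θ : ℝ, cexp (k * θ * I) ∂muG = if k = 0 then (2 * π : ℂ) else 0 := by
  rw [integral_muG_C]
  split_ifs with h
  · subst h
    simp
    ring
  · have hk : (k : ℂ) * I ≠ 0 := mul_ne_zero (by exact_mod_cast h) I_ne_zero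
    have e : ∀ θ : ℝ, cexp (k * θ * I) = cexp ((k * I) * θ) := by
      intro θ; ring_nf
    simp only [e]
    rw [integral_exp_mul_complex hk]
    have : cexp ((k * I) * (π : ℝ)) = cexp ((k * I) * ((-π : ℝ) : ℂ)) := by
      rw [Complex.exp_eq_exp_iff_exists_int]
      refine ⟨k, ?_⟩
      push_cast
      ring
    rw [this, sub_self, zero_div]

lemma circ_pow (n : ℕ) (θ : ℝ) : circ θ ^ n = cexp ((n : ℤ) * θ * I) := by
  unfold circ
  rw [← Complex.exp_nat_mul]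
  congr 1
  push_cast
  ring

lemma circ_mul_circ (n m : ℕ) (θ : ℝ) : circ θ ^ n * circ θ ^ m = cexp (((n + m : ℕ) : ℤ) * θ * I) := by
  rw [← pow_add, circ_pow]

lemma circ_mul_conj (n m : ℕ) (θ : ℝ) :
    circ θ ^ n * (starRingEnd ℂ) (circ θ ^ m) = cexp (((n : ℤ) - m : ℤ) * θ * I) := by
  rw [circ_pow, circ_pow, ← Complex.exp_conj, ← Complex.exp_add]
  congr 1
  simp
  ring

/-- the trigonometric polynomial with coefficients `a` -/
noncomputable def trig (N : ℕ) (a : ℕ → ℂ) (θ : ℝ) : ℂ := ∑ n ∈ Finset.range N, a n * circ θ ^ n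

lemma continuous_trig (N : ℕ) (a : ℕ → ℂ) : Continuous (trig N a) := by
  unfold trig
  exact continuous_finsetSum _ fun n _ => continuous_const.mul (continuous_circ.pow n)

lemma integral_trig_mul (N : ℕ) (a b : ℕ → ℂ) :
    ∫ θ, trig (N + 1) a θ * trig (N + 1) b θ ∂muG = 2 * π * (a 0 * b 0) := by
  unfold trig
  have e : ∀ θ, (∑ n ∈ Finset.range (N + 1), a n * circ θ ^ n) *
      (∑ n ∈ Finset.range (N + 1), b n * circ θ ^ n) =
      ∑ n ∈ Finset.range (N + 1), ∑ m ∈ Finset.range (N + 1),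
        a n * b m * cexp (((n + m : ℕ) : ℤ) * θ * I) := by
    intro θ
    rw [Finset.sum_mul_sum]
    refine Finset.sum_congr rfl fun n _ => Finset.sum_congr rfl fun m _ => ?_
    rw [← circ_mul_circ]; ring
  simp only [e]
  have hc : ∀ n m : ℕ, Continuous (fun θ : ℝ => a n * b m * cexp (((n + m : ℕ) : ℤ) * θ * I)) := by
    intro n m; fun_prop
  rw [integral_finsetSum _ fun n _ => integrable_muG_C (continuous_finsetSum _ fun m _ => hc n m)]
  simp only [integral_finsetSum _ fun m _ => integrable_muG_C (hc _ m), integral_const_mul,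
    integral_exp_int]
  have : ∀ n ∈ Finset.range (N + 1), ∑ m ∈ Finset.range (N + 1),
      a n * b m * (if ((n + m : ℕ) : ℤ) = 0 then (2 * π : ℂ) else 0) =
      if n = 0 then a 0 * b 0 * (2 * π) else 0 := by
    intro n _
    by_cases hn : n = 0
    · subst hn
      simp only [if_true, zero_add]
      rw [Finset.sum_eq_single 0]
      · simp
      · intro m _ hm
        simp [hm]
      · intro h; simp at h
    · rw [if_neg hn]
      apply Finset.sum_eq_zero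
      intro m _
      have : ((n + m : ℕ) : ℤ) ≠ 0 := by
        have : n + m ≠ 0 := by omega
        exact_mod_cast this
      rw [if_neg this, mul_zero]
  rw [Finset.sum_congr rfl this]
  simp
  ring

lemma integral_trig_mul_conj (N : ℕ) (a b : ℕ → ℂ) :
    ∫ θ, trig N a θ * (starRingEnd ℂ) (trig N b θ) ∂muG =
      2 * π * ∑ n ∈ Finset.range N, a n * (starRingEnd ℂ) (b n) := by
  unfold trig
  have e : ∀ θ, (∑ n ∈ Finset.range N, a n * circ θ ^ n) *
      (starRingEnd ℂ) (∑ n ∈ Finset.range N, b n * circ θ ^ n) =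
      ∑ n ∈ Finset.range N, ∑ m ∈ Finset.range N,
        a n * (starRingEnd ℂ) (b m) * cexp (((n : ℤ) - m : ℤ) * θ * I) := by
    intro θ
    rw [map_sum, Finset.sum_mul_sum]
    refine Finset.sum_congr rfl fun n _ => Finset.sum_congr rfl fun m _ => ?_
    rw [← circ_mul_conj, map_mul]; ring
  simp only [e]
  have hc : ∀ n m : ℕ, Continuous (fun θ : ℝ => a n * (starRingEnd ℂ) (b m) * cexp (((n : ℤ) - m : ℤ) * θ * I)) := by
    intro n m; fun_prop
  rw [integral_finsetSum _ fun n _ => integrable_muG_C (continuous_finsetSum _ fun m _ => hc n m)]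
  simp only [integral_finsetSum _ fun m _ => integrable_muG_C (hc _ m), integral_const_mul,
    integral_exp_int]
  rw [Finset.mul_sum]
  refine Finset.sum_congr rfl fun n hn => ?_
  rw [Finset.sum_eq_single n]
  · simp; ring
  · intro m _ hm
    have : ((n : ℤ) - m : ℤ) ≠ 0 := by
      intro h
      apply hm
      have : (n : ℤ) = m := by linarith
      exact_mod_cast this.symm
    rw [if_neg this, mul_zero]
  · intro h; exact absurd hn h

/-- The `L²(Γ)` inner product of real parts of trigonometric polynomials. -/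
lemma integral_re_trig (N : ℕ) (a b : ℕ → ℂ) :
    ∫ θ, (trig (N + 1) a θ).re * (trig (N + 1) b θ).re ∂muG =
      π * (a 0 * b 0).re + π * ∑ n ∈ Finset.range (N + 1), (a n * (starRingEnd ℂ) (b n)).re := by
  have e : ∀ z w : ℂ, z.re * w.re = (1 / 2) * ((z * w).re + (z * (starRingEnd ℂ) w).re) := by
    intro z w
    simp only [mul_re, conj_re, conj_im]
    ring
  simp only [e _ _]
  have c1 : Continuous (fun θ => trig (N + 1) a θ * trig (N + 1) b θ) :=
    (continuous_trig _ _).mul (continuous_trig _ _)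
  have c2 : Continuous (fun θ => trig (N + 1) a θ * (starRingEnd ℂ) (trig (N + 1) b θ)) :=
    (continuous_trig _ _).mul (continuous_conj.comp (continuous_trig _ _))
  have hadd : ∫ θ, ((trig (N + 1) a θ * trig (N + 1) b θ).re +
      (trig (N + 1) a θ * (starRingEnd ℂ) (trig (N + 1) b θ)).re) ∂muG =
      (∫ θ, (trig (N + 1) a θ * trig (N + 1) b θ).re ∂muG) +
      ∫ θ, (trig (N + 1) a θ * (starRingEnd ℂ) (trig (N + 1) b θ)).re ∂muG :=
    integral_add (integrable_muG_R (continuous_re.comp c1))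
      (integrable_muG_R (continuous_re.comp c2))
  rw [integral_const_mul, hadd]
  have r1 : ∫ θ, (trig (N + 1) a θ * trig (N + 1) b θ).re ∂muG = (2 * π * (a 0 * b 0)).re := by
    rw [← integral_trig_mul]
    exact reCLM.integral_comp_comm (integrable_muG_C c1)
  have r2 : ∫ θ, (trig (N + 1) a θ * (starRingEnd ℂ) (trig (N + 1) b θ)).re ∂muG =
      (2 * π * ∑ n ∈ Finset.range (N + 1), a n * (starRingEnd ℂ) (b n)).re := by
    rw [← integral_trig_mul_conj]
    exact reCLM.integral_comp_comm (integrable_muG_C c2)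
  rw [r1, r2]
  have r3 : ∀ z : ℂ, (2 * π * z).re = 2 * π * z.re := by
    intro z; simp
  rw [r3, r3, re_sum]
  ring


/-! ## Energies -/

lemma inner_D (u v : Lp ℝ 2 muD) : inner ℝ u v = ∫ z, u z * v z ∂muD := by
  rw [L2.inner_def]
  congr 1
  ext z
  simp [mul_comm]

lemma energy_eq (w : H1) : energy w = ‖w.1.2.1‖ ^ 2 + ‖w.1.2.2.1‖ ^ 2 := by
  rw [← real_inner_self_eq_norm_sq, ← real_inner_self_eq_norm_sq, inner_D, inner_D, energy]
  have h : ∀ u : Lp ℝ 2 muD, Integrable (fun z => u z * u z) muD := fun u =>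
    (Lp.memLp u).integrable_mul (Lp.memLp u)
  rw [← integral_add (h _) (h _)]
  congr 1
  ext z
  ring

lemma energy_nonneg (w : H1) : 0 ≤ energy w := by
  rw [energy_eq]; positivity

lemma pairing' (w : H1) (q : ℂ[X]) :
    inner ℝ w.1.2.1 (ofPoly q).1.2.1 + inner ℝ w.1.2.2.1 (ofPoly q).1.2.2.1 =
    ∫ θ, w.1.2.2.2 θ * reP (X * derivative q) (circ θ) ∂muG := by
  rw [← pairing w q, inner_D, inner_D]
  congr 1
  · apply integral_congr_ae
    filter_upwards [MemLp.coeFn_toLp (memLp_muD (continuous_reP (derivative q)))] with z hz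
    show w.1.2.1 z * ((memLp_muD (continuous_reP (derivative q))).toLp _) z = _
    rw [hz]
  · apply integral_congr_ae
    filter_upwards [MemLp.coeFn_toLp (memLp_muD (continuous_reP (derivative q * C I)))] with z hz
    show w.1.2.2.1 z * ((memLp_muD (continuous_reP (derivative q * C I))).toLp _) z = _
    rw [hz]

lemma energy_ge (w : H1) (q : ℂ[X]) :
    2 * (∫ θ, w.1.2.2.2 θ * reP (X * derivative q) (circ θ) ∂muG) - energy (ofPoly q) ≤ energy w := by
  rw [← pairing' w q, energy_eq, energy_eq]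
  have h1 := norm_sub_sq_real w.1.2.1 (ofPoly q).1.2.1
  have h2 := norm_sub_sq_real w.1.2.2.1 (ofPoly q).1.2.2.1
  have h3 : 0 ≤ ‖w.1.2.1 - (ofPoly q).1.2.1‖ ^ 2 := by positivity
  have h4 : 0 ≤ ‖w.1.2.2.1 - (ofPoly q).1.2.2.1‖ ^ 2 := by positivity
  linarith

/-- the polynomial with coefficients `a` -/
noncomputable def poly (N : ℕ) (a : ℕ → ℂ) : ℂ[X] := ∑ n ∈ Finset.range (N + 1), C (a n) * X ^ n

lemma eval_poly (N : ℕ) (a : ℕ → ℂ) (θ : ℝ) : (poly N a).eval (circ θ) = trig (N + 1) a θ := by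
  simp [poly, trig, eval_finsetSum]

lemma reP_poly (N : ℕ) (a : ℕ → ℂ) (θ : ℝ) : reP (poly N a) (circ θ) = (trig (N + 1) a θ).re := by
  rw [reP, eval_poly]

lemma reP_X_deriv (N : ℕ) (a : ℕ → ℂ) (θ : ℝ) :
    reP (X * derivative (poly N a)) (circ θ) = (trig (N + 1) (fun n => n * a n) θ).re := by
  rw [reP]
  congr 1
  simp only [poly, trig, derivative_sum, eval_mul, eval_X, eval_finsetSum, Finset.mul_sum]
  refine Finset.sum_congr rfl fun n _ => ?_
  rcases n with _ | n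
  · simp
  · simp
    ring

lemma energy_ofPoly' (N : ℕ) (a : ℕ → ℂ) :
    energy (ofPoly (poly N a)) = π * ∑ n ∈ Finset.range (N + 1), n * ‖a n‖ ^ 2 := by
  have h := pairing' (ofPoly (poly N a)) (poly N a)
  rw [real_inner_self_eq_norm_sq, real_inner_self_eq_norm_sq, ← energy_eq] at h
  rw [h]
  have e1 : ∫ θ, (ofPoly (poly N a)).1.2.2.2 θ * reP (X * derivative (poly N a)) (circ θ) ∂muG =
      ∫ θ, (trig (N + 1) a θ).re * (trig (N + 1) (fun n => n * a n) θ).re ∂muG := by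
    apply integral_congr_ae
    filter_upwards [MemLp.coeFn_toLp (memLp_muG (continuous_reP_circ (poly N a)))] with θ hθ
    show ((memLp_muG (continuous_reP_circ (poly N a))).toLp _) θ * _ = _
    rw [hθ, reP_poly, reP_X_deriv]
  rw [e1, integral_re_trig]
  simp only [CharP.cast_eq_zero, zero_mul, mul_zero, zero_re, zero_add]
  congr 1
  refine Finset.sum_congr rfl fun n _ => ?_
  have : a n * (starRingEnd ℂ) (n * a n) = n * (a n * (starRingEnd ℂ) (a n)) := by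
    simp; ring
  rw [this, mul_conj, normSq_eq_norm_sq]
  norm_cast

/-! ## Fourier coefficients of the trace -/

/-- the Fourier coefficient -/
noncomputable def fc (f : ℝ → ℝ) (n : ℕ) : ℂ :=
  (1 / (2 * π)) * ∫ θ, (f θ : ℂ) * cexp (-(n * θ * I)) ∂muG

lemma integrable_mul_G_C {f : ℝ → ℝ} (hf : MemLp f 2 muG) {φ : ℝ → ℂ} (hφ : Continuous φ) :
    Integrable (fun θ => (f θ : ℂ) * φ θ) muG := by
  have h1 : MemLp (fun θ => (f θ : ℂ)) 2 muG := hf.ofReal
  have h2 : MemLp φ 2 muG := by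
    obtain ⟨C, hC⟩ := (isCompact_Icc (a := -π) (b := π)).exists_bound_of_continuousOn hφ.continuousOn
    refine MemLp.of_bound hφ.aestronglyMeasurable C ?_
    unfold muG
    rw [ae_restrict_iff' measurableSet_Ioc]
    exact Eventually.of_forall fun z hz => hC z (Ioc_subset_Icc_self hz)
  exact h1.integrable_mul h2

lemma integral_mul_circ {f : ℝ → ℝ} (n : ℕ) :
    ∫ θ, (f θ : ℂ) * circ θ ^ n ∂muG = 2 * π * (starRingEnd ℂ) (fc f n) := by
  unfold fc
  rw [map_mul, ← integral_conj]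
  have e : ∀ θ : ℝ, (starRingEnd ℂ) ((f θ : ℂ) * cexp (-(n * θ * I))) = (f θ : ℂ) * circ θ ^ n := by
    intro θ
    rw [map_mul, conj_ofReal, ← Complex.exp_conj, circ_pow]
    congr 2
    simp
  simp only [e]
  have : (2 * π : ℂ) ≠ 0 := by
    exact_mod_cast (by positivity : (2 * π : ℝ) ≠ 0)
  simp only [map_div₀, map_one, map_mul, conj_ofReal, map_ofNat]
  field_simp

lemma integral_mul_trig {f : ℝ → ℝ} (hf : MemLp f 2 muG) (N : ℕ) (a : ℕ → ℂ) :
    ∫ θ, f θ * (trig N a θ).re ∂muG =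
      2 * π * ∑ n ∈ Finset.range N, (a n * (starRingEnd ℂ) (fc f n)).re := by
  have h1 : ∫ θ, f θ * (trig N a θ).re ∂muG = (∫ θ, (f θ : ℂ) * trig N a θ ∂muG).re := by
    have h := integrable_mul_G_C hf (continuous_trig N a)
    have := reCLM.integral_comp_comm h
    rw [reCLM_apply] at this
    rw [← this]
    congr 1
    ext θ
    simp
  rw [h1]
  have h2 : ∫ θ, (f θ : ℂ) * trig N a θ ∂muG =
      ∑ n ∈ Finset.range N, a n * ∫ θ, (f θ : ℂ) * circ θ ^ n ∂muG := by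
    unfold trig
    simp only [Finset.mul_sum]
    rw [integral_finsetSum]
    · refine Finset.sum_congr rfl fun n _ => ?_
      rw [← integral_const_mul]
      congr 1
      ext θ; ring
    · intro n _
      exact integrable_mul_G_C hf (continuous_const.mul (continuous_circ.pow n))
  rw [h2, re_sum, Finset.mul_sum]
  refine Finset.sum_congr rfl fun n _ => ?_
  rw [integral_mul_circ]
  have : a n * (2 * π * (starRingEnd ℂ) (fc f n)) = (2 * π : ℝ) * (a n * (starRingEnd ℂ) (fc f n)) := by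
    push_cast; ring
  rw [this, re_ofReal_mul]

/-- The Dirichlet principle: lower bound of the energy by the Fourier coefficients of the trace. -/
lemma energy_ge_fourier (w : H1) (N : ℕ) :
    4 * π * ∑ n ∈ Finset.range (N + 1), n * ‖fc w.1.2.2.2 n‖ ^ 2 ≤ energy w := by
  have h := energy_ge w (poly N (fun n => 2 * fc w.1.2.2.2 n))
  rw [energy_ofPoly'] at h
  simp only [reP_X_deriv] at h
  rw [integral_mul_trig (Lp.memLp _)] at h
  have e1 : ∀ n : ℕ, ((n : ℂ) * (2 * fc w.1.2.2.2 n) * (starRingEnd ℂ) (fc w.1.2.2.2 n)).re =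
      2 * (n * ‖fc w.1.2.2.2 n‖ ^ 2) := by
    intro n
    have : (n : ℂ) * (2 * fc w.1.2.2.2 n) * (starRingEnd ℂ) (fc w.1.2.2.2 n) =
        2 * n * (fc w.1.2.2.2 n * (starRingEnd ℂ) (fc w.1.2.2.2 n)) := by ring
    have h3 : (2 * n * ((‖fc w.1.2.2.2 n‖ ^ 2 : ℝ) : ℂ) : ℂ) =
        ((2 * (n * ‖fc w.1.2.2.2 n‖ ^ 2) : ℝ) : ℂ) := by push_cast; ring
    rw [this, mul_conj, normSq_eq_norm_sq, h3, ofReal_re]
  have e2 : ∀ n : ℕ, (n : ℝ) * ‖2 * fc w.1.2.2.2 n‖ ^ 2 = 4 * (n * ‖fc w.1.2.2.2 n‖ ^ 2) := by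
    intro n
    rw [norm_mul]
    norm_num
    ring
  simp only [e1, e2, ← Finset.mul_sum] at h
  linarith


lemma fourierCoeffOn_eq (f : ℝ → ℝ) (n : ℤ) :
    fourierCoeffOn (show (-π : ℝ) < π by linarith [Real.pi_pos]) (fun θ => (f θ : ℂ)) n =
      (1 / (2 * π)) * ∫ θ, (f θ : ℂ) * cexp (-(n * θ * I)) ∂muG := by
  rw [fourierCoeffOn_eq_integral, integral_muG_C]
  have e : ∀ θ : ℝ, (fourier (-n) (θ : AddCircle (π - -π))) • (f θ : ℂ) =
      (f θ : ℂ) * cexp (-(n * θ * I)) := by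
    intro θ
    rw [fourier_coe_apply, smul_eq_mul, mul_comm]
    congr 2
    have hπ : (π : ℂ) ≠ 0 := by exact_mod_cast Real.pi_ne_zero
    push_cast
    field_simp
    ring
  simp only [e]
  rw [real_smul]
  congr 1
  push_cast
  ring_nf

lemma fourierCoeffOn_nat (f : ℝ → ℝ) (n : ℕ) :
    ‖fourierCoeffOn (show (-π : ℝ) < π by linarith [Real.pi_pos]) (fun θ => (f θ : ℂ)) n‖ = ‖fc f n‖ := by
  rw [fourierCoeffOn_eq]
  simp [fc]

lemma fourierCoeffOn_neg (f : ℝ → ℝ) (n : ℕ) :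
    ‖fourierCoeffOn (show (-π : ℝ) < π by linarith [Real.pi_pos]) (fun θ => (f θ : ℂ)) (-(n : ℤ))‖ =
      ‖fc f n‖ := by
  rw [fourierCoeffOn_eq]
  have : (1 / (2 * π)) * ∫ θ, (f θ : ℂ) * cexp (-(((-(n : ℤ) : ℤ) : ℂ) * θ * I)) ∂muG =
      (starRingEnd ℂ) (fc f n) := by
    unfold fc
    rw [map_mul, ← integral_conj]
    congr 1
    · simp only [map_div₀, map_one, map_mul, conj_ofReal, map_ofNat]
    · congr 1
      ext θ
      rw [map_mul, conj_ofReal, ← Complex.exp_conj]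
      congr 2
      simp
  rw [this, RCLike.norm_conj]

/-- Parseval: partial sums of the squares of the Fourier coefficients. -/
lemma parseval (f : ℝ → ℝ) (hf : MemLp f 2 muG) (h0 : fc f 0 = 0) :
    Tendsto (fun N : ℕ => 4 * π * ∑ n ∈ Finset.range (N + 1), ‖fc f n‖ ^ 2) atTop
      (𝓝 (∫ θ, f θ ^ 2 ∂muG)) := by
  have hC : MemLp (fun θ => (f θ : ℂ)) 2 (volume.restrict (Ioc (-π) π)) := hf.ofReal
  have hs := hasSum_sq_fourierCoeffOn (show (-π : ℝ) < π by linarith [Real.pi_pos]) hC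
  have hs2 := (HasSum.nat_add_neg_add_one hs).tendsto_sum_nat
  have hs3 : (fun N : ℕ => ∑ i ∈ Finset.range N,
      (‖fourierCoeffOn (show (-π : ℝ) < π by linarith [Real.pi_pos]) (fun θ => (f θ : ℂ)) i‖ ^ 2 +
      ‖fourierCoeffOn (show (-π : ℝ) < π by linarith [Real.pi_pos]) (fun θ => (f θ : ℂ))
        (-((i : ℤ) + 1))‖ ^ 2)) =
      fun N : ℕ => ∑ i ∈ Finset.range N, (‖fc f i‖ ^ 2 + ‖fc f (i + 1)‖ ^ 2) := by
    ext N
    refine Finset.sum_congr rfl fun i _ => ?_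
    have e : (-((i : ℤ) + 1)) = -(((i + 1 : ℕ) : ℤ)) := by push_cast; ring
    rw [e, fourierCoeffOn_neg, fourierCoeffOn_nat]
  rw [hs3] at hs2
  have hval : (π - -π)⁻¹ • ∫ x in (-π)..π, ‖(f x : ℂ)‖ ^ 2 = (1 / (2 * π)) * ∫ θ, f θ ^ 2 ∂muG := by
    rw [integral_muG, smul_eq_mul]
    congr 1
    · rw [sub_neg_eq_add]; ring
    · apply intervalIntegral.integral_congr
      intro θ _
      simp
  rw [hval] at hs2
  -- squeeze
  set T : ℕ → ℝ := fun N => 2 * ∑ n ∈ Finset.range (N + 1), ‖fc f n‖ ^ 2 with hT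
  have hS : ∀ N : ℕ, ∑ i ∈ Finset.range N, (‖fc f i‖ ^ 2 + ‖fc f (i + 1)‖ ^ 2) =
      T N - ‖fc f N‖ ^ 2 := by
    intro N
    rw [Finset.sum_add_distrib]
    have h1 : ∑ i ∈ Finset.range N, ‖fc f (i + 1)‖ ^ 2 = ∑ i ∈ Finset.range (N + 1), ‖fc f i‖ ^ 2 := by
      rw [Finset.sum_range_succ' (fun i => ‖fc f i‖ ^ 2) N, h0]
      simp
    have h2 : ∑ i ∈ Finset.range (N + 1), ‖fc f i‖ ^ 2 =
        ∑ i ∈ Finset.range N, ‖fc f i‖ ^ 2 + ‖fc f N‖ ^ 2 := Finset.sum_range_succ _ _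
    rw [h1]
    simp only [hT]
    linarith
  have hlow : ∀ N : ℕ, ∑ i ∈ Finset.range N, (‖fc f i‖ ^ 2 + ‖fc f (i + 1)‖ ^ 2) ≤ T N := by
    intro N; rw [hS]; have : 0 ≤ ‖fc f N‖ ^ 2 := by positivity
    linarith
  have hup : ∀ N : ℕ, T N ≤ ∑ i ∈ Finset.range (N + 1), (‖fc f i‖ ^ 2 + ‖fc f (i + 1)‖ ^ 2) := by
    intro N
    rw [Finset.sum_range_succ, hS]
    have : 0 ≤ ‖fc f (N + 1)‖ ^ 2 := by positivity
    linarith
  have hlim : Tendsto T atTop (𝓝 ((1 / (2 * π)) * ∫ θ, f θ ^ 2 ∂muG)) :=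
    tendsto_of_tendsto_of_tendsto_of_le_of_le hs2 (hs2.comp (tendsto_add_atTop_nat 1)) hlow hup
  have := hlim.const_mul (2 * π)
  refine (this.congr fun N => ?_).trans (le_of_eq ?_)
  · simp only [hT]; ring
  · congr 1
    field_simp


/-! ## The lower bound for real functions on the circle -/

lemma integrable_chi {χ : ℝ → ℝ} (hm : Measurable χ) (h01 : ∀ θ, 0 ≤ χ θ ∧ χ θ ≤ 1) {g : ℝ → ℝ}
    (hg : Integrable g muG) : Integrable (fun θ => χ θ * g θ) muG := by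
  refine hg.bdd_mul (c := 1) hm.aestronglyMeasurable (Eventually.of_forall fun θ => ?_)
  rw [Real.norm_eq_abs, abs_of_nonneg (h01 θ).1]
  exact (h01 θ).2

/-- the partial sum of the Fourier series of a real function with mean zero -/
noncomputable def psum (f : ℝ → ℝ) (N : ℕ) (θ : ℝ) : ℝ :=
  (trig (N + 1) (fun n => 2 * fc f n) θ).re

lemma continuous_psum (f : ℝ → ℝ) (N : ℕ) : Continuous (psum f N) :=
  continuous_re.comp (continuous_trig _ _)

lemma int_psum_sq (f : ℝ → ℝ) (h0 : fc f 0 = 0) (N : ℕ) :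
    ∫ θ, psum f N θ ^ 2 ∂muG = 4 * π * ∑ n ∈ Finset.range (N + 1), ‖fc f n‖ ^ 2 := by
  have e : ∀ θ, psum f N θ ^ 2 = (trig (N + 1) (fun n => 2 * fc f n) θ).re *
      (trig (N + 1) (fun n => 2 * fc f n) θ).re := by
    intro θ; rw [psum]; ring
  simp only [e]
  rw [integral_re_trig]
  simp only [h0, mul_zero, zero_re, zero_add]
  rw [Finset.mul_sum, Finset.mul_sum]
  refine Finset.sum_congr rfl fun n _ => ?_
  rw [mul_conj, normSq_eq_norm_sq, ofReal_re, norm_mul]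
  norm_num
  ring

lemma int_mul_psum (f : ℝ → ℝ) (hf : MemLp f 2 muG) (N : ℕ) :
    ∫ θ, f θ * psum f N θ ∂muG = 4 * π * ∑ n ∈ Finset.range (N + 1), ‖fc f n‖ ^ 2 := by
  unfold psum
  rw [integral_mul_trig hf, Finset.mul_sum, Finset.mul_sum]
  refine Finset.sum_congr rfl fun n _ => ?_
  have : 2 * fc f n * (starRingEnd ℂ) (fc f n) = ((2 * ‖fc f n‖ ^ 2 : ℝ) : ℂ) := by
    rw [mul_assoc, mul_conj, normSq_eq_norm_sq]; push_cast; ring
  rw [this, ofReal_re]
  ring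

lemma tendsto_sub_psum (f : ℝ → ℝ) (hf : MemLp f 2 muG) (h0 : fc f 0 = 0) :
    Tendsto (fun N : ℕ => ∫ θ, (f θ - psum f N θ) ^ 2 ∂muG) atTop (𝓝 0) := by
  have e : ∀ N : ℕ, ∫ θ, (f θ - psum f N θ) ^ 2 ∂muG =
      (∫ θ, f θ ^ 2 ∂muG) - 4 * π * ∑ n ∈ Finset.range (N + 1), ‖fc f n‖ ^ 2 := by
    intro N
    have i1 : Integrable (fun θ => f θ ^ 2) muG := hf.integrable_sq
    have i2 : Integrable (fun θ => f θ * psum f N θ) muG :=
      hf.integrable_mul (memLp_muG (continuous_psum f N))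
    have i3 : Integrable (fun θ => psum f N θ ^ 2) muG :=
      (memLp_muG (continuous_psum f N)).integrable_sq
    have h1 : ∫ θ, (f θ - psum f N θ) ^ 2 ∂muG =
        ∫ θ, (f θ ^ 2 - 2 * (f θ * psum f N θ) + psum f N θ ^ 2) ∂muG := by
      congr 1; ext θ; ring
    have h2 : ∫ θ, (f θ ^ 2 - 2 * (f θ * psum f N θ) + psum f N θ ^ 2) ∂muG =
        (∫ θ, f θ ^ 2 ∂muG) - 2 * (∫ θ, f θ * psum f N θ ∂muG) + ∫ θ, psum f N θ ^ 2 ∂muG := by
      rw [← integral_const_mul]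
      have := integral_add (i1.sub (i2.const_mul 2)) i3
      have h3 := integral_sub i1 (i2.const_mul 2)
      rw [← h3]
      exact this
    rw [h1, h2, int_psum_sq f h0, int_mul_psum f hf]
    ring
  simp only [e]
  have := (tendsto_const_nhds (x := ∫ θ, f θ ^ 2 ∂muG)).sub (parseval f hf h0)
  simpa using this

/-- the numbers `Z_n = ∫ (1-ρ) cos θ e^{inθ}` -/
noncomputable def Zn (ρ : ℝ → ℝ) (n : ℕ) : ℂ :=
  ∫ θ, (((1 - ρ θ) * Real.cos θ : ℝ) : ℂ) * circ θ ^ n ∂muG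

lemma lower_finite (ρ : ℝ → ℝ) (hm : Measurable ρ) (h01 : ∀ θ, 0 ≤ ρ θ ∧ ρ θ ≤ 1) (ε c B : ℝ)
    (hc1 : 1 ≤ c) (hc2 : c < 2)
    (hcos : ∫ θ, (1 - ρ θ) * Real.cos θ ^ 2 ∂muG = π * ε)
    (hB : ∀ M : ℕ, ∑ k ∈ Finset.range M, (‖Zn ρ (k + 2)‖ / π) ^ 2 / ((k : ℝ) + 2 - c) ≤ B)
    (hfin : c ^ 2 * B ≤ (1 - c) + c * ε)
    (f : ℝ → ℝ) (h0 : fc f 0 = 0) (h1 : (fc f 1).im = 0) (M : ℕ) :
    c * ∫ θ, ρ θ * psum f (M + 1) θ ^ 2 ∂muG ≤
      4 * π * ∑ n ∈ Finset.range (M + 2), n * ‖fc f n‖ ^ 2 := by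
  set χ : ℝ → ℝ := fun θ => 1 - ρ θ with hχ
  have hχm : Measurable χ := measurable_const.sub hm
  have hχ01 : ∀ θ, 0 ≤ χ θ ∧ χ θ ≤ 1 := fun θ => ⟨by simp only [hχ]; linarith [(h01 θ).2], by
    simp only [hχ]; linarith [(h01 θ).1]⟩
  set β : ℝ := (fc f 1).re with hβ
  have hF1 : fc f 1 = β := by
    apply Complex.ext
    · simp [hβ]
    · simp [h1]
  -- decomposition
  set b : ℕ → ℂ := fun n => if n < 2 then 0 else 2 * fc f n with hb
  set w : ℝ → ℝ := fun θ => (trig (M + 2) b θ).re with hw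
  have hwc : Continuous w := continuous_re.comp (continuous_trig _ _)
  have hdec : ∀ θ, psum f (M + 1) θ = 2 * β * Real.cos θ + w θ := by
    intro θ
    simp only [psum, hw]
    have : trig (M + 2) (fun n => 2 * fc f n) θ = 2 * β * circ θ + trig (M + 2) b θ := by
      unfold trig
      rw [Finset.sum_range_succ', Finset.sum_range_succ', Finset.sum_range_succ' (fun n => b n * circ θ ^ n),
        Finset.sum_range_succ' (fun n => b (n + 1) * circ θ ^ (n + 1))]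
      simp only [h0, hb]
      simp [hF1]
      ring
    rw [this, add_re]
    congr 1
    have : circ θ = (Real.cos θ : ℂ) + (Real.sin θ : ℂ) * I := by
      rw [circ_eq_pol]; simp [pol]
    have h2 : (2 * β * circ θ : ℂ) = ((2 * β : ℝ) : ℂ) * circ θ := by push_cast; ring
    rw [h2, re_ofReal_mul, this, add_re, ofReal_re, re_ofReal_mul, I_re, mul_zero, add_zero]
  -- integrals
  have hpc := continuous_psum f (M + 1)
  have i1 : Integrable (fun θ => psum f (M + 1) θ ^ 2) muG := (memLp_muG hpc).integrable_sq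
  have i2 : Integrable (fun θ => χ θ * psum f (M + 1) θ ^ 2) muG := integrable_chi hχm hχ01 i1
  have s1 : ∫ θ, ρ θ * psum f (M + 1) θ ^ 2 ∂muG =
      4 * π * (∑ n ∈ Finset.range (M + 2), ‖fc f n‖ ^ 2) - ∫ θ, χ θ * psum f (M + 1) θ ^ 2 ∂muG := by
    rw [← int_psum_sq f h0 (M + 1)]
    have := integral_sub i1 i2
    rw [← this]
    congr 1
    ext θ
    simp only [hχ]
    ring
  have i3 : Integrable (fun θ => χ θ * Real.cos θ ^ 2) muG :=
    integrable_chi hχm hχ01 (integrable_muG_R (Real.continuous_cos.pow 2))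
  have i4 : Integrable (fun θ => χ θ * (Real.cos θ * w θ)) muG :=
    integrable_chi hχm hχ01 (integrable_muG_R (Real.continuous_cos.mul hwc))
  have s2 : 4 * β ^ 2 * (π * ε) + 4 * β * (∫ θ, χ θ * (Real.cos θ * w θ) ∂muG) ≤
      ∫ θ, χ θ * psum f (M + 1) θ ^ 2 ∂muG := by
    rw [← hcos]
    have : 4 * β ^ 2 * (∫ θ, (1 - ρ θ) * Real.cos θ ^ 2 ∂muG) +
        4 * β * (∫ θ, χ θ * (Real.cos θ * w θ) ∂muG) =
        ∫ θ, (4 * β ^ 2 * (χ θ * Real.cos θ ^ 2) + 4 * β * (χ θ * (Real.cos θ * w θ))) ∂muG := by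
      rw [← integral_const_mul, ← integral_const_mul]
      exact (integral_add (i3.const_mul _) (i4.const_mul _)).symm
    rw [this]
    apply integral_mono ((i3.const_mul _).add (i4.const_mul _)) i2
    intro θ
    show 4 * β ^ 2 * (χ θ * Real.cos θ ^ 2) + 4 * β * (χ θ * (Real.cos θ * w θ)) ≤
      χ θ * psum f (M + 1) θ ^ 2
    rw [hdec]
    have := mul_nonneg (hχ01 θ).1 (sq_nonneg (w θ))
    nlinarith
  have s3 : ∫ θ, χ θ * (Real.cos θ * w θ) ∂muG =
      ∑ k ∈ Finset.range M, (2 * fc f (k + 2) * Zn ρ (k + 2)).re := by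
    have hMem : MemLp (fun θ => χ θ * Real.cos θ) 2 muG := by
      refine MemLp.of_bound ((hχm.mul Real.measurable_cos).aestronglyMeasurable) 1 ?_
      refine Eventually.of_forall fun θ => ?_
      rw [Real.norm_eq_abs, abs_mul, abs_of_nonneg (hχ01 θ).1]
      have := Real.abs_cos_le_one θ
      have h2 := (hχ01 θ).2
      have h3 := (hχ01 θ).1
      have h4 := abs_nonneg (Real.cos θ)
      nlinarith
    have e1 : ∫ θ, χ θ * (Real.cos θ * w θ) ∂muG =
        ∫ θ, (χ θ * Real.cos θ) * (trig (M + 2) b θ).re ∂muG := by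
      congr 1; ext θ; simp only [hw]; ring
    rw [e1, integral_mul_trig hMem, Finset.mul_sum, Finset.sum_range_succ', Finset.sum_range_succ']
    have hb0 : b 0 = 0 := by simp [hb]
    have hb1 : b (0 + 1) = 0 := by simp [hb]
    rw [hb0, hb1]
    simp only [zero_mul, zero_re, mul_zero, add_zero]
    refine Finset.sum_congr rfl fun k _ => ?_
    have hbk : b (k + 1 + 1) = 2 * fc f (k + 2) := by
      simp [hb]
    have hZ : Zn ρ (k + 2) = 2 * π * (starRingEnd ℂ) (fc (fun θ => χ θ * Real.cos θ) (k + 2)) := by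
      rw [← integral_mul_circ]; rfl
    rw [hbk, hZ]
    have : 2 * fc f (k + 2) * (2 * π * (starRingEnd ℂ) (fc (fun θ => χ θ * Real.cos θ) (k + 2))) =
      (2 * π : ℝ) * (2 * fc f (k + 2) * (starRingEnd ℂ) (fc (fun θ => χ θ * Real.cos θ) (k + 2))) := by
      push_cast; ring
    rw [this, re_ofReal_mul]
  -- sums
  have t1 : ∑ n ∈ Finset.range (M + 2), ‖fc f n‖ ^ 2 =
      (∑ k ∈ Finset.range M, ‖fc f (k + 2)‖ ^ 2) + β ^ 2 := by
    rw [Finset.sum_range_succ', Finset.sum_range_succ']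
    simp [h0, hF1]
  have t2 : ∑ n ∈ Finset.range (M + 2), n * ‖fc f n‖ ^ 2 =
      (∑ k ∈ Finset.range M, ((k : ℝ) + 2) * ‖fc f (k + 2)‖ ^ 2) + β ^ 2 := by
    rw [Finset.sum_range_succ', Finset.sum_range_succ']
    simp only [h0, zero_add, hF1]
    simp
    refine Finset.sum_congr rfl fun k _ => ?_
    ring
  -- termwise estimate
  have term : ∀ k ∈ Finset.range M,
      -(4 * π * c ^ 2 * β ^ 2 * ((‖Zn ρ (k + 2)‖ / π) ^ 2 / ((k : ℝ) + 2 - c))) ≤
      4 * π * (((k : ℝ) + 2) - c) * ‖fc f (k + 2)‖ ^ 2 +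
        4 * c * β * (2 * fc f (k + 2) * Zn ρ (k + 2)).re := by
    intro k _
    have hm0 : 0 < (k : ℝ) + 2 - c := by
      have : (0:ℝ) ≤ k := Nat.cast_nonneg k
      linarith
    set m := (k : ℝ) + 2 - c with hmdef
    set x := ‖fc f (k + 2)‖ with hx
    set z := ‖Zn ρ (k + 2)‖ with hz
    have hx0 : 0 ≤ x := norm_nonneg _
    have hz0 : 0 ≤ z := norm_nonneg _
    have hre : |(2 * fc f (k + 2) * Zn ρ (k + 2)).re| ≤ 2 * x * z := by
      refine (abs_re_le_norm _).trans ?_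
      rw [norm_mul, norm_mul, Complex.norm_ofNat]
    have h5 : -(4 * c * |β| * (2 * x * z)) ≤ 4 * c * β * (2 * fc f (k + 2) * Zn ρ (k + 2)).re := by
      have : |4 * c * β * (2 * fc f (k + 2) * Zn ρ (k + 2)).re| ≤ 4 * c * |β| * (2 * x * z) := by
        rw [abs_mul, abs_mul, abs_of_nonneg (by linarith : (0:ℝ) ≤ 4 * c)]
        gcongr
      exact (neg_le_neg this).trans (neg_abs_le _)
    have hπ := Real.pi_pos
    have h6 : 0 ≤ 4 * π * m * (x - c * |β| * z / (π * m)) ^ 2 := by positivity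
    have h7 : 4 * π * m * (x - c * |β| * z / (π * m)) ^ 2 =
        4 * π * m * x ^ 2 - 4 * c * |β| * (2 * x * z) + 4 * π * c ^ 2 * β ^ 2 * ((z / π) ^ 2 / m) := by
      have hb2 : |β| ^ 2 = β ^ 2 := sq_abs β
      have : 4 * π * m * (x - c * |β| * z / (π * m)) ^ 2 =
        4 * π * m * x ^ 2 - 4 * c * |β| * (2 * x * z) + 4 * π * c ^ 2 * |β| ^ 2 * ((z / π) ^ 2 / m) := by
        field_simp
        ring
      rw [this, hb2]
    linarith
  have hsum := Finset.sum_le_sum term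
  rw [Finset.sum_neg_distrib, ← Finset.mul_sum, Finset.sum_add_distrib, ← Finset.mul_sum] at hsum
  have hBM := hB M
  -- final
  rw [s1, t1, t2]
  have hπ := Real.pi_pos
  have h8 : 4 * π * c ^ 2 * β ^ 2 * ∑ k ∈ Finset.range M, (‖Zn ρ (k + 2)‖ / π) ^ 2 / ((k : ℝ) + 2 - c) ≤
      4 * π * β ^ 2 * ((1 - c) + c * ε) := by
    have h9 : 4 * π * c ^ 2 * β ^ 2 * ∑ k ∈ Finset.range M, (‖Zn ρ (k + 2)‖ / π) ^ 2 / ((k : ℝ) + 2 - c) ≤
      4 * π * c ^ 2 * β ^ 2 * B := by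
      apply mul_le_mul_of_nonneg_left hBM
      positivity
    have h10 : 4 * π * β ^ 2 * (c ^ 2 * B) ≤ 4 * π * β ^ 2 * ((1 - c) + c * ε) := by
      apply mul_le_mul_of_nonneg_left hfin
      positivity
    linarith
  have h11 : ∑ k ∈ Finset.range M, 4 * π * (((k : ℝ) + 2) - c) * ‖fc f (k + 2)‖ ^ 2 =
      4 * π * (∑ k ∈ Finset.range M, ((k : ℝ) + 2) * ‖fc f (k + 2)‖ ^ 2) -
      4 * π * c * ∑ k ∈ Finset.range M, ‖fc f (k + 2)‖ ^ 2 := by
    rw [Finset.mul_sum, Finset.mul_sum, ← Finset.sum_sub_distrib]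
    refine Finset.sum_congr rfl fun k _ => ?_
    ring
  rw [h11] at hsum
  rw [s3] at s2
  have h12 := mul_le_mul_of_nonneg_left s2 (by linarith : (0:ℝ) ≤ c)
  linarith


lemma lower_core (ρ : ℝ → ℝ) (hm : Measurable ρ) (h01 : ∀ θ, 0 ≤ ρ θ ∧ ρ θ ≤ 1) (ε c B : ℝ)
    (hc1 : 1 ≤ c) (hc2 : c < 2)
    (hcos : ∫ θ, (1 - ρ θ) * Real.cos θ ^ 2 ∂muG = π * ε)
    (hB : ∀ M : ℕ, ∑ k ∈ Finset.range M, (‖Zn ρ (k + 2)‖ / π) ^ 2 / ((k : ℝ) + 2 - c) ≤ B)
    (hfin : c ^ 2 * B ≤ (1 - c) + c * ε)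
    (f : ℝ → ℝ) (hf : MemLp f 2 muG) (h0 : fc f 0 = 0) (h1 : (fc f 1).im = 0) (Ef : ℝ)
    (hE : ∀ N : ℕ, 4 * π * ∑ n ∈ Finset.range (N + 1), n * ‖fc f n‖ ^ 2 ≤ Ef) :
    c * ∫ θ, ρ θ * f θ ^ 2 ∂muG ≤ Ef := by
  have hfin' : ∀ M : ℕ, c * ∫ θ, ρ θ * psum f (M + 1) θ ^ 2 ∂muG ≤ Ef := fun M =>
    (lower_finite ρ hm h01 ε c B hc1 hc2 hcos hB hfin f h0 h1 M).trans (hE (M + 1))
  have hEf0 : 0 ≤ Ef := by
    have := hE 0
    simpa using this
  -- key inequality for each η > 0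
  have key : ∀ η : ℝ, 0 < η → c * ∫ θ, ρ θ * f θ ^ 2 ∂muG ≤ (1 + η) * Ef := by
    intro η hη
    have hN : ∀ M : ℕ, c * ∫ θ, ρ θ * f θ ^ 2 ∂muG ≤ (1 + η) * Ef +
        c * (1 + 1 / η) * ∫ θ, (f θ - psum f (M + 1) θ) ^ 2 ∂muG := by
      intro M
      have hpc := continuous_psum f (M + 1)
      have i1 : Integrable (fun θ => psum f (M + 1) θ ^ 2) muG := (memLp_muG hpc).integrable_sq
      have i2 : Integrable (fun θ => (f θ - psum f (M + 1) θ) ^ 2) muG :=
        (hf.sub (memLp_muG hpc)).integrable_sq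
      have i3 : Integrable (fun θ => f θ ^ 2) muG := hf.integrable_sq
      have j1 := integrable_chi hm h01 i1
      have j3 := integrable_chi hm h01 i3
      have h2 : ∫ θ, ρ θ * f θ ^ 2 ∂muG ≤ (1 + η) * (∫ θ, ρ θ * psum f (M + 1) θ ^ 2 ∂muG) +
          (1 + 1 / η) * ∫ θ, (f θ - psum f (M + 1) θ) ^ 2 ∂muG := by
        rw [← integral_const_mul, ← integral_const_mul]
        have h3 := integral_add (j1.const_mul (1 + η)) (i2.const_mul (1 + 1 / η))
        rw [← h3]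
        apply integral_mono j3 ((j1.const_mul _).add (i2.const_mul _))
        intro θ
        show ρ θ * f θ ^ 2 ≤ (1 + η) * (ρ θ * psum f (M + 1) θ ^ 2) +
          (1 + 1 / η) * (f θ - psum f (M + 1) θ) ^ 2
        set x := psum f (M + 1) θ
        set y := f θ - x with hy
        have hfy : f θ = x + y := by rw [hy]; ring
        have h4 : f θ ^ 2 ≤ (1 + η) * x ^ 2 + (1 + 1 / η) * y ^ 2 := by
          rw [hfy]
          have h5 : 0 ≤ (η * x - y) ^ 2 / η := by positivity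
          have h6 : (η * x - y) ^ 2 / η = η * x ^ 2 - 2 * x * y + (1 / η) * y ^ 2 := by
            field_simp
            ring
          nlinarith
        have h7 : ρ θ * f θ ^ 2 ≤ ρ θ * ((1 + η) * x ^ 2 + (1 + 1 / η) * y ^ 2) :=
          mul_le_mul_of_nonneg_left h4 (h01 θ).1
        have h8 : ρ θ * ((1 + 1 / η) * y ^ 2) ≤ (1 + 1 / η) * y ^ 2 := by
          have : 0 ≤ (1 + 1 / η) * y ^ 2 := by positivity
          have := mul_le_mul_of_nonneg_right (h01 θ).2 this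
          linarith
        linarith
      have h9 := hfin' M
      have h10 := mul_le_mul_of_nonneg_left h2 (by linarith : (0:ℝ) ≤ c)
      have h11 : (1 + η) * (c * ∫ θ, ρ θ * psum f (M + 1) θ ^ 2 ∂muG) ≤ (1 + η) * Ef :=
        mul_le_mul_of_nonneg_left h9 (by linarith)
      linarith
    have hlim : Tendsto (fun M : ℕ => (1 + η) * Ef +
        c * (1 + 1 / η) * ∫ θ, (f θ - psum f (M + 1) θ) ^ 2 ∂muG) atTop (𝓝 ((1 + η) * Ef +
        c * (1 + 1 / η) * 0)) :=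
      ((((tendsto_sub_psum f hf h0).comp (tendsto_add_atTop_nat 1)).const_mul _).const_add _)
    rw [mul_zero, add_zero] at hlim
    exact ge_of_tendsto' hlim hN
  refine le_of_forall_pos_le_add fun δ hδ => ?_
  have := key (δ / (Ef + 1)) (by positivity)
  have h2 : (1 + δ / (Ef + 1)) * Ef ≤ Ef + δ := by
    have : δ / (Ef + 1) * Ef ≤ δ := by
      rw [div_mul_eq_mul_div, div_le_iff₀ (by linarith)]
      nlinarith
    linarith
  linarith


/-! ## The set of equal arcs -/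

lemma measurableSet_arcs (α : ℝ) (n : ℕ) : MeasurableSet (arcs n α) := by
  have : arcs n α = ⋃ l : ℤ, {θ : ℝ | |θ - 2 * π * l / n| ≤ π * α / n} := by
    ext θ; simp [arcs]
  rw [this]
  exact MeasurableSet.iUnion fun l => (isClosed_le (by fun_prop) continuous_const).measurableSet

lemma arcs_inter (α : ℝ) (h0 : 0 < α) (h1 : α < 1) :
    arcs 3 α ∩ Ioc (-π) π = (Icc (-(2 * π / 3) - π * α / 3) (-(2 * π / 3) + π * α / 3) ∪
      Icc (0 - π * α / 3) (0 + π * α / 3)) ∪ Icc (2 * π / 3 - π * α / 3) (2 * π / 3 + π * α / 3) := by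
  have hπ := Real.pi_pos
  have ha : π * α < π := by nlinarith
  have ha0 : 0 < π * α := by positivity
  ext θ
  simp only [arcs, mem_inter_iff, mem_ofPred_eq, mem_union, mem_Icc, mem_Ioc]
  constructor
  · rintro ⟨⟨l, hl⟩, hθ1, hθ2⟩
    rw [abs_le] at hl
    push_cast at hl
    have hl1 : (l : ℝ) < 2 := by
      by_contra hcon
      push Not at hcon
      have : 2 * π * 2 / 3 ≤ 2 * π * l / 3 := by gcongr
      linarith [hl.1]
    have hl2 : (-2 : ℝ) < l := by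
      by_contra hcon
      push Not at hcon
      have : 2 * π * l / 3 ≤ 2 * π * (-2) / 3 := by gcongr
      linarith [hl.2]
    have hl1' : l < 2 := by exact_mod_cast hl1
    have hl2' : -2 < l := by exact_mod_cast hl2
    have : l = -1 ∨ l = 0 ∨ l = 1 := by omega
    rcases this with rfl | rfl | rfl
    · left; left
      push_cast at hl
      constructor <;> linarith [hl.1, hl.2]
    · left; right
      push_cast at hl
      constructor <;> linarith [hl.1, hl.2]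
    · right
      push_cast at hl
      constructor <;> linarith [hl.1, hl.2]
  · rintro ((⟨h2, h3⟩ | ⟨h2, h3⟩) | ⟨h2, h3⟩)
    · refine ⟨⟨-1, ?_⟩, by linarith, by linarith⟩
      rw [abs_le]; push_cast
      constructor <;> linarith
    · refine ⟨⟨0, ?_⟩, by linarith, by linarith⟩
      rw [abs_le]; push_cast
      constructor <;> linarith
    · refine ⟨⟨1, ?_⟩, by linarith, by linarith⟩
      rw [abs_le]; push_cast
      constructor <;> linarith

lemma integral_arcs (α : ℝ) (h0 : 0 < α) (h1 : α < 1) (g : ℝ → ℂ) (hg : Continuous g) :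
    ∫ θ, (arcsDensity 3 α θ : ℂ) * g θ ∂muG =
      (∫ θ in (-(2 * π / 3) - π * α / 3)..(-(2 * π / 3) + π * α / 3), g θ) +
      (∫ θ in (0 - π * α / 3)..(0 + π * α / 3), g θ) +
      ∫ θ in (2 * π / 3 - π * α / 3)..(2 * π / 3 + π * α / 3), g θ := by
  have hπ := Real.pi_pos
  have ha : π * α < π := by nlinarith
  have ha0 : 0 < π * α := by positivity
  have e1 : ∀ θ, (arcsDensity 3 α θ : ℂ) * g θ = (arcs 3 α).indicator g θ := by
    intro θ
    by_cases h : θ ∈ arcs 3 α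
    · simp [arcsDensity, h]
    · simp [arcsDensity, h]
  simp only [e1]
  unfold muG
  rw [setIntegral_indicator (measurableSet_arcs α 3), inter_comm, arcs_inter α h0 h1]
  have hint : ∀ a b : ℝ, IntegrableOn g (Icc a b) := fun a b =>
    hg.continuousOn.integrableOn_compact isCompact_Icc
  rw [setIntegral_union, setIntegral_union]
  · rw [intervalIntegral.integral_of_le (by linarith), intervalIntegral.integral_of_le (by linarith),
      intervalIntegral.integral_of_le (by linarith), integral_Icc_eq_integral_Ioc,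
      integral_Icc_eq_integral_Ioc, integral_Icc_eq_integral_Ioc]
  · rw [Set.disjoint_left]
    rintro θ ⟨_, h3⟩ ⟨h4, _⟩
    linarith
  · exact measurableSet_Icc
  · exact hint _ _
  · exact hint _ _
  · rw [Set.disjoint_left]
    rintro θ (⟨_, h3⟩ | ⟨_, h3⟩) ⟨h4, _⟩ <;> linarith
  · exact measurableSet_Icc
  · exact (hint _ _).union (hint _ _)
  · exact hint _ _

/-- exponential integrals over the arcs -/
noncomputable def Rk (α : ℝ) (k : ℤ) : ℂ := ∫ θ, (arcsDensity 3 α θ : ℂ) * cexp (k * θ * I) ∂muG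

lemma interval_exp (c a : ℝ) (k : ℤ) (hk : k ≠ 0) :
    ∫ θ in (c - a)..(c + a), cexp (k * θ * I) =
      cexp (k * c * I) * ((cexp (k * a * I) - cexp (-(k * a * I))) / (k * I)) := by
  have hk' : (k : ℂ) * I ≠ 0 := mul_ne_zero (by exact_mod_cast hk) I_ne_zero
  have e : ∀ θ : ℝ, cexp (k * θ * I) = cexp ((k * I) * θ) := by
    intro θ; ring_nf
  simp only [e]
  rw [integral_exp_mul_complex hk', mul_div_assoc', mul_sub, ← Complex.exp_add, ← Complex.exp_add]
  congr 3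
  · push_cast; ring_nf
  · push_cast; ring_nf

lemma Rk_formula (α : ℝ) (h0 : 0 < α) (h1 : α < 1) (k : ℤ) (hk : k ≠ 0) :
    Rk α k = (cexp (-(k * (2 * π / 3) * I)) + 1 + cexp (k * (2 * π / 3) * I)) *
      ((cexp (k * (π * α / 3 : ℝ) * I) - cexp (-(k * (π * α / 3 : ℝ) * I))) / (k * I)) := by
  unfold Rk
  rw [integral_arcs α h0 h1 _ (by fun_prop), interval_exp _ _ k hk, interval_exp _ _ k hk,
    interval_exp _ _ k hk]
  have e1 : cexp (k * ((-(2 * π / 3) : ℝ) : ℂ) * I) = cexp (-(k * (2 * π / 3) * I)) := by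
    congr 1; push_cast; ring
  have e2 : cexp (k * ((0 : ℝ) : ℂ) * I) = 1 := by simp
  have e3 : cexp (k * ((2 * π / 3 : ℝ) : ℂ) * I) = cexp (k * (2 * π / 3) * I) := by
    congr 1; push_cast; ring
  rw [e1, e2, e3]
  ring

lemma Rk_zero (α : ℝ) (h0 : 0 < α) (h1 : α < 1) : Rk α 0 = 2 * π * α := by
  unfold Rk
  rw [integral_arcs α h0 h1 _ (by fun_prop)]
  simp
  ring

lemma Rk_not_three (α : ℝ) (h0 : 0 < α) (h1 : α < 1) (k : ℤ) (hk : ¬ (3 ∣ k)) : Rk α k = 0 := by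
  have hk0 : k ≠ 0 := by rintro rfl; simp at hk
  rw [Rk_formula α h0 h1 k hk0]
  set w := cexp (k * (2 * π / 3) * I) with hw
  have hwne : w ≠ 0 := Complex.exp_ne_zero _
  have hw' : cexp (-(k * (2 * π / 3) * I)) = w⁻¹ := by rw [Complex.exp_neg]
  rw [hw']
  have hw3 : w ^ 3 = 1 := by
    rw [hw, ← Complex.exp_nat_mul, Complex.exp_eq_one_iff]
    refine ⟨k, ?_⟩
    push_cast; ring
  have hw1 : w ≠ 1 := by
    intro h
    rw [hw, Complex.exp_eq_one_iff] at h
    obtain ⟨m, hm⟩ := h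
    have hπ : (π : ℂ) ≠ 0 := by exact_mod_cast Real.pi_ne_zero
    have : (k : ℂ) = 3 * m := by
      have h2 : (k * (2 * π / 3) * I - m * (2 * π * I) : ℂ) = 0 := by rw [hm]; ring
      have h3 : ((2 * π * I) * ((k : ℂ) - 3 * m) : ℂ) = 0 := by linear_combination 3 * h2
      rcases mul_eq_zero.mp h3 with h4 | h4
      · exfalso
        simp [hπ] at h4
      · linear_combination h4
    apply hk
    exact ⟨m, by exact_mod_cast this⟩
  have hsum : w⁻¹ + 1 + w = 0 := by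
    have h2 : (w - 1) * (w ^ 2 + w + 1) = 0 := by linear_combination hw3
    have h3 : w ^ 2 + w + 1 = 0 := (mul_eq_zero.mp h2).resolve_left (sub_ne_zero.mpr hw1)
    field_simp
    linear_combination h3
  rw [hsum, zero_mul]

lemma Rk_three (α : ℝ) (h0 : 0 < α) (h1 : α < 1) (j : ℤ) (hj : 0 < j) :
    ‖Rk α (3 * j)‖ ≤ 2 * π * (1 - α) ∧ ‖Rk α (3 * j)‖ ≤ 2 / j := by
  have hk0 : 3 * j ≠ 0 := by omega
  have hjR : (0:ℝ) < j := by exact_mod_cast hj
  rw [Rk_formula α h0 h1 _ hk0]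
  have e1 : cexp (((3 * j : ℤ) : ℂ) * (2 * π / 3) * I) = 1 := by
    rw [Complex.exp_eq_one_iff]
    exact ⟨j, by push_cast; ring⟩
  have e2 : cexp (-(((3 * j : ℤ) : ℂ) * (2 * π / 3) * I)) = 1 := by
    rw [Complex.exp_neg, e1, inv_one]
  have e3 : cexp (((3 * j : ℤ) : ℂ) * (π * α / 3 : ℝ) * I) - cexp (-(((3 * j : ℤ) : ℂ) * (π * α / 3 : ℝ) * I)) =
      2 * I * (Real.sin (π * j * α) : ℂ) := by
    have : ((3 * j : ℤ) : ℂ) * (π * α / 3 : ℝ) * I = ((π * j * α : ℝ) : ℂ) * I := by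
      push_cast; ring
    rw [this, ← neg_mul, Complex.exp_mul_I, Complex.exp_mul_I, Complex.cos_neg, Complex.sin_neg,
      ofReal_sin]
    ring
  rw [e1, e2, e3]
  have e4 : (1 + 1 + 1) * (2 * I * (Real.sin (π * j * α) : ℂ) / (((3 * j : ℤ) : ℂ) * I)) =
      ((2 * Real.sin (π * j * α) / j : ℝ) : ℂ) := by
    have hj' : (j : ℂ) ≠ 0 := by exact_mod_cast hj.ne'
    have hI := I_ne_zero
    push_cast
    field_simp
    ring
  rw [e4, Complex.norm_real, Real.norm_eq_abs, abs_div, abs_mul, abs_of_pos hjR]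
  have hsin : |Real.sin (π * j * α)| = |Real.sin (π * j * (1 - α))| := by
    have : π * j * α = (j : ℝ) * π - π * j * (1 - α) := by ring
    rw [this, Real.sin_int_mul_pi_sub]
    rw [abs_neg, abs_mul, abs_zpow, abs_neg, abs_one, one_zpow, one_mul]
  constructor
  · rw [hsin, div_le_iff₀ hjR]
    have h2 : |Real.sin (π * j * (1 - α))| ≤ |π * j * (1 - α)| := Real.abs_sin_le_abs
    rw [abs_of_nonneg (by have : 0 < 1 - α := by linarith
                          positivity : (0:ℝ) ≤ π * j * (1 - α))] at h2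
    norm_num
    linarith
  · have := Real.abs_sin_le_one (π * j * α)
    gcongr
    norm_num
    linarith


lemma measurable_arcsDensity (α : ℝ) (n : ℕ) : Measurable (arcsDensity n α) :=
  measurable_const.indicator (measurableSet_arcs α n)

lemma arcsDensity_01 (α : ℝ) (n : ℕ) (θ : ℝ) : 0 ≤ arcsDensity n α θ ∧ arcsDensity n α θ ≤ 1 := by
  unfold arcsDensity
  by_cases h : θ ∈ arcs n α
  · simp [h]
  · simp [h]

lemma integrable_arcs (α : ℝ) (n : ℕ) {g : ℝ → ℂ} (hg : Continuous g) :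
    Integrable (fun θ => (arcsDensity n α θ : ℂ) * g θ) muG := by
  refine (integrable_muG_C hg).bdd_mul (c := 1)
    (measurable_ofReal.comp (measurable_arcsDensity α n)).aestronglyMeasurable
    (Eventually.of_forall fun θ => ?_)
  rw [Complex.norm_real, Real.norm_eq_abs, abs_of_nonneg (arcsDensity_01 α n θ).1]
  exact (arcsDensity_01 α n θ).2

lemma Zn_formula (α : ℝ) (n : ℕ) (hn : 2 ≤ n) :
    Zn (arcsDensity 3 α) n = -(1 / 2) * (Rk α ((n : ℤ) + 1) + Rk α ((n : ℤ) - 1)) := by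
  unfold Zn Rk
  have e : ∀ θ : ℝ, (((1 - arcsDensity 3 α θ) * Real.cos θ : ℝ) : ℂ) * circ θ ^ n =
      (1 / 2) * (cexp (((n : ℤ) + 1 : ℤ) * θ * I) + cexp (((n : ℤ) - 1 : ℤ) * θ * I)) -
      (1 / 2) * ((arcsDensity 3 α θ : ℂ) * cexp (((n : ℤ) + 1 : ℤ) * θ * I) +
        (arcsDensity 3 α θ : ℂ) * cexp (((n : ℤ) - 1 : ℤ) * θ * I)) := by
    intro θ
    have h1 : ((Real.cos θ : ℝ) : ℂ) = (cexp (θ * I) + cexp (-(θ * I))) / 2 := by
      rw [ofReal_cos, Complex.cos, neg_mul]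
    have h2 : cexp (((n : ℤ) + 1 : ℤ) * θ * I) = cexp (θ * I) * cexp ((n : ℤ) * θ * I) := by
      rw [← Complex.exp_add]; congr 1; push_cast; ring
    have h3 : cexp (((n : ℤ) - 1 : ℤ) * θ * I) = cexp (-(θ * I)) * cexp ((n : ℤ) * θ * I) := by
      rw [← Complex.exp_add]; congr 1; push_cast; ring
    rw [h2, h3, circ_pow, ofReal_mul, h1]
    push_cast
    ring
  simp only [e]
  have c1 : Continuous (fun θ : ℝ => cexp (((n : ℤ) + 1 : ℤ) * θ * I)) := by fun_prop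
  have c2 : Continuous (fun θ : ℝ => cexp (((n : ℤ) - 1 : ℤ) * θ * I)) := by fun_prop
  have i1 := integrable_muG_C c1
  have i2 := integrable_muG_C c2
  have i3 := integrable_arcs α 3 c1
  have i4 := integrable_arcs α 3 c2
  have hsub : ∫ θ : ℝ, ((1 / 2) * (cexp (((n : ℤ) + 1 : ℤ) * θ * I) + cexp (((n : ℤ) - 1 : ℤ) * θ * I)) -
      (1 / 2) * ((arcsDensity 3 α θ : ℂ) * cexp (((n : ℤ) + 1 : ℤ) * θ * I) +
        (arcsDensity 3 α θ : ℂ) * cexp (((n : ℤ) - 1 : ℤ) * θ * I))) ∂muG =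
      (1 / 2) * ((∫ θ : ℝ, cexp (((n : ℤ) + 1 : ℤ) * θ * I) ∂muG) +
        ∫ θ : ℝ, cexp (((n : ℤ) - 1 : ℤ) * θ * I) ∂muG) -
      (1 / 2) * ((∫ θ, (arcsDensity 3 α θ : ℂ) * cexp (((n : ℤ) + 1 : ℤ) * θ * I) ∂muG) +
        ∫ θ, (arcsDensity 3 α θ : ℂ) * cexp (((n : ℤ) - 1 : ℤ) * θ * I) ∂muG) := by
    rw [← integral_add i1 i2, ← integral_add i3 i4, ← integral_const_mul, ← integral_const_mul]
    exact integral_sub ((i1.add i2).const_mul _) ((i3.add i4).const_mul _)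
  rw [hsub, integral_exp_int, integral_exp_int, if_neg (by omega), if_neg (by omega)]
  ring

lemma Zn_bound (α : ℝ) (h0 : 0 < α) (h1 : α < 1) (j : ℕ) (n : ℕ) (hn : n = 3 * j + 2 ∨ n = 3 * j + 4) :
    ‖Zn (arcsDensity 3 α) n‖ / π ≤ 1 - α ∧ ‖Zn (arcsDensity 3 α) n‖ / π ≤ 1 / ((j : ℝ) + 1) := by
  have hπ := Real.pi_pos
  have hR : ∃ k : ℤ, Zn (arcsDensity 3 α) n = -(1 / 2) * Rk α (3 * ((j : ℤ) + 1)) := by
    rcases hn with rfl | rfl
    · refine ⟨0, ?_⟩
      rw [Zn_formula α _ (by omega)]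
      have e1 : (((3 * j + 2 : ℕ) : ℤ) + 1) = 3 * ((j : ℤ) + 1) := by push_cast; ring
      have e2 : Rk α (((3 * j + 2 : ℕ) : ℤ) - 1) = 0 := by
        apply Rk_not_three α h0 h1
        omega
      rw [e1, e2, add_zero]
    · refine ⟨0, ?_⟩
      rw [Zn_formula α _ (by omega)]
      have e1 : (((3 * j + 4 : ℕ) : ℤ) - 1) = 3 * ((j : ℤ) + 1) := by push_cast; ring
      have e2 : Rk α (((3 * j + 4 : ℕ) : ℤ) + 1) = 0 := by
        apply Rk_not_three α h0 h1
        omega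
      rw [e1, e2, zero_add]
  obtain ⟨_, hR⟩ := hR
  have hb := Rk_three α h0 h1 ((j : ℤ) + 1) (by omega)
  have hn2 : ‖Zn (arcsDensity 3 α) n‖ = (1 / 2) * ‖Rk α (3 * ((j : ℤ) + 1))‖ := by
    rw [hR, norm_mul, norm_neg]
    norm_num
  rw [hn2]
  constructor
  · rw [div_le_iff₀ hπ]
    linarith [hb.1]
  · rw [div_le_iff₀ hπ]
    have h3 := hb.2
    push_cast at h3
    have h4 : (0:ℝ) < (j : ℝ) + 1 := by positivity
    have h5 : 1 / ((j : ℝ) + 1) * π ≥ 1 / ((j : ℝ) + 1) * 1 := by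
      apply mul_le_mul_of_nonneg_left _ (by positivity)
      linarith [Real.pi_gt_three]
    have h6 : 2 / ((j : ℝ) + 1) = 2 * (1 / ((j : ℝ) + 1)) := by ring
    linarith

lemma Zn_three (α : ℝ) (h0 : 0 < α) (h1 : α < 1) (j : ℕ) :
    Zn (arcsDensity 3 α) (3 * j + 3) = 0 := by
  rw [Zn_formula α _ (by omega)]
  have e1 : Rk α (((3 * j + 3 : ℕ) : ℤ) + 1) = 0 := Rk_not_three α h0 h1 _ (by omega)
  have e2 : Rk α (((3 * j + 3 : ℕ) : ℤ) - 1) = 0 := Rk_not_three α h0 h1 _ (by omega)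
  rw [e1, e2]; simp

/-- harmonic sums -/
noncomputable def Hs (K : ℕ) : ℝ := ∑ i ∈ Finset.range K, 1 / ((i : ℝ) + 1)

/-- Bound for a tail sum. -/
lemma tail_bound (K L : ℕ) : ∑ l ∈ Finset.range L, 1 / (((K + l : ℕ) : ℝ) + 2) ^ 2 / (((K + l : ℕ) : ℝ) + 1) ≤
    1 / ((K : ℝ) + 1) * (1 / ((K : ℝ) + 1) - 1 / ((K : ℝ) + L + 1)) := by
  induction L with
  | zero => simp
  | succ L ih =>
    rw [Finset.sum_range_succ]
    have hK : (0:ℝ) < (K : ℝ) + 1 := by positivity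
    have h1 : 1 / (((K + L : ℕ) : ℝ) + 2) ^ 2 / (((K + L : ℕ) : ℝ) + 1) ≤
        1 / ((K : ℝ) + 1) * (1 / ((K : ℝ) + L + 1) - 1 / ((K : ℝ) + L + 2)) := by
      push_cast
      set x := (K : ℝ) + L + 1 with hx
      have hxK : (K : ℝ) + 1 ≤ x + 1 := by rw [hx]; have : (0:ℝ) ≤ L := Nat.cast_nonneg L; linarith
      have hx0 : 0 < x := by rw [hx]; positivity
      have e1 : (K : ℝ) + L + 2 = x + 1 := by rw [hx]; ring
      rw [e1]
      have e2 : 1 / x - 1 / (x + 1) = 1 / (x * (x + 1)) := by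
        field_simp
        ring
      rw [e2]
      have e3 : 1 / (x + 1) ^ 2 / x = 1 / (x + 1) * (1 / (x * (x + 1))) := by
        field_simp
      rw [e3]
      have : 1 / (x + 1) ≤ 1 / ((K : ℝ) + 1) := one_div_le_one_div_of_le hK hxK
      gcongr
    have h2 : (K : ℝ) + ((L + 1 : ℕ) : ℝ) + 1 = (K : ℝ) + L + 2 := by push_cast; ring
    rw [h2]
    calc _ ≤ 1 / ((K : ℝ) + 1) * (1 / ((K : ℝ) + 1) - 1 / ((K : ℝ) + L + 1)) +
        1 / ((K : ℝ) + 1) * (1 / ((K : ℝ) + L + 1) - 1 / ((K : ℝ) + L + 2)) := add_le_add ih h1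
      _ = _ := by ring

/-- Sum bound for the lower estimate. -/
lemma sum_bound (α ε c : ℝ) (h0 : 0 < α) (h1 : α < 1) (hε : ε = 1 - α) (K : ℕ) (hK : 1 / ((K : ℝ) + 1) ≤ ε)
    (hc2 : c ≤ 101 / 100) (M : ℕ) :
    ∑ k ∈ Finset.range M, (‖Zn (arcsDensity 3 α) (k + 2)‖ / π) ^ 2 / ((k : ℝ) + 2 - c) ≤
      2 / 3 * ε ^ 2 * Hs K + 3 * ε ^ 2 := by
  have hε0 : 0 < ε := by rw [hε]; linarith
  set t : ℕ → ℝ := fun k => (‖Zn (arcsDensity 3 α) (k + 2)‖ / π) ^ 2 / ((k : ℝ) + 2 - c) with ht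
  have hden : ∀ k : ℕ, 0 < (k : ℝ) + 2 - c := fun k => by
    have : (0:ℝ) ≤ k := Nat.cast_nonneg k
    linarith
  have htnn : ∀ k, 0 ≤ t k := fun k => div_nonneg (by positivity) (hden k).le
  -- grouping
  have hgroup : ∀ J : ℕ, ∑ k ∈ Finset.range (3 * J), t k =
      ∑ i ∈ Finset.range J, (t (3 * i) + t (3 * i + 1) + t (3 * i + 2)) := by
    intro J
    induction J with
    | zero => simp
    | succ J ih =>
      rw [Finset.sum_range_succ, ← ih, show 3 * (J + 1) = 3 * J + 1 + 1 + 1 by ring,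
        Finset.sum_range_succ, Finset.sum_range_succ, Finset.sum_range_succ]
      ring
  have ht1 : ∀ i, t (3 * i + 1) = 0 := by
    intro i
    simp only [ht]
    rw [show 3 * i + 1 + 2 = 3 * i + 3 by ring, Zn_three α h0 h1]
    simp
  -- bound of groups
  set q : ℕ → ℝ := fun i => min ε (1 / ((i : ℝ) + 1)) with hq
  have hq0 : ∀ i, 0 ≤ q i := fun i => le_min hε0.le (by positivity)
  have hZq : ∀ i n : ℕ, (n = 3 * i + 2 ∨ n = 3 * i + 4) → (‖Zn (arcsDensity 3 α) n‖ / π) ^ 2 ≤ q i ^ 2 := by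
    intro i n hn
    have hb := Zn_bound α h0 h1 i n hn
    have h3 : ‖Zn (arcsDensity 3 α) n‖ / π ≤ q i := le_min (by rw [hε]; exact hb.1) hb.2
    have h4 : 0 ≤ ‖Zn (arcsDensity 3 α) n‖ / π := div_nonneg (norm_nonneg _) Real.pi_pos.le
    exact pow_le_pow_left₀ h4 h3 2
  have hg0 : t (3 * 0) + t (3 * 0 + 1) + t (3 * 0 + 2) ≤ 2 * ε ^ 2 := by
    rw [ht1]
    simp only [ht]
    have a1 := hZq 0 (3 * 0 + 2) (Or.inl rfl)
    have a2 := hZq 0 (3 * 0 + 2 + 2) (Or.inr rfl)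
    have hq2 : q 0 ^ 2 ≤ ε ^ 2 := pow_le_pow_left₀ (hq0 0) (min_le_left _ _) 2
    have b1 : (‖Zn (arcsDensity 3 α) (3 * 0 + 2)‖ / π) ^ 2 / (((3 * 0 : ℕ) : ℝ) + 2 - c) ≤
        ε ^ 2 / (99 / 100) := by
      apply div_le_div₀ (by positivity) (a1.trans hq2) (by norm_num)
      push_cast; linarith
    have b2 : (‖Zn (arcsDensity 3 α) (3 * 0 + 2 + 2)‖ / π) ^ 2 / (((3 * 0 + 2 : ℕ) : ℝ) + 2 - c) ≤
        ε ^ 2 / (299 / 100) := by
      apply div_le_div₀ (by positivity) (a2.trans hq2) (by norm_num)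
      push_cast; linarith
    nlinarith [sq_nonneg ε]
  have hgi : ∀ i : ℕ, t (3 * (i + 1)) + t (3 * (i + 1) + 1) + t (3 * (i + 1) + 2) ≤
      2 / 3 * (q (i + 1) ^ 2 / ((i : ℝ) + 1)) := by
    intro i
    rw [ht1]
    simp only [ht]
    have a1 := hZq (i + 1) (3 * (i + 1) + 2) (Or.inl rfl)
    have a2 := hZq (i + 1) (3 * (i + 1) + 2 + 2) (Or.inr rfl)
    have hi : (0:ℝ) ≤ i := Nat.cast_nonneg i
    have b1 : (‖Zn (arcsDensity 3 α) (3 * (i + 1) + 2)‖ / π) ^ 2 / (((3 * (i + 1) : ℕ) : ℝ) + 2 - c) ≤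
        q (i + 1) ^ 2 / (3 * ((i : ℝ) + 1)) := by
      apply div_le_div₀ (by positivity) a1 (by positivity)
      push_cast; linarith
    have b2 : (‖Zn (arcsDensity 3 α) (3 * (i + 1) + 2 + 2)‖ / π) ^ 2 / (((3 * (i + 1) + 2 : ℕ) : ℝ) + 2 - c) ≤
        q (i + 1) ^ 2 / (3 * ((i : ℝ) + 1)) := by
      apply div_le_div₀ (by positivity) a2 (by positivity)
      push_cast; linarith
    have e : 2 / 3 * (q (i + 1) ^ 2 / ((i : ℝ) + 1)) =
        q (i + 1) ^ 2 / (3 * ((i : ℝ) + 1)) + q (i + 1) ^ 2 / (3 * ((i : ℝ) + 1)) := by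
      field_simp
      ring
    rw [e]
    linarith
  -- the sum over i
  have hqs : ∀ L : ℕ, ∑ i ∈ Finset.range (K + L), q (i + 1) ^ 2 / ((i : ℝ) + 1) ≤
      ε ^ 2 * Hs K + ε ^ 2 := by
    intro L
    rw [Finset.sum_range_add]
    have s1 : ∑ i ∈ Finset.range K, q (i + 1) ^ 2 / ((i : ℝ) + 1) ≤ ε ^ 2 * Hs K := by
      unfold Hs
      rw [Finset.mul_sum]
      refine Finset.sum_le_sum fun i _ => ?_
      have : q (i + 1) ^ 2 ≤ ε ^ 2 := pow_le_pow_left₀ (hq0 _) (min_le_left _ _) 2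
      rw [mul_one_div]
      gcongr
    have s2 : ∑ l ∈ Finset.range L, q (K + l + 1) ^ 2 / (((K + l : ℕ) : ℝ) + 1) ≤ ε ^ 2 := by
      have s3 : ∑ l ∈ Finset.range L, q (K + l + 1) ^ 2 / (((K + l : ℕ) : ℝ) + 1) ≤
          ∑ l ∈ Finset.range L, 1 / (((K + l : ℕ) : ℝ) + 2) ^ 2 / (((K + l : ℕ) : ℝ) + 1) := by
        refine Finset.sum_le_sum fun l _ => ?_
        have h5 : q (K + l + 1) ≤ 1 / (((K + l : ℕ) : ℝ) + 2) := by
          refine (min_le_right _ _).trans (le_of_eq ?_)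
          push_cast; ring
        have h6 : q (K + l + 1) ^ 2 ≤ 1 / (((K + l : ℕ) : ℝ) + 2) ^ 2 := by
          have := pow_le_pow_left₀ (hq0 (K + l + 1)) h5 2
          rwa [div_pow, one_pow] at this
        gcongr
      have s4 := tail_bound K L
      have hK0 : (0:ℝ) < 1 / ((K : ℝ) + 1) := by positivity
      have s5 : 1 / ((K : ℝ) + 1) * (1 / ((K : ℝ) + 1) - 1 / ((K : ℝ) + L + 1)) ≤ ε ^ 2 := by
        have : (0:ℝ) ≤ 1 / ((K : ℝ) + L + 1) := by positivity
        nlinarith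
      linarith
    linarith
  -- assembly
  have hsub : ∑ k ∈ Finset.range M, t k ≤ ∑ k ∈ Finset.range (3 * (K + M + 1)), t k := by
    apply Finset.sum_le_sum_of_subset_of_nonneg
    · intro k hk
      simp only [Finset.mem_range] at hk ⊢
      omega
    · intro k _ _
      exact htnn k
  refine hsub.trans ?_
  rw [hgroup, Finset.sum_range_succ']
  have hsum : ∑ i ∈ Finset.range (K + M), (t (3 * (i + 1)) + t (3 * (i + 1) + 1) + t (3 * (i + 1) + 2)) ≤
      2 / 3 * ∑ i ∈ Finset.range (K + M), q (i + 1) ^ 2 / ((i : ℝ) + 1) := by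
    rw [Finset.mul_sum]
    exact Finset.sum_le_sum fun i _ => hgi i
  have := hqs M
  linarith [sq_nonneg ε]


lemma Zn_one (α : ℝ) (h0 : 0 < α) (h1 : α < 1) : Zn (arcsDensity 3 α) 1 = π * (1 - α) := by
  unfold Zn
  have e : ∀ θ : ℝ, (((1 - arcsDensity 3 α θ) * Real.cos θ : ℝ) : ℂ) * circ θ ^ 1 =
      (1 / 2) * (cexp ((2 : ℤ) * θ * I) + cexp ((0 : ℤ) * θ * I)) -
      (1 / 2) * ((arcsDensity 3 α θ : ℂ) * cexp ((2 : ℤ) * θ * I) +
        (arcsDensity 3 α θ : ℂ) * cexp ((0 : ℤ) * θ * I)) := by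
    intro θ
    have h1 : ((Real.cos θ : ℝ) : ℂ) = (cexp (θ * I) + cexp (-(θ * I))) / 2 := by
      rw [ofReal_cos, Complex.cos, neg_mul]
    have h2 : cexp ((2 : ℤ) * θ * I) = cexp (θ * I) * cexp (((1 : ℕ) : ℤ) * θ * I) := by
      rw [← Complex.exp_add]; congr 1; push_cast; ring
    have h3 : cexp ((0 : ℤ) * θ * I) = cexp (-(θ * I)) * cexp (((1 : ℕ) : ℤ) * θ * I) := by
      rw [← Complex.exp_add]; congr 1; push_cast; ring
    rw [h2, h3, circ_pow, ofReal_mul, h1]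
    push_cast
    ring
  simp only [e]
  have c1 : Continuous (fun θ : ℝ => cexp ((2 : ℤ) * θ * I)) := by fun_prop
  have c2 : Continuous (fun θ : ℝ => cexp ((0 : ℤ) * θ * I)) := by fun_prop
  have i1 := integrable_muG_C c1
  have i2 := integrable_muG_C c2
  have i3 := integrable_arcs α 3 c1
  have i4 := integrable_arcs α 3 c2
  have hsub : ∫ θ : ℝ, ((1 / 2) * (cexp ((2 : ℤ) * θ * I) + cexp ((0 : ℤ) * θ * I)) -
      (1 / 2) * ((arcsDensity 3 α θ : ℂ) * cexp ((2 : ℤ) * θ * I) +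
        (arcsDensity 3 α θ : ℂ) * cexp ((0 : ℤ) * θ * I))) ∂muG =
      (1 / 2) * ((∫ θ : ℝ, cexp ((2 : ℤ) * θ * I) ∂muG) +
        ∫ θ : ℝ, cexp ((0 : ℤ) * θ * I) ∂muG) -
      (1 / 2) * ((∫ θ, (arcsDensity 3 α θ : ℂ) * cexp ((2 : ℤ) * θ * I) ∂muG) +
        ∫ θ, (arcsDensity 3 α θ : ℂ) * cexp ((0 : ℤ) * θ * I) ∂muG) := by
    rw [← integral_add i1 i2, ← integral_add i3 i4, ← integral_const_mul, ← integral_const_mul]
    exact integral_sub ((i1.add i2).const_mul _) ((i3.add i4).const_mul _)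
  have hR2 : ∫ θ, (arcsDensity 3 α θ : ℂ) * cexp ((2 : ℤ) * θ * I) ∂muG = 0 :=
    Rk_not_three α h0 h1 2 (by norm_num)
  have hR0 : ∫ θ, (arcsDensity 3 α θ : ℂ) * cexp ((0 : ℤ) * θ * I) ∂muG = 2 * π * α :=
    Rk_zero α h0 h1
  rw [hsub, hR2, hR0, integral_exp_int, integral_exp_int, if_neg (by norm_num), if_pos rfl]
  ring

lemma int_cos_sq (α : ℝ) (h0 : 0 < α) (h1 : α < 1) :
    ∫ θ, (1 - arcsDensity 3 α θ) * Real.cos θ ^ 2 ∂muG = π * (1 - α) := by
  have h := Zn_one α h0 h1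
  have h2 : (Zn (arcsDensity 3 α) 1).re = ∫ θ, (1 - arcsDensity 3 α θ) * Real.cos θ ^ 2 ∂muG := by
    unfold Zn
    have hm : Measurable (fun θ => 1 - arcsDensity 3 α θ) :=
      measurable_const.sub (measurable_arcsDensity α 3)
    have h01 : ∀ θ, 0 ≤ 1 - arcsDensity 3 α θ ∧ 1 - arcsDensity 3 α θ ≤ 1 := fun θ =>
      ⟨by linarith [(arcsDensity_01 α 3 θ).2], by linarith [(arcsDensity_01 α 3 θ).1]⟩
    have hMem : MemLp (fun θ => (1 - arcsDensity 3 α θ) * Real.cos θ) 2 muG := by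
      refine MemLp.of_bound ((hm.mul Real.measurable_cos).aestronglyMeasurable) 1 ?_
      refine Eventually.of_forall fun θ => ?_
      rw [Real.norm_eq_abs, abs_mul, abs_of_nonneg (h01 θ).1]
      have := Real.abs_cos_le_one θ
      have h2 := (h01 θ).2
      have h3 := (h01 θ).1
      have h4 := abs_nonneg (Real.cos θ)
      nlinarith
    have hint := integrable_mul_G_C hMem (φ := fun θ => circ θ ^ 1) (continuous_circ.pow 1)
    have := reCLM.integral_comp_comm hint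
    rw [reCLM_apply] at this
    rw [← this]
    congr 1
    ext θ
    have hc : (circ θ).re = Real.cos θ := exp_ofReal_mul_I_re θ
    rw [reCLM_apply, re_ofReal_mul, pow_one, hc]
    ring
  rw [← h2, h]
  have : (π * (1 - α) : ℂ) = ((π * (1 - α) : ℝ) : ℂ) := by push_cast; ring
  rw [this, ofReal_re]

/-- The two linear conditions. -/
noncomputable def Phi : H1 →ₗ[ℝ] ℝ × ℝ where
  toFun w := (∫ θ, w.1.2.2.2 θ * 1 ∂muG, ∫ θ, w.1.2.2.2 θ * Real.sin θ ∂muG)
  map_add' w w' := by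
    refine Prod.ext ?_ ?_
    · exact int_add_G w.1.2.2.2 w'.1.2.2.2 (φ := fun _ => 1) continuous_const
    · exact int_add_G w.1.2.2.2 w'.1.2.2.2 (φ := Real.sin) Real.continuous_sin
  map_smul' c w := by
    refine Prod.ext ?_ ?_
    · exact int_smul_G c w.1.2.2.2 (fun _ => 1)
    · exact int_smul_G c w.1.2.2.2 Real.sin

lemma fc_zero_of {w : H1} (h : Phi w = 0) : fc w.1.2.2.2 0 = 0 := by
  have h1 : ∫ θ, w.1.2.2.2 θ * 1 ∂muG = 0 := congrArg Prod.fst h
  unfold fc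
  have : ∫ θ, (w.1.2.2.2 θ : ℂ) * cexp (-((0 : ℕ) * θ * I)) ∂muG = ((∫ θ, w.1.2.2.2 θ * 1 ∂muG : ℝ) : ℂ) := by
    rw [← integral_complex_ofReal]
    congr 1
    ext θ
    simp
  rw [this, h1]
  simp

lemma fc_one_of {w : H1} (h : Phi w = 0) : (fc w.1.2.2.2 1).im = 0 := by
  have h1 : ∫ θ, w.1.2.2.2 θ * Real.sin θ ∂muG = 0 := congrArg Prod.snd h
  have h2 := integral_mul_circ (f := w.1.2.2.2) 1
  have h3 : (∫ θ, (w.1.2.2.2 θ : ℂ) * circ θ ^ 1 ∂muG).im = 0 := by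
    have hint := integrable_mul_G_C (Lp.memLp w.1.2.2.2) (φ := fun θ => circ θ ^ 1)
      (continuous_circ.pow 1)
    have := imCLM.integral_comp_comm hint
    rw [imCLM_apply] at this
    rw [← this, ← h1]
    congr 1
    ext θ
    have hc : (circ θ).im = Real.sin θ := exp_ofReal_mul_I_im θ
    rw [imCLM_apply, im_ofReal_mul, pow_one, hc]
  rw [h2] at h3
  have h4 : (2 * π * (starRingEnd ℂ) (fc w.1.2.2.2 1) : ℂ) = ((2 * π : ℝ) : ℂ) * (starRingEnd ℂ) (fc w.1.2.2.2 1) := by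
    push_cast; ring
  rw [h4, im_ofReal_mul, conj_im] at h3
  have hπ : (2 * π : ℝ) ≠ 0 := by positivity
  have := (mul_eq_zero.mp h3).resolve_left hπ
  linarith

lemma lower_steklov (α ε c : ℝ) (h0 : 0 < α) (h1 : α < 1) (hε : ε = 1 - α) (K : ℕ)
    (hK : 1 / ((K : ℝ) + 1) ≤ ε) (hc1 : 1 ≤ c) (hc2 : c ≤ 101 / 100)
    (hfin : c ^ 2 * (2 / 3 * ε ^ 2 * Hs K + 3 * ε ^ 2) ≤ (1 - c) + c * ε) :
    ENNReal.ofReal c ≤ steklov 2 (arcsDensity 3 α) := by
  unfold steklov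
  refine le_iInf₂ fun E hE => ?_
  -- find a good element of `E`
  have hfd : Module.finrank ℝ (ℝ × ℝ) < Module.finrank ℝ E := by
    rw [hE]; simp
  have hfin2 : FiniteDimensional ℝ E := FiniteDimensional.of_finrank_pos (by rw [hE]; norm_num)
  have hker : LinearMap.ker (Phi.domRestrict E) ≠ ⊥ := by
    exact @LinearMap.ker_ne_bot_of_finrank_lt ℝ E _ _ _ (ℝ × ℝ) _ _ _ _ (Phi.domRestrict E) hfd
  obtain ⟨⟨w, hwE⟩, hw1, hw2⟩ := Submodule.exists_mem_ne_zero_of_ne_bot hker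
  have hwne : w ≠ 0 := by
    rintro rfl
    exact hw2 rfl
  have hPhi : Phi w = 0 := by
    simpa using hw1
  refine le_trans ?_ (le_iSup₂_of_le w hwE (le_iSup (fun _ => rayleigh (arcsDensity 3 α) w) hwne))
  unfold rayleigh
  split_ifs with hm
  · exact le_top
  · have hcore := lower_core (arcsDensity 3 α) (measurable_arcsDensity α 3) (arcsDensity_01 α 3) ε c
      (2 / 3 * ε ^ 2 * Hs K + 3 * ε ^ 2) hc1 (by linarith)
      (by rw [hε]; exact int_cos_sq α h0 h1)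
      (sum_bound α ε c h0 h1 hε K hK hc2) hfin w.1.2.2.2 (Lp.memLp _) (fc_zero_of hPhi)
      (fc_one_of hPhi) (energy w) (energy_ge_fourier w)
    have hmpos : 0 < mass (arcsDensity 3 α) w := by
      have : 0 ≤ mass (arcsDensity 3 α) w := by
        unfold mass
        apply integral_nonneg
        intro θ
        exact mul_nonneg (arcsDensity_01 α 3 θ).1 (sq_nonneg _)
      exact lt_of_le_of_ne this (Ne.symm hm)
    apply ENNReal.ofReal_le_ofReal
    rw [le_div_iff₀ hmpos]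
    exact hcore


/-! ## The trial space -/

/-- weights of the trial functions -/
noncomputable def kap (ε : ℝ) (n : ℕ) : ℝ := if n = 1 then 1 else -ε / n

/-- coefficients of the trial functions -/
noncomputable def coefA (ε a b c : ℝ) (n : ℕ) : ℂ :=
  if n = 0 then (a : ℂ) else (kap ε n : ℂ) * (b + c * (-I) ^ n)

/-- the basic profile -/
noncomputable def Gf (ε : ℝ) (K : ℕ) (θ : ℝ) : ℝ :=
  ∑ n ∈ Finset.range K, kap ε (n + 1) * Real.cos ((n + 1) * θ)

lemma circ_shift (θ : ℝ) : circ (θ - π / 2) = (-I) * circ θ := by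
  unfold circ
  have : ((θ - π / 2 : ℝ) : ℂ) * I = θ * I + (-π / 2 * I : ℂ) := by push_cast; ring
  rw [this, Complex.exp_add, Complex.exp_neg_pi_div_two_mul_I]
  ring

lemma circ_pow_re (n : ℕ) (θ : ℝ) : (circ θ ^ n).re = Real.cos (n * θ) := by
  have : circ θ ^ n = cexp (((n * θ : ℝ) : ℂ) * I) := by
    rw [circ_pow]; congr 1; push_cast; ring
  rw [this, exp_ofReal_mul_I_re]

lemma trig_coefA (ε a b c : ℝ) (K : ℕ) (θ : ℝ) :
    (trig (K + 1) (coefA ε a b c) θ).re = a + b * Gf ε K θ + c * Gf ε K (θ - π / 2) := by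
  unfold trig Gf
  rw [Finset.sum_range_succ']
  have h1 : ∀ n ∈ Finset.range K, coefA ε a b c (n + 1) * circ θ ^ (n + 1) =
      ((kap ε (n + 1) * b : ℝ) : ℂ) * circ θ ^ (n + 1) +
      ((kap ε (n + 1) * c : ℝ) : ℂ) * circ (θ - π / 2) ^ (n + 1) := by
    intro n _
    rw [circ_shift, mul_pow]
    simp only [coefA, Nat.succ_ne_zero, if_false]
    push_cast
    ring
  rw [Finset.sum_congr rfl h1, add_re, re_sum]
  have h2 : (coefA ε a b c 0 * circ θ ^ 0).re = a := by simp [coefA]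
  rw [h2]
  have h3 : ∀ n ∈ Finset.range K, (((kap ε (n + 1) * b : ℝ) : ℂ) * circ θ ^ (n + 1) +
      ((kap ε (n + 1) * c : ℝ) : ℂ) * circ (θ - π / 2) ^ (n + 1)).re =
      b * (kap ε (n + 1) * Real.cos ((n + 1) * θ)) +
      c * (kap ε (n + 1) * Real.cos ((n + 1) * (θ - π / 2))) := by
    intro n _
    rw [add_re, re_ofReal_mul, re_ofReal_mul, circ_pow_re, circ_pow_re]
    push_cast
    ring
  rw [Finset.sum_congr rfl h3, Finset.sum_add_distrib, ← Finset.mul_sum, ← Finset.mul_sum]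
  ring

/-- the quantities `Re (-i)^n` -/
noncomputable def sn (n : ℕ) : ℝ := ((-I) ^ n).re

lemma norm_sq_coef (b c : ℝ) (n : ℕ) :
    ‖(b : ℂ) + c * (-I) ^ n‖ ^ 2 = b ^ 2 + c ^ 2 + 2 * b * c * sn n := by
  rw [← normSq_eq_norm_sq, normSq_apply, sn]
  have h1 : ‖(-I : ℂ) ^ n‖ = 1 := by simp
  have h2 : ((-I : ℂ) ^ n).re ^ 2 + ((-I : ℂ) ^ n).im ^ 2 = 1 := by
    have := normSq_eq_norm_sq ((-I : ℂ) ^ n)
    rw [h1, normSq_apply] at this
    linarith
  simp only [add_re, add_im, ofReal_re, ofReal_im, re_ofReal_mul, im_ofReal_mul]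
  nlinarith

/-- the alternating sum is bounded -/
lemma state (K : ℕ) : (∑ k ∈ Finset.range K, sn (k + 2) = 0 ∧ (-I : ℂ) ^ (K + 2) = -1) ∨
    (∑ k ∈ Finset.range K, sn (k + 2) = -1 ∧ (-I : ℂ) ^ (K + 2) = I) ∨
    (∑ k ∈ Finset.range K, sn (k + 2) = -1 ∧ (-I : ℂ) ^ (K + 2) = 1) ∨
    (∑ k ∈ Finset.range K, sn (k + 2) = 0 ∧ (-I : ℂ) ^ (K + 2) = -I) := by
  induction K with
  | zero => left; simp
  | succ K ih =>
    have e : (-I : ℂ) ^ (K + 1 + 2) = (-I) ^ (K + 2) * (-I) := by rw [← pow_succ]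
    rw [Finset.sum_range_succ, e]
    rcases ih with ⟨h1, h2⟩ | ⟨h1, h2⟩ | ⟨h1, h2⟩ | ⟨h1, h2⟩
    · right; left
      rw [h1, sn, h2]; simp
    · right; right; left
      rw [h1, sn, h2]; simp
    · right; right; right
      rw [h1, sn, h2]; simp
    · left
      rw [h1, sn, h2]; simp

lemma Csum_bound (K : ℕ) : -1 ≤ ∑ k ∈ Finset.range K, sn (k + 2) ∧
    ∑ k ∈ Finset.range K, sn (k + 2) ≤ 0 := by
  rcases state K with ⟨h1, -⟩ | ⟨h1, -⟩ | ⟨h1, -⟩ | ⟨h1, -⟩ <;> rw [h1] <;> norm_num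

lemma alt_bound_aux (K : ℕ) :
    -(1 / 2 - 1 / ((K : ℝ) + 2)) ≤ (∑ k ∈ Finset.range K, sn (k + 2) / ((k : ℝ) + 2)) -
      (∑ k ∈ Finset.range K, sn (k + 2)) / ((K : ℝ) + 2) ∧
    (∑ k ∈ Finset.range K, sn (k + 2) / ((k : ℝ) + 2)) -
      (∑ k ∈ Finset.range K, sn (k + 2)) / ((K : ℝ) + 2) ≤ 0 := by
  induction K with
  | zero => norm_num
  | succ K ih =>
    have hC := Csum_bound (K + 1)
    have e : (∑ k ∈ Finset.range (K + 1), sn (k + 2) / ((k : ℝ) + 2)) -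
      (∑ k ∈ Finset.range (K + 1), sn (k + 2)) / (((K + 1 : ℕ) : ℝ) + 2) =
      ((∑ k ∈ Finset.range K, sn (k + 2) / ((k : ℝ) + 2)) -
      (∑ k ∈ Finset.range K, sn (k + 2)) / ((K : ℝ) + 2)) +
      (∑ k ∈ Finset.range (K + 1), sn (k + 2)) * (1 / ((K : ℝ) + 2) - 1 / ((K : ℝ) + 3)) := by
      rw [Finset.sum_range_succ, Finset.sum_range_succ]
      push_cast
      have h1 : (K : ℝ) + 2 ≠ 0 := by positivity
      have h2 : (K : ℝ) + 3 ≠ 0 := by positivity
      have h3 : (K : ℝ) + 1 + 2 ≠ 0 := by positivity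
      field_simp
      ring
    have hd : 0 ≤ 1 / ((K : ℝ) + 2) - 1 / ((K : ℝ) + 3) := by
      have : 1 / ((K : ℝ) + 3) ≤ 1 / ((K : ℝ) + 2) :=
        one_div_le_one_div_of_le (by positivity) (by linarith)
      linarith
    rw [e]
    have e2 : ((K + 1 : ℕ) : ℝ) + 2 = (K : ℝ) + 3 := by push_cast; ring
    rw [e2]
    constructor
    · nlinarith [ih.1, hC.1]
    · nlinarith [ih.2, hC.2]

lemma alt_bound (K : ℕ) : |∑ k ∈ Finset.range K, sn (k + 2) / ((k : ℝ) + 2)| ≤ 1 := by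
  have h1 := alt_bound_aux K
  have h2 := Csum_bound K
  have h3 : (0:ℝ) < 1 / ((K : ℝ) + 2) := by positivity
  have h5 : (∑ k ∈ Finset.range K, sn (k + 2)) / ((K : ℝ) + 2) =
      (∑ k ∈ Finset.range K, sn (k + 2)) * (1 / ((K : ℝ) + 2)) := by ring
  rw [h5] at h1
  rw [abs_le]
  constructor
  · nlinarith [h1.1, h2.1]
  · nlinarith [h1.2, h2.2]


/-- Decomposition of `G`. -/
lemma Gf_eq (ε : ℝ) (K : ℕ) (θ : ℝ) :
    Gf ε (K + 1) θ = Real.cos θ -
      ε * ∑ k ∈ Finset.range K, Real.cos (((k : ℝ) + 2) * θ) / ((k : ℝ) + 2) := by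
  unfold Gf
  rw [Finset.sum_range_succ', Finset.mul_sum]
  have h : ∀ k ∈ Finset.range K, kap ε (k + 1 + 1) * Real.cos (((k + 1 : ℕ) + 1 : ℝ) * θ) =
      -(ε * (Real.cos (((k : ℝ) + 2) * θ) / ((k : ℝ) + 2))) := by
    intro k _
    have : k + 1 + 1 ≠ 1 := by omega
    rw [kap, if_neg this]
    push_cast
    have e : (k : ℝ) + 1 + 1 = k + 2 := by ring
    rw [e]
    ring
  rw [Finset.sum_congr rfl h, Finset.sum_neg_distrib]
  simp [kap]
  ring

lemma Hs_succ_eq (K : ℕ) : ∑ k ∈ Finset.range K, 1 / ((k : ℝ) + 2) = Hs (K + 1) - 1 := by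
  unfold Hs
  rw [Finset.sum_range_succ' (fun i : ℕ => 1 / ((i : ℝ) + 1)) K]
  have : ∀ k ∈ Finset.range K, 1 / (((k + 1 : ℕ) : ℝ) + 1) = 1 / ((k : ℝ) + 2) := by
    intro k _
    push_cast
    have e : (k : ℝ) + 1 + 1 = k + 2 := by ring
    rw [e]
  rw [Finset.sum_congr rfl this]
  simp

/-- Bounds of the profile near the gap. -/
lemma Gf_near (ε : ℝ) (hε : 0 < ε) (K : ℕ) (hK : ((K : ℝ) + 1) * ε ≤ 1) (hεs : ε ≤ 1 / 100)
    (hH : ε * Hs (K + 1) ≤ 1 / 10) (θ : ℝ) (hθ : |θ| ≤ π * ε / 2) :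
    |Gf ε (K + 1) θ| ≤ 1 - ε * Hs (K + 1) + 3 * ε := by
  rw [Gf_eq]
  have hπ4 := Real.pi_lt_d2
  have hπ0 := Real.pi_pos
  set S := ∑ k ∈ Finset.range K, Real.cos (((k : ℝ) + 2) * θ) / ((k : ℝ) + 2) with hS
  have hθ2 : θ ^ 2 ≤ (π * ε / 2) ^ 2 := by
    rw [← sq_abs θ]
    exact pow_le_pow_left₀ (abs_nonneg θ) hθ 2
  have hub : S ≤ Hs (K + 1) - 1 := by
    rw [← Hs_succ_eq]
    refine Finset.sum_le_sum fun k _ => ?_
    have := Real.cos_le_one (((k : ℝ) + 2) * θ)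
    gcongr
  have hlb : Hs (K + 1) - 1 - 5 / 4 ≤ S := by
    have h1 : ∑ k ∈ Finset.range K, (1 / ((k : ℝ) + 2) - ((k : ℝ) + 2) * θ ^ 2 / 2) ≤ S := by
      refine Finset.sum_le_sum fun k _ => ?_
      have h2 := Real.one_sub_sq_div_two_le_cos (x := ((k : ℝ) + 2) * θ)
      have h3 : (0:ℝ) < (k : ℝ) + 2 := by positivity
      rw [le_div_iff₀ h3]
      have : (1 / ((k : ℝ) + 2) - ((k : ℝ) + 2) * θ ^ 2 / 2) * ((k : ℝ) + 2) =
          1 - (((k : ℝ) + 2) * θ) ^ 2 / 2 := by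
        field_simp
      rw [this]
      exact h2
    rw [Finset.sum_sub_distrib, Hs_succ_eq] at h1
    have h4 : ∑ k ∈ Finset.range K, ((k : ℝ) + 2) * θ ^ 2 / 2 ≤ 5 / 4 := by
      have h5 : ∑ k ∈ Finset.range K, ((k : ℝ) + 2) * θ ^ 2 / 2 ≤
          ∑ _k ∈ Finset.range K, ((K : ℝ) + 1) * θ ^ 2 / 2 := by
        refine Finset.sum_le_sum fun k hk => ?_
        have : (k : ℝ) + 1 ≤ K := by exact_mod_cast Finset.mem_range.mp hk
        have h6 : (k : ℝ) + 2 ≤ K + 1 := by linarith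
        gcongr
      rw [Finset.sum_const, Finset.card_range, nsmul_eq_mul] at h5
      have h7 : (K : ℝ) * (((K : ℝ) + 1) * θ ^ 2 / 2) ≤ 5 / 4 := by
        have h8 : (K : ℝ) * (((K : ℝ) + 1) * θ ^ 2 / 2) ≤ ((K : ℝ) + 1) * (((K : ℝ) + 1) * (π * ε / 2) ^ 2 / 2) := by
          have : (0:ℝ) ≤ K := Nat.cast_nonneg K
          gcongr
          linarith
        have h9 : ((K : ℝ) + 1) * (((K : ℝ) + 1) * (π * ε / 2) ^ 2 / 2) = (((K : ℝ) + 1) * ε) ^ 2 * (π ^ 2 / 8) := by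
          ring
        have h10 : (((K : ℝ) + 1) * ε) ^ 2 ≤ 1 := by
          have : 0 ≤ ((K : ℝ) + 1) * ε := by positivity
          nlinarith
        have h11 : π ^ 2 / 8 ≤ 5 / 4 := by nlinarith
        have h12 : 0 ≤ π ^ 2 / 8 := by positivity
        nlinarith
      linarith
    linarith
  have hcos1 := Real.cos_le_one θ
  have hcos2 := Real.one_sub_sq_div_two_le_cos (x := θ)
  have hθ3 : θ ^ 2 ≤ 3 * ε ^ 2 := by
    have : (π * ε / 2) ^ 2 = π ^ 2 / 4 * ε ^ 2 := by ring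
    rw [this] at hθ2
    have : π ^ 2 / 4 ≤ 3 := by nlinarith
    nlinarith [sq_nonneg ε]
  have hub2 := mul_le_mul_of_nonneg_left hub hε.le
  have hlb2 := mul_le_mul_of_nonneg_left hlb hε.le
  rw [abs_le]
  constructor
  · nlinarith
  · nlinarith

/-- Bounds of the profile a quarter turn away from the gap. -/
lemma Gf_far (ε : ℝ) (hε : 0 < ε) (K : ℕ) (hK : ((K : ℝ) + 1) * ε ≤ 1) (θ : ℝ)
    (hθ : |θ| ≤ π * ε / 2) : |Gf ε (K + 1) (θ - π / 2)| ≤ 5 * ε := by
  rw [Gf_eq]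
  have hπ4 := Real.pi_lt_d2
  have hπ0 := Real.pi_pos
  set S := ∑ k ∈ Finset.range K, Real.cos (((k : ℝ) + 2) * (θ - π / 2)) / ((k : ℝ) + 2) with hS
  have h1 : |S - ∑ k ∈ Finset.range K, sn (k + 2) / ((k : ℝ) + 2)| ≤ K * |θ| := by
    rw [hS, ← Finset.sum_sub_distrib]
    refine (Finset.abs_sum_le_sum_abs _ _).trans ?_
    have : ∀ k ∈ Finset.range K, |Real.cos (((k : ℝ) + 2) * (θ - π / 2)) / ((k : ℝ) + 2) -
        sn (k + 2) / ((k : ℝ) + 2)| ≤ |θ| := by
      intro k _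
      have h3 : (0:ℝ) < (k : ℝ) + 2 := by positivity
      have h4 : sn (k + 2) = Real.cos (((k : ℝ) + 2) * (0 - π / 2)) := by
        have h5 : circ (0 - π / 2) = -I := by
          rw [circ_shift]
          simp [circ]
        rw [sn, ← h5, circ_pow_re]
        push_cast
        rfl
      rw [← sub_div, abs_div, abs_of_pos h3, div_le_iff₀ h3, h4]
      have h6 := Real.abs_cos_sub_cos_le (((k : ℝ) + 2) * (θ - π / 2)) (((k : ℝ) + 2) * (0 - π / 2))
      refine h6.trans (le_of_eq ?_)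
      have : ((k : ℝ) + 2) * (θ - π / 2) - ((k : ℝ) + 2) * (0 - π / 2) = ((k : ℝ) + 2) * θ := by ring
      rw [this, abs_mul, abs_of_pos h3]
      ring
    refine (Finset.sum_le_sum this).trans ?_
    rw [Finset.sum_const, Finset.card_range, nsmul_eq_mul]
  have h2 := alt_bound K
  have h3 : |S| ≤ 1 + K * |θ| := by
    have : S = (S - ∑ k ∈ Finset.range K, sn (k + 2) / ((k : ℝ) + 2)) +
        ∑ k ∈ Finset.range K, sn (k + 2) / ((k : ℝ) + 2) := by ring
    rw [this]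
    refine (abs_add_le _ _).trans ?_
    linarith
  have h4 : (K : ℝ) * |θ| ≤ π / 2 := by
    have h5 : (K : ℝ) * |θ| ≤ ((K : ℝ) + 1) * (π * ε / 2) := by
      have : (0:ℝ) ≤ K := Nat.cast_nonneg K
      have h6 := abs_nonneg θ
      nlinarith
    have h7 : ((K : ℝ) + 1) * (π * ε / 2) = (((K : ℝ) + 1) * ε) * (π / 2) := by ring
    nlinarith
  have h8 : |Real.cos (θ - π / 2)| ≤ π * ε / 2 := by
    rw [Real.cos_sub_pi_div_two]
    exact Real.abs_sin_le_abs.trans hθ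
  have h9 : |ε * S| ≤ ε * (1 + π / 2) := by
    rw [abs_mul, abs_of_pos hε]
    have : |S| ≤ 1 + π / 2 := by linarith
    gcongr
  refine (abs_sub _ _).trans ?_
  nlinarith

lemma Gf_even (ε : ℝ) (K : ℕ) (θ : ℝ) : Gf ε K (-θ) = Gf ε K θ := by
  unfold Gf
  refine Finset.sum_congr rfl fun n _ => ?_
  rw [mul_neg, Real.cos_neg]

lemma Gf_far' (ε : ℝ) (hε : 0 < ε) (K : ℕ) (hK : ((K : ℝ) + 1) * ε ≤ 1) (θ : ℝ)
    (hθ : |θ - π / 2| ≤ π * ε / 2) : |Gf ε (K + 1) θ| ≤ 5 * ε := by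
  have h := Gf_far ε hε K hK (-(θ - π / 2)) (by rwa [abs_neg])
  have e : -(θ - π / 2) - π / 2 = -θ := by ring
  rwa [e, Gf_even] at h

/-- energy of the trial functions -/
lemma energy_trial (ε a b c : ℝ) (K : ℕ) :
    energy (ofPoly (poly (K + 1) (coefA ε a b c))) ≤
      π * ((b ^ 2 + c ^ 2) * (1 + ε ^ 2 * Hs (K + 1))) := by
  rw [energy_ofPoly']
  apply mul_le_mul_of_nonneg_left _ Real.pi_pos.le
  rw [Finset.sum_range_succ', Finset.sum_range_succ']
  have h0 : ((0 : ℕ) : ℝ) * ‖coefA ε a b c 0‖ ^ 2 = 0 := by simp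
  have h1 : ((0 + 1 : ℕ) : ℝ) * ‖coefA ε a b c (0 + 1)‖ ^ 2 = b ^ 2 + c ^ 2 := by
    have : coefA ε a b c (0 + 1) = b + c * (-I) ^ 1 := by simp [coefA, kap]
    rw [this, norm_sq_coef]
    simp [sn]
  have h2 : ∀ k ∈ Finset.range K, ((k + 1 + 1 : ℕ) : ℝ) * ‖coefA ε a b c (k + 1 + 1)‖ ^ 2 =
      ε ^ 2 * ((b ^ 2 + c ^ 2) * (1 / ((k : ℝ) + 2)) + 2 * b * c * (sn (k + 2) / ((k : ℝ) + 2))) := by
    intro k _
    have hk : coefA ε a b c (k + 1 + 1) = ((-ε / ((k : ℝ) + 2) : ℝ) : ℂ) * (b + c * (-I) ^ (k + 2)) := by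
      simp only [coefA, kap]
      rw [if_neg (by omega), if_neg (by omega)]
      congr 3
      push_cast; ring
    rw [hk, norm_mul, mul_pow, norm_sq_coef, Complex.norm_real, Real.norm_eq_abs, sq_abs]
    have h3 : (k : ℝ) + 2 ≠ 0 := by positivity
    push_cast
    have h4 : (k : ℝ) + 1 + 1 = k + 2 := by ring
    rw [h4]
    field_simp
  rw [Finset.sum_congr rfl h2, h0, h1, ← Finset.mul_sum, Finset.sum_add_distrib, ← Finset.mul_sum,
    ← Finset.mul_sum, Hs_succ_eq]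
  have h5 := alt_bound K
  set S := ∑ k ∈ Finset.range K, sn (k + 2) / ((k : ℝ) + 2)
  have h6 : 2 * b * c * S ≤ b ^ 2 + c ^ 2 := by
    have h7 : 2 * b * c * S ≤ |2 * b * c * S| := le_abs_self _
    have h8 : |2 * b * c * S| = (2 * |b| * |c|) * |S| := by
      rw [abs_mul, abs_mul, abs_mul]; norm_num
    have h9 : 2 * |b| * |c| ≤ b ^ 2 + c ^ 2 := by
      have := two_mul_le_add_sq |b| |c|
      rwa [sq_abs, sq_abs] at this
    have h10 : 0 ≤ 2 * |b| * |c| := by positivity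
    nlinarith [abs_nonneg S]
  nlinarith [sq_nonneg ε]

/-- the `L²(Γ)` norm of the trial functions -/
lemma norm_trial (ε a b c : ℝ) (K : ℕ) :
    2 * π * a ^ 2 + π * (b ^ 2 + c ^ 2) ≤
      ∫ θ, reP (poly (K + 1) (coefA ε a b c)) (circ θ) ^ 2 ∂muG := by
  have e : ∀ θ, reP (poly (K + 1) (coefA ε a b c)) (circ θ) ^ 2 =
      (trig (K + 1 + 1) (coefA ε a b c) θ).re * (trig (K + 1 + 1) (coefA ε a b c) θ).re := by
    intro θ
    rw [reP_poly]; ring
  simp only [e]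
  rw [integral_re_trig, Finset.sum_range_succ', Finset.sum_range_succ']
  have hn : ∀ z : ℂ, (z * (starRingEnd ℂ) z).re = ‖z‖ ^ 2 := by
    intro z; rw [mul_conj, normSq_eq_norm_sq, ofReal_re]
  have h0 : coefA ε a b c 0 = a := by simp [coefA]
  have h1 : coefA ε a b c (0 + 1) = b + c * (-I) ^ 1 := by simp [coefA, kap]
  rw [hn, hn, h0, h1, norm_sq_coef]
  have h2 : sn 1 = 0 := by simp [sn]
  have h3 : ((a : ℂ) * a).re = a ^ 2 := by
    rw [← ofReal_mul, ofReal_re]; ring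
  have h4 : ‖(a : ℂ)‖ ^ 2 = a ^ 2 := by
    rw [Complex.norm_real, Real.norm_eq_abs, sq_abs]
  rw [h2, h3, h4]
  have h5 : 0 ≤ ∑ k ∈ Finset.range K, (coefA ε a b c (k + 1 + 1) *
      (starRingEnd ℂ) (coefA ε a b c (k + 1 + 1))).re := by
    refine Finset.sum_nonneg fun k _ => ?_
    rw [hn]; positivity
  nlinarith [Real.pi_pos, mul_nonneg Real.pi_pos.le h5]


/-! ## The competitor: two gaps a quarter turn apart -/

lemma measurableSet_gaps (ε : ℝ) : MeasurableSet (gaps ε) := by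
  have : gaps ε = ⋃ m : ℤ, ({θ : ℝ | |θ - 2 * π * m| ≤ π * ε / 2} ∪
      {θ : ℝ | |θ - π / 2 - 2 * π * m| ≤ π * ε / 2}) := by
    ext θ; simp [gaps]
  rw [this]
  exact MeasurableSet.iUnion fun l =>
    (isClosed_le (by fun_prop) continuous_const).measurableSet.union
      (isClosed_le (by fun_prop) continuous_const).measurableSet

lemma measurable_gapDensity (ε : ℝ) : Measurable (gapDensity ε) :=
  measurable_const.indicator (measurableSet_gaps ε).compl

lemma gapDensity_01 (ε θ : ℝ) : 0 ≤ gapDensity ε θ ∧ gapDensity ε θ ≤ 1 := by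
  unfold gapDensity
  by_cases h : θ ∈ (gaps ε)ᶜ
  · rw [indicator_of_mem h]; norm_num
  · rw [indicator_of_notMem h]; norm_num

lemma periodic_gaps (ε θ : ℝ) : θ + 2 * π ∈ gaps ε ↔ θ ∈ gaps ε := by
  constructor
  · rintro ⟨m, hm⟩
    refine ⟨m - 1, ?_⟩
    have e1 : θ - 2 * π * ((m - 1 : ℤ) : ℝ) = θ + 2 * π - 2 * π * m := by push_cast; ring
    have e2 : θ - π / 2 - 2 * π * ((m - 1 : ℤ) : ℝ) = θ + 2 * π - π / 2 - 2 * π * m := by
      push_cast; ring
    rw [e1, e2]; exact hm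
  · rintro ⟨m, hm⟩
    refine ⟨m + 1, ?_⟩
    have e1 : θ + 2 * π - 2 * π * ((m + 1 : ℤ) : ℝ) = θ - 2 * π * m := by push_cast; ring
    have e2 : θ + 2 * π - π / 2 - 2 * π * ((m + 1 : ℤ) : ℝ) = θ - π / 2 - 2 * π * m := by
      push_cast; ring
    rw [e1, e2]; exact hm

lemma periodic_gapDensity (ε : ℝ) : Function.Periodic (gapDensity ε) (2 * π) := by
  intro θ
  unfold gapDensity
  by_cases h : θ ∈ gaps ε
  · have h' := (periodic_gaps ε θ).mpr h
    have hn : θ ∉ (gaps ε)ᶜ := fun hh => hh h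
    have hn' : θ + 2 * π ∉ (gaps ε)ᶜ := fun hh => hh h'
    rw [indicator_of_notMem hn, indicator_of_notMem hn']
  · have h' : θ + 2 * π ∉ gaps ε := fun hh => h ((periodic_gaps ε θ).mp hh)
    rw [indicator_of_mem (show θ ∈ (gaps ε)ᶜ from h), indicator_of_mem (show θ + 2 * π ∈ (gaps ε)ᶜ from h')]

lemma gaps_inter (ε : ℝ) (h0 : 0 < ε) (h1 : ε ≤ 1 / 2) :
    gaps ε ∩ Ioc (-π) π = Icc (0 - π * ε / 2) (0 + π * ε / 2) ∪
      Icc (π / 2 - π * ε / 2) (π / 2 + π * ε / 2) := by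
  have hπ := Real.pi_pos
  have ha : π * ε ≤ π / 2 := by nlinarith
  have ha0 : 0 < π * ε := by positivity
  ext θ
  simp only [gaps, mem_inter_iff, mem_ofPred_eq, mem_union, mem_Icc, mem_Ioc]
  constructor
  · rintro ⟨⟨m, hm⟩, hθ1, hθ2⟩
    rw [abs_le, abs_le] at hm
    have hm1 : (m : ℝ) < 1 := by
      by_contra hcon
      push Not at hcon
      have : 2 * π * 1 ≤ 2 * π * m := by gcongr
      rcases hm with hm | hm <;> linarith [hm.1]
    have hm2 : (-1 : ℝ) < m := by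
      by_contra hcon
      push Not at hcon
      have : 2 * π * m ≤ 2 * π * (-1) := by gcongr
      rcases hm with hm | hm <;> linarith [hm.2]
    have hm1' : m < 1 := by exact_mod_cast hm1
    have hm2' : -1 < m := by exact_mod_cast hm2
    have : m = 0 := by omega
    subst this
    push_cast at hm
    rcases hm with hm | hm
    · left; constructor <;> linarith [hm.1, hm.2]
    · right; constructor <;> linarith [hm.1, hm.2]
  · rintro (⟨h2, h3⟩ | ⟨h2, h3⟩)
    · refine ⟨⟨0, Or.inl ?_⟩, by linarith, by linarith⟩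
      rw [abs_le]; push_cast
      constructor <;> linarith
    · refine ⟨⟨0, Or.inr ?_⟩, by linarith, by linarith⟩
      rw [abs_le]; push_cast
      constructor <;> linarith

lemma integral_gaps (ε : ℝ) (h0 : 0 < ε) (h1 : ε < 1 / 2) (g : ℝ → ℝ) (hg : Continuous g) :
    ∫ θ, gapDensity ε θ * g θ ∂muG = (∫ θ, g θ ∂muG) -
      ((∫ θ in (0 - π * ε / 2)..(0 + π * ε / 2), g θ) +
      ∫ θ in (π / 2 - π * ε / 2)..(π / 2 + π * ε / 2), g θ) := by
  have hπ := Real.pi_pos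
  have ha : π * ε < π / 2 := by nlinarith
  have ha0 : 0 < π * ε := by positivity
  have e1 : ∀ θ, gapDensity ε θ * g θ = g θ - (gaps ε).indicator g θ := by
    intro θ
    by_cases h : θ ∈ gaps ε
    · have : θ ∉ (gaps ε)ᶜ := fun hh => hh h
      simp [gapDensity, h]
    · have : θ ∈ (gaps ε)ᶜ := h
      simp [gapDensity, h]
  simp only [e1]
  have hgi : Integrable g muG := integrable_muG_R hg
  rw [integral_sub hgi (hgi.indicator (measurableSet_gaps ε))]
  congr 1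
  unfold muG
  rw [setIntegral_indicator (measurableSet_gaps ε), inter_comm, gaps_inter ε h0 h1.le]
  have hint : ∀ a b : ℝ, IntegrableOn g (Icc a b) := fun a b =>
    hg.continuousOn.integrableOn_compact isCompact_Icc
  rw [setIntegral_union]
  · rw [intervalIntegral.integral_of_le (by linarith), intervalIntegral.integral_of_le (by linarith),
      integral_Icc_eq_integral_Ioc, integral_Icc_eq_integral_Ioc]
  · rw [Set.disjoint_left]
    rintro θ ⟨_, h3⟩ ⟨h4, _⟩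
    linarith
  · exact measurableSet_Icc
  · exact hint _ _
  · exact hint _ _


lemma near_bound (ε : ℝ) (hε : 0 < ε) (hεs : ε ≤ 1 / 100) (A g0 g1 a b c : ℝ) (hA1 : A ≤ 1)
    (h0 : |g0| ≤ A) (h1 : |g1| ≤ 5 * ε) :
    (a + b * g0 + c * g1) ^ 2 ≤ a ^ 2 + 2 * |a| * (|b| + |c|) + b ^ 2 * A ^ 2 +
      5 * ε * (b ^ 2 + c ^ 2) + 25 * ε ^ 2 * c ^ 2 := by
  have hg0 : g0 ^ 2 ≤ A ^ 2 := sq_le_sq' (by linarith [neg_abs_le g0]) (by linarith [le_abs_self g0])
  have hg1 : g1 ^ 2 ≤ (5 * ε) ^ 2 :=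
    sq_le_sq' (by linarith [neg_abs_le g1]) (by linarith [le_abs_self g1])
  have k1 : a * b * g0 ≤ |a| * |b| := by
    calc a * b * g0 ≤ |a * b * g0| := le_abs_self _
      _ = |a| * |b| * |g0| := by rw [abs_mul, abs_mul]
      _ ≤ |a| * |b| * 1 := by gcongr; linarith
      _ = _ := by ring
  have k2 : a * c * g1 ≤ |a| * |c| := by
    calc a * c * g1 ≤ |a * c * g1| := le_abs_self _
      _ = |a| * |c| * |g1| := by rw [abs_mul, abs_mul]
      _ ≤ |a| * |c| * 1 := by gcongr; linarith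
      _ = _ := by ring
  have k3 : b * c * (g0 * g1) ≤ |b| * |c| * (5 * ε) := by
    calc b * c * (g0 * g1) ≤ |b * c * (g0 * g1)| := le_abs_self _
      _ = |b| * |c| * (|g0| * |g1|) := by rw [abs_mul, abs_mul, abs_mul]
      _ ≤ |b| * |c| * (1 * (5 * ε)) := by
        gcongr
        linarith
      _ = _ := by ring
  have k4 : 2 * (|b| * |c|) ≤ b ^ 2 + c ^ 2 := by
    have := two_mul_le_add_sq |b| |c|
    rw [sq_abs, sq_abs] at this
    linarith
  have k5 : b ^ 2 * g0 ^ 2 ≤ b ^ 2 * A ^ 2 := mul_le_mul_of_nonneg_left hg0 (sq_nonneg _)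
  have k6 : c ^ 2 * g1 ^ 2 ≤ c ^ 2 * (5 * ε) ^ 2 := mul_le_mul_of_nonneg_left hg1 (sq_nonneg _)
  have k7 : 2 * (|b| * |c| * (5 * ε)) ≤ 5 * ε * (b ^ 2 + c ^ 2) := by nlinarith
  nlinarith

lemma mass_trial (ε a b c : ℝ) (K : ℕ) (hε : 0 < ε) (hεs : ε ≤ 1 / 100)
    (hK : ((K : ℝ) + 1) * ε ≤ 1) (hH3 : 3 ≤ Hs (K + 1)) (hH : ε * Hs (K + 1) ^ 2 ≤ 1) :
    π * (a ^ 2 * (1 - 2 * ε) +
      (b ^ 2 + c ^ 2) * (1 - ε + 2 * ε ^ 2 * Hs (K + 1) - 26 * ε ^ 2)) ≤
      mass (gapDensity ε) (ofPoly (poly (K + 1) (coefA ε a b c))) := by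
  have hπ := Real.pi_pos
  set H := Hs (K + 1) with hHdef
  have hx : ε * H ≤ 1 / 10 := by
    have : (ε * H) ^ 2 ≤ (1 / 10) ^ 2 := by nlinarith
    exact le_of_sq_le_sq this (by norm_num) 
  rw [mass_ofPoly, integral_gaps ε hε (by linarith)
    (fun θ => reP (poly (K + 1) (coefA ε a b c)) (circ θ) ^ 2) ((continuous_reP_circ _).pow 2)]
  have hn := norm_trial ε a b c K
  have hu : ∀ θ, reP (poly (K + 1) (coefA ε a b c)) (circ θ) =
      a + b * Gf ε (K + 1) θ + c * Gf ε (K + 1) (θ - π / 2) := by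
    intro θ; rw [reP_poly, trig_coefA]
  set A := 1 - ε * H + 3 * ε with hA
  have hA1 : A ≤ 1 := by rw [hA]; nlinarith
  have hcont : Continuous (fun θ => reP (poly (K + 1) (coefA ε a b c)) (circ θ) ^ 2) :=
    (continuous_reP_circ _).pow 2
  have hB1 : (∫ θ in (0 - π * ε / 2)..(0 + π * ε / 2), reP (poly (K + 1) (coefA ε a b c)) (circ θ) ^ 2) ≤
      π * ε * (a ^ 2 + 2 * |a| * (|b| + |c|) + b ^ 2 * A ^ 2 +
      5 * ε * (b ^ 2 + c ^ 2) + 25 * ε ^ 2 * c ^ 2) := by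
    have : ∫ θ in (0 - π * ε / 2)..(0 + π * ε / 2), (a ^ 2 + 2 * |a| * (|b| + |c|) + b ^ 2 * A ^ 2 +
      5 * ε * (b ^ 2 + c ^ 2) + 25 * ε ^ 2 * c ^ 2) = π * ε * (a ^ 2 + 2 * |a| * (|b| + |c|) + b ^ 2 * A ^ 2 +
      5 * ε * (b ^ 2 + c ^ 2) + 25 * ε ^ 2 * c ^ 2) := by
      rw [intervalIntegral.integral_const, smul_eq_mul]; ring
    rw [← this]
    apply intervalIntegral.integral_mono_on
    · nlinarith
    · exact hcont.intervalIntegrable _ _
    · exact continuous_const.intervalIntegrable _ _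
    · intro θ hθ
      have hθ' : |θ| ≤ π * ε / 2 := by
        rw [abs_le]; constructor <;> linarith [hθ.1, hθ.2]
      rw [hu]
      exact near_bound ε hε hεs A _ _ a b c hA1 (Gf_near ε hε K hK hεs hx θ hθ')
        (Gf_far ε hε K hK θ hθ')
  have hB2 : (∫ θ in (π / 2 - π * ε / 2)..(π / 2 + π * ε / 2), reP (poly (K + 1) (coefA ε a b c)) (circ θ) ^ 2) ≤
      π * ε * (a ^ 2 + 2 * |a| * (|c| + |b|) + c ^ 2 * A ^ 2 +
      5 * ε * (c ^ 2 + b ^ 2) + 25 * ε ^ 2 * b ^ 2) := by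
    have : ∫ θ in (π / 2 - π * ε / 2)..(π / 2 + π * ε / 2), (a ^ 2 + 2 * |a| * (|c| + |b|) + c ^ 2 * A ^ 2 +
      5 * ε * (c ^ 2 + b ^ 2) + 25 * ε ^ 2 * b ^ 2) = π * ε * (a ^ 2 + 2 * |a| * (|c| + |b|) + c ^ 2 * A ^ 2 +
      5 * ε * (c ^ 2 + b ^ 2) + 25 * ε ^ 2 * b ^ 2) := by
      rw [intervalIntegral.integral_const, smul_eq_mul]; ring
    rw [← this]
    apply intervalIntegral.integral_mono_on
    · nlinarith
    · exact hcont.intervalIntegrable _ _
    · exact continuous_const.intervalIntegrable _ _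
    · intro θ hθ
      have hθ' : |θ - π / 2| ≤ π * ε / 2 := by
        rw [abs_le]; constructor <;> linarith [hθ.1, hθ.2]
      rw [hu]
      have e : a + b * Gf ε (K + 1) θ + c * Gf ε (K + 1) (θ - π / 2) =
        a + c * Gf ε (K + 1) (θ - π / 2) + b * Gf ε (K + 1) θ := by ring
      rw [e]
      exact near_bound ε hε hεs A _ _ a c b hA1 (Gf_near ε hε K hK hεs hx (θ - π / 2) hθ')
        (Gf_far' ε hε K hK θ hθ')
  have hcross : 4 * ε * (|a| * (|b| + |c|)) ≤ a ^ 2 + 8 * ε ^ 2 * (b ^ 2 + c ^ 2) := by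
    have h1 : 0 ≤ (|a| - 2 * ε * (|b| + |c|)) ^ 2 := sq_nonneg _
    have h2 : (|b| + |c|) ^ 2 ≤ 2 * (b ^ 2 + c ^ 2) := by
      nlinarith [sq_abs b, sq_abs c, sq_nonneg (|b| - |c|)]
    have h3 : |a| ^ 2 = a ^ 2 := sq_abs a
    nlinarith [sq_nonneg ε, mul_nonneg (sq_nonneg ε) (sub_nonneg.mpr h2)]
  have hA2 : ε * A ^ 2 ≤ ε - 2 * ε ^ 2 * H + 7 * ε ^ 2 := by
    have hA3 : A ^ 2 ≤ 1 - 2 * ε * H + 6 * ε + (ε * H) ^ 2 := by
      rw [hA]
      nlinarith [mul_pos hε hε]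
    have : ε * A ^ 2 ≤ ε * (1 - 2 * ε * H + 6 * ε + (ε * H) ^ 2) :=
      mul_le_mul_of_nonneg_left hA3 hε.le
    have h5 : ε * (ε * H) ^ 2 ≤ ε ^ 2 := by
      have : ε * (ε * H) ^ 2 = ε ^ 2 * (ε * H ^ 2) := by ring
      rw [this]
      nlinarith [mul_pos hε hε]
    nlinarith
  have hbc : 0 ≤ b ^ 2 + c ^ 2 := by positivity
  have hfin : a ^ 2 * (1 - 2 * ε) + (b ^ 2 + c ^ 2) * (1 - ε + 2 * ε ^ 2 * H - 26 * ε ^ 2) ≤
      2 * a ^ 2 + (b ^ 2 + c ^ 2) - ε * (2 * a ^ 2 + 4 * |a| * (|b| + |c|) + (b ^ 2 + c ^ 2) * A ^ 2 +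
        10 * ε * (b ^ 2 + c ^ 2) + 25 * ε ^ 2 * (b ^ 2 + c ^ 2)) := by
    have h6 : (b ^ 2 + c ^ 2) * (ε * A ^ 2) ≤ (b ^ 2 + c ^ 2) * (ε - 2 * ε ^ 2 * H + 7 * ε ^ 2) :=
      mul_le_mul_of_nonneg_left hA2 hbc
    have h7 : 25 * ε ^ 3 * (b ^ 2 + c ^ 2) ≤ ε ^ 2 * (b ^ 2 + c ^ 2) := by
      have : 25 * ε ^ 3 ≤ ε ^ 2 := by nlinarith [mul_pos hε hε]
      exact mul_le_mul_of_nonneg_right this hbc
    nlinarith
  have := mul_le_mul_of_nonneg_left hfin hπ.le
  nlinarith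


lemma mass_zero (ρ : ℝ → ℝ) : mass ρ 0 = 0 := by
  unfold mass
  have : ∫ θ, ρ θ * ((0 : H1).1.2.2.2) θ ^ 2 ∂muG = ∫ θ, (0 : ℝ) ∂muG := by
    apply integral_congr_ae
    filter_upwards [Lp.coeFn_zero ℝ 2 muG] with z hz
    show ρ z * ((0 : Lp ℝ 2 muG) z) ^ 2 = 0
    rw [hz]; simp
  rw [this]; simp

lemma coefA_add (ε a b c a' b' c' : ℝ) (n : ℕ) :
    coefA ε (a + a') (b + b') (c + c') n = coefA ε a b c n + coefA ε a' b' c' n := by
  unfold coefA
  split_ifs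
  · push_cast; ring
  · push_cast; ring

lemma coefA_smul (ε t a b c : ℝ) (n : ℕ) :
    coefA ε (t * a) (t * b) (t * c) n = (t : ℂ) * coefA ε a b c n := by
  unfold coefA
  split_ifs
  · push_cast; ring
  · push_cast; ring

/-- the map from `ℝ³` onto the trial space -/
noncomputable def trialMap (ε : ℝ) (N : ℕ) : ℝ × ℝ × ℝ →ₗ[ℝ] ℂ[X] where
  toFun v := poly N (coefA ε v.1 v.2.1 v.2.2)
  map_add' v w := by
    unfold poly
    simp only [Prod.fst_add, Prod.snd_add, coefA_add, C_add, add_mul, Finset.sum_add_distrib]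
  map_smul' t v := by
    unfold poly
    simp only [Prod.smul_fst, Prod.smul_snd, smul_eq_mul, coefA_smul, RingHom.id_apply]
    rw [Finset.smul_sum]
    refine Finset.sum_congr rfl fun n _ => ?_
    rw [C_mul, mul_assoc, Algebra.smul_def]
    rfl


/-! ## Passing between functions and their classes -/

lemma coeFn_sum_smul {X : Type*} [MeasurableSpace X] {μ : Measure X} {m : ℕ} (F : Fin m → Lp ℝ 2 μ)
    (G : Fin m → X → ℝ) (h : ∀ i, F i =ᵐ[μ] G i) (c : Fin m → ℝ) :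
    ((∑ i, c i • F i : Lp ℝ 2 μ) : X → ℝ) =ᵐ[μ] fun x => ∑ i, c i * G i x := by
  have key : ∀ s : Finset (Fin m), ((∑ i ∈ s, c i • F i : Lp ℝ 2 μ) : X → ℝ) =ᵐ[μ]
      fun x => ∑ i ∈ s, c i * G i x := by
    intro s
    induction s using Finset.induction_on with
    | empty =>
      simp only [Finset.sum_empty]
      exact Lp.coeFn_zero ℝ 2 μ
    | insert a s ha ih =>
      rw [Finset.sum_insert ha]
      filter_upwards [Lp.coeFn_add (c a • F a) (∑ i ∈ s, c i • F i), Lp.coeFn_smul (c a) (F a),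
        ih, h a] with x h1 h2 h3 h4
      rw [h1, Pi.add_apply, h2, Pi.smul_apply, h3, h4, Finset.sum_insert ha, smul_eq_mul]
  exact key Finset.univ

lemma steklov_le_eigenvalue (k : ℕ) (ρ : ℝ → ℝ) : steklov k ρ ≤ eigenvalue k ρ := by
  unfold eigenvalue
  refine le_iInf fun w => le_iInf fun hS => le_iInf fun h0 => ?_
  have m1 : ∀ i, MemLp (w i).u 2 muD := fun i => (hS i).1
  have m2 : ∀ i, MemLp (w i).g₁ 2 muD := fun i => (hS i).2.1
  have m3 : ∀ i, MemLp (w i).g₂ 2 muD := fun i => (hS i).2.2.1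
  have m4 : ∀ i, MemLp (w i).f 2 muG := fun i => (hS i).2.2.2.1
  have iD : ∀ (f : ℂ → ℝ) (hf : MemLp f 2 muD) (ψ : ℂ → ℝ),
      ∫ z, (hf.toLp f) z * ψ z ∂muD = ∫ z, f z * ψ z ∂muD := by
    intro f hf ψ
    apply integral_congr_ae
    filter_upwards [MemLp.coeFn_toLp hf] with z hz
    rw [hz]
  have iG : ∀ (f : ℝ → ℝ) (hf : MemLp f 2 muG) (ψ : ℝ → ℝ),
      ∫ z, (hf.toLp f) z * ψ z ∂muG = ∫ z, f z * ψ z ∂muG := by
    intro f hf ψ
    apply integral_congr_ae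
    filter_upwards [MemLp.coeFn_toLp hf] with z hz
    rw [hz]
  have hmem : ∀ i, (((m1 i).toLp _, (m2 i).toLp _, (m3 i).toLp _, (m4 i).toLp _) :
      Lp ℝ 2 muD × Lp ℝ 2 muD × Lp ℝ 2 muD × Lp ℝ 2 muG) ∈ H1 := by
    intro i φ hφ
    obtain ⟨g1, g2⟩ := (hS i).2.2.2.2 φ hφ
    constructor
    · rw [iD _ (m1 i), iD _ (m2 i), iG _ (m4 i)]; exact g1
    · rw [iD _ (m1 i), iD _ (m3 i), iG _ (m4 i)]; exact g2
  set W : Fin (k + 1) → H1 := fun i =>
    ⟨((m1 i).toLp _, (m2 i).toLp _, (m3 i).toLp _, (m4 i).toLp _), hmem i⟩ with hW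
  set T : (Fin (k + 1) → ℝ) →ₗ[ℝ] H1 := Fintype.linearCombination ℝ W with hT
  have hTc : ∀ c, T c = ∑ i, c i • W i := fun c => Fintype.linearCombination_apply ℝ W c
  have e1 : ∀ c, ((T c).1.1 : ℂ → ℝ) =ᵐ[muD] (comb w c).u := by
    intro c
    have : (T c).1.1 = ∑ i, c i • (m1 i).toLp _ := by
      rw [hTc]; simp [hW, Prod.fst_sum]
    rw [this]
    exact coeFn_sum_smul _ _ (fun i => (m1 i).coeFn_toLp) c
  have e2 : ∀ c, ((T c).1.2.1 : ℂ → ℝ) =ᵐ[muD] (comb w c).g₁ := by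
    intro c
    have : (T c).1.2.1 = ∑ i, c i • (m2 i).toLp _ := by
      rw [hTc]; simp [hW, Prod.fst_sum, Prod.snd_sum]
    rw [this]
    exact coeFn_sum_smul _ _ (fun i => (m2 i).coeFn_toLp) c
  have e3 : ∀ c, ((T c).1.2.2.1 : ℂ → ℝ) =ᵐ[muD] (comb w c).g₂ := by
    intro c
    have : (T c).1.2.2.1 = ∑ i, c i • (m3 i).toLp _ := by
      rw [hTc]; simp [hW, Prod.fst_sum, Prod.snd_sum]
    rw [this]
    exact coeFn_sum_smul _ _ (fun i => (m3 i).coeFn_toLp) c
  have e4 : ∀ c, ((T c).1.2.2.2 : ℝ → ℝ) =ᵐ[muG] (comb w c).f := by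
    intro c
    have : (T c).1.2.2.2 = ∑ i, c i • (m4 i).toLp _ := by
      rw [hTc]; simp [hW, Prod.snd_sum]
    rw [this]
    exact coeFn_sum_smul _ _ (fun i => (m4 i).coeFn_toLp) c
  have hinj : Function.Injective T := by
    rw [injective_iff_map_eq_zero]
    intro c hc
    funext i
    refine h0 c ?_ i
    have h1 := e1 c
    rw [hc] at h1
    exact h1.symm.trans (Lp.coeFn_zero ℝ 2 muD)
  have hfr : Module.finrank ℝ (LinearMap.range T) = k + 1 := by
    rw [LinearMap.finrank_range_of_inj hinj]; simp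
  unfold steklov
  refine iInf₂_le_of_le (LinearMap.range T) hfr ?_
  refine iSup_le fun w' => iSup_le fun hw => iSup_le fun hw0 => ?_
  obtain ⟨c, rfl⟩ := hw
  have hc : ∃ i, c i ≠ 0 := by
    by_contra hcon
    push Not at hcon
    apply hw0
    have : c = 0 := funext hcon
    rw [this, map_zero]
  have hq : rayleigh ρ (T c) = quotient ρ (comb w c) := by
    have e5 : mass ρ (T c) = ∫ θ, ρ θ * (comb w c).f θ ^ 2 ∂muG := by
      apply integral_congr_ae
      filter_upwards [e4 c] with z hz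
      rw [hz]
    have e6 : energy (T c) = ∫ z, ((comb w c).g₁ z ^ 2 + (comb w c).g₂ z ^ 2) ∂muD := by
      apply integral_congr_ae
      filter_upwards [e2 c, e3 c] with z h1 h2
      rw [h1, h2]
    unfold rayleigh quotient
    rw [e5, e6]
  rw [hq]
  exact le_iSup_of_le c (le_iSup_of_le hc le_rfl)

/-- The quadruple of functions attached to a polynomial. -/
noncomputable def fq (p : ℂ[X]) : Quad where
  u := reP p
  g₁ := reP (derivative p)
  g₂ := reP (derivative p * C I)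
  f θ := reP p (circ θ)

lemma reP_sum {m : ℕ} (c : Fin m → ℝ) (P : Fin m → ℂ[X]) (z : ℂ) :
    reP (∑ i, c i • P i) z = ∑ i, c i * reP (P i) z := by
  unfold reP
  rw [eval_finsetSum, Complex.re_sum]
  refine Finset.sum_congr rfl fun i _ => ?_
  rw [eval_smul, Complex.real_smul, re_ofReal_mul]

lemma comb_fq {m : ℕ} (c : Fin m → ℝ) (P : Fin m → ℂ[X]) :
    comb (fun i => fq (P i)) c = fq (∑ i, c i • P i) := by
  have h1 : derivative (∑ i, c i • P i) = ∑ i, c i • derivative (P i) := by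
    rw [map_sum]
    refine Finset.sum_congr rfl fun i _ => ?_
    rw [derivative_smul]
  have h2 : derivative (∑ i, c i • P i) * C I = ∑ i, c i • (derivative (P i) * C I) := by
    rw [h1, Finset.sum_mul]
    refine Finset.sum_congr rfl fun i _ => ?_
    rw [smul_mul_assoc]
  unfold comb fq
  congr 1
  · funext z; exact (reP_sum c P z).symm
  · funext z; rw [h1]; exact (reP_sum c _ z).symm
  · funext z; rw [h2]; exact (reP_sum c _ z).symm
  · funext θ; exact (reP_sum c P (circ θ)).symm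

lemma isSobolev_fq (p : ℂ[X]) : IsSobolev (fq p) := by
  refine ⟨memLp_muD (continuous_reP p), memLp_muD (continuous_reP _), memLp_muD (continuous_reP _),
    memLp_muG (continuous_reP_circ p), fun φ hφ => ?_⟩
  have two : (2 : WithTop ℕ∞) ≤ ∞ := WithTop.coe_le_coe.mpr le_top
  have g1 := green (reP p) φ ((contDiff_reP p).of_le two) (hφ.of_le two) 1
  have g2 := green (reP p) φ ((contDiff_reP p).of_le two) (hφ.of_le two) I
  simp only [fderiv_reP p, map_one, mul_one, one_re, one_im, I_re, I_im, one_mul, zero_mul,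
    add_zero, zero_add] at g1 g2
  exact ⟨g1, g2⟩

lemma reP_circ_eq_zero {p : ℂ[X]} (h : ∀ᵐ z ∂muD, reP p z = 0) (θ : ℝ) : reP p (circ θ) = 0 := by
  have h' : reP p =ᵐ[muD] 0 := h
  have h1 : EqOn (reP p) 0 (ball (0:ℂ) 1) :=
    Measure.eqOn_open_of_ae_eq h' isOpen_ball (continuous_reP p).continuousOn continuousOn_const
  have h2 : EqOn (reP p) 0 (closure (ball (0:ℂ) 1)) :=
    h1.closure (continuous_reP p) continuous_const
  apply h2
  rw [closure_ball (0:ℂ) one_ne_zero, mem_closedBall_zero_iff]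
  unfold circ
  rw [Complex.norm_exp_ofReal_mul_I]

lemma upper_eigenvalue (ε : ℝ) (K : ℕ) (hε : 0 < ε) (hεs : ε ≤ 1 / 100)
    (hK : ((K : ℝ) + 1) * ε ≤ 1) (hH3 : 200 ≤ Hs (K + 1)) (hH : ε * Hs (K + 1) ^ 2 ≤ 1) :
    eigenvalue 2 (gapDensity ε) ≤ ENNReal.ofReal (1 + ε - 5 / 6 * ε ^ 2 * Hs (K + 1)) := by
  have hπ := Real.pi_pos
  have hmt := fun a b c => mass_trial ε a b c K hε hεs hK (by linarith) hH
  have het := fun a b c => energy_trial ε a b c K
  set H := Hs (K + 1) with hHdef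
  have hx : ε * H ≤ 1 / 10 := by
    have : (ε * H) ^ 2 ≤ (1 / 10) ^ 2 := by nlinarith
    exact le_of_sq_le_sq this (by norm_num)
  have hcoef : 0 < 1 - ε + 2 * ε ^ 2 * H - 26 * ε ^ 2 := by nlinarith [mul_pos hε hε]
  set P : Fin (2 + 1) → ℂ[X] := ![trialMap ε (K + 1) (1, 0, 0), trialMap ε (K + 1) (0, 1, 0),
    trialMap ε (K + 1) (0, 0, 1)] with hP
  have hPc : ∀ c : Fin (2 + 1) → ℝ, comb (fun i => fq (P i)) c =
      fq (poly (K + 1) (coefA ε (c 0) (c 1) (c 2))) := by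
    intro c
    rw [comb_fq]
    congr 1
    have h1 : ∑ i, c i • P i = trialMap ε (K + 1) (c 0, c 1, c 2) := by
      rw [Fin.sum_univ_three]
      simp only [hP, Matrix.cons_val_zero, Matrix.cons_val_one, Matrix.cons_val_two,
        Matrix.head_cons, Matrix.tail_cons]
      rw [← map_smul, ← map_smul, ← map_smul, ← map_add, ← map_add]
      congr 1
      simp
    rw [h1]; rfl
  have hTm : ∀ c : Fin (2 + 1) → ℝ, ∫ θ, gapDensity ε θ * (comb (fun i => fq (P i)) c).f θ ^ 2 ∂muG =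
      mass (gapDensity ε) (ofPoly (poly (K + 1) (coefA ε (c 0) (c 1) (c 2)))) := by
    intro c
    rw [mass_ofPoly, hPc]; rfl
  have hTe : ∀ c : Fin (2 + 1) → ℝ, ∫ z, ((comb (fun i => fq (P i)) c).g₁ z ^ 2 +
      (comb (fun i => fq (P i)) c).g₂ z ^ 2) ∂muD =
      energy (ofPoly (poly (K + 1) (coefA ε (c 0) (c 1) (c 2)))) := by
    intro c
    rw [energy_ofPoly, hPc]; rfl
  have hpos : ∀ c : Fin (2 + 1) → ℝ, (∃ i, c i ≠ 0) →
      0 < ∫ θ, gapDensity ε θ * (comb (fun i => fq (P i)) c).f θ ^ 2 ∂muG := by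
    intro c hc
    rw [hTm]
    refine lt_of_lt_of_le ?_ (hmt (c 0) (c 1) (c 2))
    refine mul_pos hπ ?_
    have hne : c 0 ≠ 0 ∨ c 1 ≠ 0 ∨ c 2 ≠ 0 := by
      obtain ⟨i, hi⟩ := hc
      fin_cases i
      · exact Or.inl hi
      · exact Or.inr (Or.inl hi)
      · exact Or.inr (Or.inr hi)
    have h1 : 0 < 1 - 2 * ε := by linarith
    rcases hne with h | h | h
    · have := sq_pos_of_ne_zero h
      have : 0 < c 0 ^ 2 * (1 - 2 * ε) := by positivity
      nlinarith [mul_nonneg (add_nonneg (sq_nonneg (c 1)) (sq_nonneg (c 2))) hcoef.le]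
    · have := sq_pos_of_ne_zero h
      have : 0 < (c 1 ^ 2 + c 2 ^ 2) * (1 - ε + 2 * ε ^ 2 * H - 26 * ε ^ 2) := by positivity
      nlinarith [mul_nonneg (sq_nonneg (c 0)) h1.le]
    · have := sq_pos_of_ne_zero h
      have : 0 < (c 1 ^ 2 + c 2 ^ 2) * (1 - ε + 2 * ε ^ 2 * H - 26 * ε ^ 2) := by positivity
      nlinarith [mul_nonneg (sq_nonneg (c 0)) h1.le]
  unfold eigenvalue
  refine iInf_le_of_le (fun i => fq (P i)) (iInf_le_of_le ?_ (iInf_le_of_le ?_ ?_))
  · intro i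
    exact isSobolev_fq _
  · intro c hc
    by_contra hcon
    push Not at hcon
    have h1 := hpos c hcon
    have h2 : ∀ θ, (comb (fun i => fq (P i)) c).f θ = 0 := by
      intro θ
      rw [hPc] at hc ⊢
      exact reP_circ_eq_zero hc θ
    simp only [h2] at h1
    simp at h1
  refine iSup_le fun c => iSup_le fun hc => ?_
  have hm := hpos c hc
  unfold quotient
  rw [if_neg hm.ne']
  apply ENNReal.ofReal_le_ofReal
  rw [div_le_iff₀ hm]
  have h1 := hmt (c 0) (c 1) (c 2)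
  have h2 := het (c 0) (c 1) (c 2)
  rw [← hTm c] at h1
  rw [← hTe c] at h2
  refine h2.trans ?_
  have hc0 : 0 < 1 + ε - 5 / 6 * ε ^ 2 * H := by nlinarith
  refine le_trans ?_ (mul_le_mul_of_nonneg_left h1 hc0.le)
  have hkey : 1 + ε ^ 2 * H ≤ (1 + ε - 5 / 6 * ε ^ 2 * H) * (1 - ε + 2 * ε ^ 2 * H - 26 * ε ^ 2) := by
    have e1 : ε ^ 2 * H * (ε ^ 2 * H) ≤ ε ^ 3 := by
      have : ε ^ 2 * H * (ε ^ 2 * H) = ε ^ 3 * (ε * H ^ 2) := by ring
      rw [this]
      have : 0 ≤ ε ^ 3 := by positivity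
      nlinarith
    have e2 : 200 * ε ^ 2 ≤ ε ^ 2 * H := by nlinarith [mul_pos hε hε]
    have e3 : 0 ≤ ε ^ 3 * H := by positivity
    have e4 : ε ^ 3 ≤ ε ^ 2 / 100 := by nlinarith [mul_pos hε hε]
    have e5 : 0 ≤ ε ^ 4 * H := by positivity
    nlinarith
  have hsq : 0 ≤ c 0 ^ 2 * (1 - 2 * ε) := mul_nonneg (sq_nonneg _) (by linarith)
  have hbc : 0 ≤ c 1 ^ 2 + c 2 ^ 2 := by positivity
  have h5 := mul_le_mul_of_nonneg_left hkey hbc
  have h6 : (c 1 ^ 2 + c 2 ^ 2) * (1 + ε ^ 2 * H) ≤ (1 + ε - 5 / 6 * ε ^ 2 * H) *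
      (c 0 ^ 2 * (1 - 2 * ε) + (c 1 ^ 2 + c 2 ^ 2) * (1 - ε + 2 * ε ^ 2 * H - 26 * ε ^ 2)) := by
    nlinarith [mul_nonneg hc0.le hsq]
  have := mul_le_mul_of_nonneg_left h6 hπ.le
  nlinarith

lemma Hs_eq (M : ℕ) : Hs M = (harmonic M : ℝ) := by
  unfold Hs harmonic
  push_cast
  refine Finset.sum_congr rfl fun i _ => ?_
  rw [one_div]

lemma exists_M : ∃ M₀ : ℕ, ∀ M : ℕ, M₀ ≤ M → 200 ≤ Hs M ∧ Hs M ^ 2 ≤ M := by
  have h1 : ∀ᶠ x : ℝ in atTop, Real.log x ^ 2 ≤ 1 / 4 * x := by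
    have h := (Real.isLittleO_pow_log_id_atTop (n := 2)).bound (show (0 : ℝ) < 1 / 4 by norm_num)
    filter_upwards [h, eventually_ge_atTop 0] with x hx hx0
    rw [Real.norm_eq_abs, Real.norm_eq_abs] at hx
    rw [id, abs_of_nonneg hx0, abs_of_nonneg (sq_nonneg _)] at hx
    exact hx
  have h2 : ∀ᶠ x : ℝ in atTop, 200 ≤ Real.log x := Real.tendsto_log_atTop.eventually_ge_atTop 200
  have h3 := tendsto_natCast_atTop_atTop (R := ℝ) |>.eventually (h1.and h2)
  obtain ⟨M₀, hM₀⟩ := eventually_atTop.mp h3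
  refine ⟨max M₀ 1, fun M hM => ?_⟩
  obtain ⟨h4, h5⟩ := hM₀ M ((le_max_left _ _).trans hM)
  have hM1 : 1 ≤ M := (le_max_right _ _).trans hM
  rw [Hs_eq]
  have h6 := log_add_one_le_harmonic M
  have h7 := harmonic_le_one_add_log M
  have h8 : Real.log (M : ℝ) ≤ Real.log ((M + 1 : ℕ) : ℝ) := by
    apply Real.log_le_log
    · exact_mod_cast hM1
    · push_cast; linarith
  constructor
  · linarith
  · have h9 : (harmonic M : ℝ) ≤ 2 * Real.log M := by linarith
    have h10 : 0 ≤ (harmonic M : ℝ) := by linarith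
    nlinarith

lemma muG_univ : ∫ _θ : ℝ, (1 : ℝ) ∂muG = 2 * π := by
  rw [integral_muG, intervalIntegral.integral_const, smul_eq_mul]; ring

lemma isDensity_gap (α : ℝ) (h0 : 1 / 2 < α) (h1 : α < 1) : IsDensity α (gapDensity (1 - α)) := by
  refine ⟨measurable_gapDensity _, periodic_gapDensity _, gapDensity_01 _, ?_⟩
  have := integral_gaps (1 - α) (by linarith) (by linarith) (fun _ => 1) continuous_const
  simp only [mul_one] at this
  rw [this, muG_univ, intervalIntegral.integral_const, intervalIntegral.integral_const, smul_eq_mul,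
    smul_eq_mul]
  ring

lemma periodic_arcs (n : ℕ) (hn : n ≠ 0) (α θ : ℝ) : θ + 2 * π ∈ arcs n α ↔ θ ∈ arcs n α := by
  have hn' : (n : ℝ) ≠ 0 := by exact_mod_cast hn
  constructor
  · rintro ⟨m, hm⟩
    refine ⟨m - n, ?_⟩
    have e1 : θ - 2 * π * ((m - n : ℤ) : ℝ) / n = θ + 2 * π - 2 * π * m / n := by
      push_cast; field_simp; ring
    rw [e1]; exact hm
  · rintro ⟨m, hm⟩
    refine ⟨m + n, ?_⟩
    have e1 : θ + 2 * π - 2 * π * ((m + n : ℤ) : ℝ) / n = θ - 2 * π * m / n := by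
      push_cast; field_simp; ring
    rw [e1]; exact hm

lemma periodic_arcsDensity (n : ℕ) (hn : n ≠ 0) (α : ℝ) :
    Function.Periodic (arcsDensity n α) (2 * π) := by
  intro θ
  unfold arcsDensity
  by_cases h : θ ∈ arcs n α
  · rw [indicator_of_mem h, indicator_of_mem ((periodic_arcs n hn α θ).mpr h)]
  · have h' : θ + 2 * π ∉ arcs n α := fun hh => h ((periodic_arcs n hn α θ).mp hh)
    rw [indicator_of_notMem h, indicator_of_notMem h']

lemma isDensity_arcs (α : ℝ) (h0 : 0 < α) (h1 : α < 1) : IsDensity α (arcsDensity 3 α) := by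
  refine ⟨measurable_arcsDensity _ _, periodic_arcsDensity 3 (by norm_num) α, arcsDensity_01 _ _, ?_⟩
  have h := Rk_zero α h0 h1
  unfold Rk at h
  have e : ∀ θ : ℝ, (arcsDensity 3 α θ : ℂ) * cexp (((0 : ℤ) : ℂ) * θ * I) = ((arcsDensity 3 α θ : ℝ) : ℂ) := by
    intro θ; simp
  simp only [e] at h
  rw [integral_complex_ofReal] at h
  have h2 : (∫ θ, arcsDensity 3 α θ ∂muG) = 2 * π * α := by exact_mod_cast h
  rw [h2]; ring

/-- Two gaps beat three: the comparison of the second eigenvalues. -/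
theorem two_gaps : ∃ α₀ : ℝ, 0 < α₀ ∧ α₀ < 1 ∧ ∀ α : ℝ, α₀ < α → α < 1 →
    IsDensity α (arcsDensity 3 α) ∧ IsDensity α (gapDensity (1 - α)) ∧
      eigenvalue 2 (gapDensity (1 - α)) < eigenvalue 2 (arcsDensity 3 α) := by
  obtain ⟨M₀, hM₀⟩ := exists_M
  refine ⟨1 - 1 / ((M₀ : ℝ) + 100), ?_, ?_, fun α hα hα1 => ?_⟩
  · have : 1 / ((M₀ : ℝ) + 100) ≤ 1 / 100 :=
      one_div_le_one_div_of_le (by norm_num) (by linarith [Nat.cast_nonneg (α := ℝ) M₀])
    linarith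
  · have : 0 < 1 / ((M₀ : ℝ) + 100) := by positivity
    linarith
  · have hM₀' : (0 : ℝ) ≤ M₀ := Nat.cast_nonneg _
    set ε := 1 - α with hεdef
    have hε : 0 < ε := by linarith
    have hε2 : ε < 1 / ((M₀ : ℝ) + 100) := by linarith
    have hεs : ε ≤ 1 / 100 := by
      have : 1 / ((M₀ : ℝ) + 100) ≤ 1 / 100 :=
        one_div_le_one_div_of_le (by norm_num) (by linarith)
      linarith
    have hinv : (M₀ : ℝ) + 100 < 1 / ε := by
      rw [lt_div_iff₀ hε]
      rw [lt_div_iff₀ (by positivity)] at hε2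
      linarith
    obtain ⟨K, hK⟩ : ∃ K : ℕ, ⌊1 / ε⌋₊ = K + 1 := by
      apply Nat.exists_eq_succ_of_ne_zero
      have : 1 ≤ ⌊1 / ε⌋₊ := Nat.le_floor (by push_cast; linarith)
      omega
    have hfl : ((K : ℝ) + 1) ≤ 1 / ε := by
      have := Nat.floor_le (show 0 ≤ 1 / ε by positivity)
      rw [hK] at this
      push_cast at this
      exact this
    have hfl2 : 1 / ε < (K : ℝ) + 1 + 1 := by
      have := Nat.lt_floor_add_one (1 / ε)
      rw [hK] at this
      push_cast at this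
      exact this
    have hMK : M₀ ≤ K + 1 := by
      have : (M₀ : ℝ) < (K : ℝ) + 1 + 1 := by linarith
      have : M₀ < K + 1 + 1 := by exact_mod_cast this
      omega
    obtain ⟨hH200, hHsq⟩ := hM₀ (K + 1) hMK
    have hKε : ((K : ℝ) + 1) * ε ≤ 1 := by
      rwa [le_div_iff₀ hε] at hfl
    have hHε : ε * Hs (K + 1) ^ 2 ≤ 1 := by
      push_cast at hHsq
      nlinarith
    have hKinv : 1 / (((K + 1 : ℕ) : ℝ) + 1) ≤ ε := by
      push_cast
      rw [div_le_iff₀ (by positivity)]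
      rw [div_lt_iff₀ hε] at hfl2
      linarith
    refine ⟨isDensity_arcs α (by linarith) hα1, isDensity_gap α (by linarith) hα1, ?_⟩
    have hup := upper_eigenvalue ε K hε hεs hKε hH200 hHε
    set H := Hs (K + 1) with hHdef
    have hx : ε * H ≤ 1 / 10 := by
      have : (ε * H) ^ 2 ≤ (1 / 10) ^ 2 := by nlinarith
      exact le_of_sq_le_sq this (by norm_num)
    have hε2H : ε ^ 2 * H ≤ ε / 10 := by nlinarith
    have hlow := lower_steklov α ε (1 + ε - 3 / 4 * ε ^ 2 * H) (by linarith) hα1 hεdef (K + 1)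
      hKinv (by nlinarith) (by nlinarith [mul_pos hε hε]) (by
        rw [← hHdef]
        have g1 : (1 + ε - 3 / 4 * ε ^ 2 * H) ^ 2 ≤ 1 + 3 * ε := by
          have g2 : 0 ≤ 1 + ε - 3 / 4 * ε ^ 2 * H := by nlinarith
          have g3 : 1 + ε - 3 / 4 * ε ^ 2 * H ≤ 1 + ε := by nlinarith [mul_pos hε hε]
          have g4 : (1 + ε - 3 / 4 * ε ^ 2 * H) ^ 2 ≤ (1 + ε) ^ 2 := pow_le_pow_left₀ g2 g3 2
          nlinarith
        have g5 : 0 ≤ 2 / 3 * ε ^ 2 * H + 3 * ε ^ 2 := by positivity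
        have g6 := mul_le_mul_of_nonneg_right g1 g5
        refine g6.trans ?_
        have g7 : 200 * ε ^ 2 ≤ ε ^ 2 * H := by nlinarith [mul_pos hε hε]
        have g8 : ε ^ 3 * H ≤ ε ^ 2 * H / 100 := by
          have : 0 ≤ ε ^ 2 * H := by positivity
          nlinarith
        have g9 : ε ^ 3 ≤ ε ^ 2 / 100 := by nlinarith [mul_pos hε hε]
        nlinarith)
    refine lt_of_le_of_lt hup (lt_of_lt_of_le ?_ (hlow.trans (steklov_le_eigenvalue 2 _)))
    apply (ENNReal.ofReal_lt_ofReal_iff_of_nonneg (by nlinarith)).mpr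
    have : 0 < ε ^ 2 * H := by positivity
    nlinarith

end Pool.Agent.Steklov
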